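import Pool.Agent.Helper31_Eff.Closed

section

/-!
# The formulas of the construction and their meaning
-/

namespace Helper31Con

open Function Filter Fm

variable {con : Fm} {g : ℕ → ℕ} {s₀ : ℕ}

/-! ### Meaning -/

/-- Meaning of `con` at a code and a bound. -/
def cP (con : Fm) (z n : ℕ) : Prop := con.Sat (as [z, n])

lemma IsCon.cP_iff (hcon : IsCon con) (e : ℕ → ℕ) : con.Sat e ↔ cP con (e 0) (e 1) := by
  refine Fm.sat_congr fun k hk => ?_
  have := hcon.free k hk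
  interval_cases k <;> rfl

section Sem

variable (con : Fm) (g : ℕ → ℕ) (s₀ D c : ℕ)

/-- `Con_{T_m^v}(x_{i,m})` -/
def sC (m i v : ℕ) : Prop := ∀ z, CdT con m v c z → cP con z (nod g s₀ D i m)

/-- Triggers. -/
def sTR : ℕ → ℕ → ℕ → Prop
  | 0, _, i => sC con g s₀ D c 0 i 0
  | d + 1, m, i => ∃ b < i, ∃ a ≥ i, sTR d (m + 1) a ∧ ¬ sC con g s₀ D c (m + 1) a b

/-- `Φ` -/
def sP (d m v : ℕ) : Prop :=
  ∀ a, v < a → sTR con g s₀ D c d m a → sC con g s₀ D c m a v

/-- Consistency of `A_m^v`. -/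
def sCA (m v : ℕ) : Prop := ∀ n z, CdA m v c z → cP con z n

/-- All statements `Θ` from level `m` on. -/
def sTT : ℕ → ℕ → Prop
  | 0, m => ∀ v, sP con g s₀ D c 0 m v → sCA con c m v
  | d + 1, m => (∀ v, sP con g s₀ D c (d + 1) m v ∧ sTT d (m + 1) → sCA con c m v) ∧ sTT d (m + 1)

/-- `Ξ` -/
def sX : ℕ → ℕ → ℕ → Prop
  | 0, m, v => sP con g s₀ D c 0 m v
  | d + 1, m, v => sP con g s₀ D c (d + 1) m v ∧ sTT con g s₀ D c d (m + 1)

variable {con g s₀ D c}

lemma sX_sP {d m v : ℕ} (h : sX con g s₀ D c d m v) : sP con g s₀ D c d m v := by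
  cases d with
  | zero => exact h
  | succ d => exact h.1

lemma sX_of {d m v : ℕ} (h : sTT con g s₀ D c d m) (h' : sP con g s₀ D c d m v) :
    sX con g s₀ D c d m v := by
  cases d with
  | zero => exact h'
  | succ d => exact ⟨h', h.2⟩

lemma sTT_app {d m v : ℕ} (h : sTT con g s₀ D c d m) (h' : sX con g s₀ D c d m v) :
    sCA con c m v := by
  cases d with
  | zero => exact h v h'
  | succ d => exact h.1 v h'

/-- The basic step: if version `b` at level `m + 1` fails, but not before node `a`, then version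
`v` at level `m` proves its consistency at node `a`. -/
lemma sem_step {d m v a b : ℕ} (h : sX con g s₀ D c (d + 1) m v) (hva : v < a) (hba : b < a)
    (hE : ∀ j, b < j → j < a → sC con g s₀ D c (m + 1) j b)
    (hn : ¬ sX con g s₀ D c d (m + 1) b) : sC con g s₀ D c m a v := by
  refine h.1 a hva ?_
  have h1 : ¬ sP con g s₀ D c d (m + 1) b := fun h' => hn (sX_of h.2 h')
  unfold sP at h1
  push Not at h1
  obtain ⟨a', h2, h3, h4⟩ := h1
  refine ⟨b, hba, a', ?_, h3, h4⟩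
  by_contra h5
  exact h4 (hE a' h2 (by omega))

end Sem

/-! ### Formulas -/

section Forms

variable (I : Iface (Rel con g s₀)) (D : ℕ)

/-- The formula for `sC`. -/
def CF (m : ℕ) (a b : Tm) : Fm :=
  all 1 (all 0 (imp (I.A 21 a (.num m) (.num D) (x 1)) (imp (I.A 25 (.num m) b (x 2) (x 0)) con)))

/-- The formula for `sTR`. -/
def TR : ℕ → ℕ → Fm
  | 0, m => CF I D 0 (x (av m)) .zero
  | d + 1, m => ex (bv (m + 1)) (Fm.and (lt (x (bv (m + 1))) (x (av m)))
      (ex (av (m + 1)) (Fm.and (le (x (av m)) (x (av (m + 1))))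
        (Fm.and (TR d (m + 1)) (neg (CF I D (m + 1) (x (av (m + 1))) (x (bv (m + 1)))))))))

/-- The formula for `sP`. -/
def PF (d m : ℕ) : Fm :=
  all (av m) (imp (lt (x (bv m)) (x (av m))) (imp (TR I D d m) (CF I D m (x (av m)) (x (bv m)))))

/-- The formula for `sCA`. -/
def CAF (m : ℕ) : Fm :=
  all 1 (all 0 (imp (I.A 24 (.num m) (x (bv m)) (x 2) (x 0)) con))

/-- The formula for `sTT`. -/
def TTF : ℕ → ℕ → Fm
  | 0, m => all (bv m) (imp (PF I D 0 m) (CAF I m))
  | d + 1, m => Fm.and (all (bv m) (imp (Fm.and (PF I D (d + 1) m) (TTF d (m + 1))) (CAF I m)))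
      (TTF d (m + 1))

/-- The formula for `sX`. -/
def XF : ℕ → ℕ → Fm
  | 0, m => PF I D 0 m
  | d + 1, m => Fm.and (PF I D (d + 1) m) (TTF I D d (m + 1))

end Forms

lemma al_av (m : ℕ) : Al (av m) := Or.inr (by unfold av; omega)
lemma al_bv (m : ℕ) : Al (bv m) := Or.inr (by unfold bv; omega)

section SatLemmas

variable {I : Iface (Rel con g s₀)} {D : ℕ} (hcon : IsCon con)
include hcon

lemma sat_CF {m : ℕ} {a b : Tm} (ha : a.Alw) (hb : b.Alw) (ha0 : ¬ a.Has 0) (ha1 : ¬ a.Has 1)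
    (hb0 : ¬ b.Has 0) (hb1 : ¬ b.Has 1) (e : ℕ → ℕ) :
    (CF I D m a b).Sat e ↔ sC con g s₀ D (e 2) m (a.val e) (b.val e) := by
  have key : ∀ (t : Tm) (n z : ℕ), ¬ t.Has 0 → ¬ t.Has 1 →
      t.val (update (update e 1 n) 0 z) = t.val e := by
    intro t n z h0 h1
    refine Tm.val_congr fun k hk => ?_
    have hk0 : k ≠ 0 := by rintro rfl; exact h0 hk
    have hk1 : k ≠ 1 := by rintro rfl; exact h1 hk
    rw [update_of_ne hk0, update_of_ne hk1]
  constructor
  · intro h z hz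
    have h1 := h (nod g s₀ D (a.val e) m) z
    have h2 : con.Sat (update (update e 1 (nod g s₀ D (a.val e) m)) 0 z) := by
      refine h1 ?_ ?_
      · rw [I.satA (by simp [Al, ha])]
        show _ = nod g s₀ _ _ _
        rw [key a _ _ ha0 ha1, Tm.val_num, Tm.val_num]
        simp [Tm.val]
      · rw [I.satA (by simp [Al, hb])]
        show CdT con _ _ _ _
        rw [key b _ _ hb0 hb1, Tm.val_num]
        simpa [Tm.val] using hz
    rw [hcon.cP_iff] at h2
    simpa using h2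
  · intro h n z h1 h2
    rw [I.satA (by simp [Al, ha])] at h1
    rw [I.satA (by simp [Al, hb])] at h2
    have h1' : (x 1).val (update (update e 1 n) 0 z) = nod g s₀
      ((Tm.num D).val (update (update e 1 n) 0 z)) (a.val (update (update e 1 n) 0 z))
      ((Tm.num m).val (update (update e 1 n) 0 z)) := h1
    rw [key a _ _ ha0 ha1, Tm.val_num, Tm.val_num] at h1'
    have h2' : CdT con ((Tm.num m).val (update (update e 1 n) 0 z))
      (b.val (update (update e 1 n) 0 z)) ((x 2).val (update (update e 1 n) 0 z))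
      ((x 0).val (update (update e 1 n) 0 z)) := h2
    rw [key b _ _ hb0 hb1, Tm.val_num] at h2'
    simp [Tm.val] at h1' h2'
    rw [hcon.cP_iff]
    simp only [update_self, update_of_ne (show (1 : ℕ) ≠ 0 by omega)]
    rw [h1']
    exact h z h2'

lemma sat_CFv {m p q : ℕ} (hp : Al p) (hq : Al q) (hp2 : 2 ≤ p) (hq2 : 2 ≤ q) (e : ℕ → ℕ) :
    (CF I D m (x p) (x q)).Sat e ↔ sC con g s₀ D (e 2) m (e p) (e q) :=
  sat_CF hcon (Tm.alw_var hp) (Tm.alw_var hq) (by simp only [Tm.Has]; omega)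
    (by simp only [Tm.Has]; omega) (by simp only [Tm.Has]; omega) (by simp only [Tm.Has]; omega) e

lemma sat_CFz {m p : ℕ} (hp : Al p) (hp2 : 2 ≤ p) (e : ℕ → ℕ) :
    (CF I D m (x p) .zero).Sat e ↔ sC con g s₀ D (e 2) m (e p) 0 :=
  sat_CF hcon (Tm.alw_var hp) alw_zero (by simp only [Tm.Has]; omega)
    (by simp only [Tm.Has]; omega) (by simp [Tm.Has]) (by simp [Tm.Has]) e

lemma sat_TR (d m : ℕ) (e : ℕ → ℕ) :
    (TR I D d m).Sat e ↔ sTR con g s₀ D (e 2) d m (e (av m)) := by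
  induction d generalizing m e with
  | zero => exact sat_CFz hcon (al_av m) (by unfold av; omega) e
  | succ d ih =>
    simp only [TR, sat_ex, sat_and, sat_lt, sat_neg, sTR, ih]
    refine exists_congr fun b => and_congr ?_ (exists_congr fun a => and_congr ?_ (and_congr ?_ ?_))
    · simp only [Tm.val, update_self]
      rw [update_of_ne (by unfold av bv; omega)]
    · simp only [Fm.Sat, Tm.val, update_self]
      rw [update_of_ne (by unfold av; omega), update_of_ne (by unfold av bv; omega)]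
    · rw [update_of_ne (by unfold av; omega), update_of_ne (by unfold bv; omega), update_self]
    · have k1 : update (update e (bv (m + 1)) b) (av (m + 1)) a 2 = e 2 := by
        rw [update_of_ne (by unfold av; omega), update_of_ne (by unfold bv; omega)]
      have k2 : update (update e (bv (m + 1)) b) (av (m + 1)) a (bv (m + 1)) = b := by
        rw [update_of_ne (by unfold av bv; omega), update_self]
      rw [sat_CFv hcon (al_av _) (al_bv _) (by unfold av; omega) (by unfold bv; omega), k1, k2,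
        update_self]

lemma sat_PF (d m : ℕ) (e : ℕ → ℕ) :
    (PF I D d m).Sat e ↔ sP con g s₀ D (e 2) d m (e (bv m)) := by
  refine forall_congr' fun a => ?_
  simp only [Fm.Sat, sat_lt, sat_TR hcon]
  rw [sat_CFv hcon (al_av _) (al_bv _) (by unfold av; omega) (by unfold bv; omega)]
  simp only [Tm.val, update_self]
  rw [update_of_ne (show bv m ≠ av m by unfold av bv; omega),
    update_of_ne (show (2 : ℕ) ≠ av m by unfold av; omega)]

lemma sat_CAF (m : ℕ) (e : ℕ → ℕ) : (CAF I m).Sat e ↔ sCA con (e 2) m (e (bv m)) := by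
  refine forall_congr' fun n => forall_congr' fun z => ?_
  show (_ → _) ↔ (_ → _)
  have h1 : (I.A 24 (.num m) (x (bv m)) (x 2) (x 0)).Sat (update (update e 1 n) 0 z) ↔
      CdA m (e (bv m)) (e 2) z := by
    rw [I.satA ⟨alw_num m, Tm.alw_var (al_bv m), by simp [Al], by simp [Al]⟩]
    show CdA _ _ _ _ ↔ _
    rw [Tm.val_num]
    simp only [Tm.val, update_self]
    rw [update_of_ne (by unfold bv; omega), update_of_ne (by unfold bv; omega),
      update_of_ne (by omega), update_of_ne (by omega)]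
  rw [h1, hcon.cP_iff, update_self, update_of_ne (by omega), update_self]

lemma sat_TTF (d m : ℕ) (e : ℕ → ℕ) : (TTF I D d m).Sat e ↔ sTT con g s₀ D (e 2) d m := by
  induction d generalizing m e with
  | zero =>
    refine forall_congr' fun v => ?_
    show (_ → _) ↔ (_ → _)
    rw [sat_PF hcon, sat_CAF hcon, update_self, update_of_ne (by unfold bv; omega)]
  | succ d ih =>
    simp only [TTF, sat_and, sTT, ih]
    refine and_congr (forall_congr' fun v => ?_) Iff.rfl
    show (_ → _) ↔ (_ → _)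
    rw [sat_and, sat_PF hcon, sat_CAF hcon, ih, update_self, update_of_ne (by unfold bv; omega)]

lemma sat_XF (d m : ℕ) (e : ℕ → ℕ) :
    (XF I D d m).Sat e ↔ sX con g s₀ D (e 2) d m (e (bv m)) := by
  cases d with
  | zero => exact sat_PF hcon 0 m e
  | succ d => simp only [XF, sat_and, sX, sat_PF hcon, sat_TTF hcon]

/-! ### Free variables -/

lemma free_CF {m : ℕ} {a b : Tm} (ha : a.Alw) (hb : b.Alw) {k : ℕ}
    (h : (CF I D m a b).Free k) : k = 2 ∨ a.Has k ∨ b.Has k := by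
  obtain ⟨h1, h0, h2 | h2 | h2⟩ := h
  · rcases I.free _ _ _ _ _ _ ha (alw_num m) (alw_num D) (Tm.alw_var (Or.inl (by omega))) h2 with
      h | h | h | h
    · exact Or.inr (Or.inl h)
    · exact absurd h (Tm.not_has_num _ _)
    · exact absurd h (Tm.not_has_num _ _)
    · exact absurd h h1
  · rcases I.free _ _ _ _ _ _ (alw_num m) hb (Tm.alw_var (Or.inl (by omega)))
      (Tm.alw_var (Or.inl (by omega))) h2 with h | h | h | h
    · exact absurd h (Tm.not_has_num _ _)
    · exact Or.inr (Or.inr h)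
    · exact Or.inl h.symm
    · exact absurd h h0
  · have := hcon.free k h2
    omega

lemma free_CFv {m p q : ℕ} (hp : Al p) (hq : Al q) {k : ℕ}
    (h : (CF I D m (x p) (x q)).Free k) : k = 2 ∨ k = p ∨ k = q := by
  rcases free_CF hcon (Tm.alw_var hp) (Tm.alw_var hq) h with h | h | h
  · exact Or.inl h
  · exact Or.inr (Or.inl h.symm)
  · exact Or.inr (Or.inr h.symm)

lemma free_TR {d m k : ℕ} (h : (TR I D d m).Free k) : k = 2 ∨ k = av m := by
  induction d generalizing m k with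
  | zero =>
    rcases free_CF hcon (Tm.alw_var (al_av m)) alw_zero h with h | h | h
    · exact Or.inl h
    · exact Or.inr h.symm
    · exact absurd h (by simp [Tm.Has])
  | succ d ih =>
    simp only [TR, free_ex, free_and, free_lt, free_neg] at h
    obtain ⟨h1, (h2 | h2) | ⟨h2, h3 | h3 | h3⟩⟩ := h
    · exact absurd h2 h1
    · exact Or.inr h2.symm
    · rcases h3 with h3 | h3
      · exact Or.inr h3.symm
      · exact absurd h3 h2
    · rcases ih h3 with h | h
      · exact Or.inl h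
      · exact absurd h.symm h2
    · rcases free_CFv hcon (al_av _) (al_bv _) h3 with h | h | h
      · exact Or.inl h
      · exact absurd h.symm h2
      · exact absurd h.symm h1

lemma free_PF {d m k : ℕ} (h : (PF I D d m).Free k) : k = 2 ∨ k = bv m := by
  obtain ⟨h1, h2 | h2 | h2⟩ := h
  · rw [free_lt] at h2
    rcases h2 with h | h
    · exact Or.inr h.symm
    · exact absurd h h1
  · rcases free_TR hcon h2 with h | h
    · exact Or.inl h
    · exact absurd h.symm h1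
  · rcases free_CFv hcon (al_av _) (al_bv _) h2 with h | h | h
    · exact Or.inl h
    · exact absurd h.symm h1
    · exact Or.inr h

lemma free_CAF {m k : ℕ} (h : (CAF I m).Free k) : k = 2 ∨ k = bv m := by
  obtain ⟨h1, h0, h2 | h2⟩ := h
  · rcases I.free _ _ _ _ _ _ (alw_num m) (Tm.alw_var (al_bv m)) (Tm.alw_var (Or.inl (by omega)))
      (Tm.alw_var (Or.inl (by omega))) h2 with h | h | h | h
    · exact absurd h (Tm.not_has_num _ _)
    · exact Or.inr h.symm
    · exact Or.inl h.symm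
    · exact absurd h h0
  · have := hcon.free k h2
    omega

lemma free_TTF {d m k : ℕ} (h : (TTF I D d m).Free k) : k = 2 := by
  induction d generalizing m k with
  | zero =>
    obtain ⟨h1, h2 | h2⟩ := h
    · rcases free_PF hcon h2 with h | h
      · exact h
      · exact absurd h.symm h1
    · rcases free_CAF hcon h2 with h | h
      · exact h
      · exact absurd h.symm h1
  | succ d ih =>
    simp only [TTF, free_and] at h
    rcases h with ⟨h1, h2 | h2⟩ | h
    · rw [free_and] at h2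
      rcases h2 with h2 | h2
      · rcases free_PF hcon h2 with h | h
        · exact h
        · exact absurd h.symm h1
      · exact ih h2
    · rcases free_CAF hcon h2 with h | h
      · exact h
      · exact absurd h.symm h1
    · exact ih h

lemma free_XF {d m k : ℕ} (h : (XF I D d m).Free k) : k = 2 ∨ k = bv m := by
  cases d with
  | zero => exact free_PF hcon h
  | succ d =>
    simp only [XF, free_and] at h
    rcases h with h | h
    · exact free_PF hcon h
    · exact Or.inl (free_TTF hcon h)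

end SatLemmas

end Helper31Con

end

section

/-!
# The theories of the construction and their semantics
-/

namespace Helper31Con

open Function Filter Fm

variable {con : Fm} {g : ℕ → ℕ} {s₀ : ℕ}

lemma sub_sb_num (con : Fm) (z : ℕ) : con.sub 0 (.num z) = con.sb (update Tm.var 0 (.num z)) :=
  Fm.sub_eq_sb _ _ _

lemma IsCon.conN_eq (hcon : IsCon con) (T : List Fm) (n : ℕ) :
    conN con T n = con.cl (as [lc T, n]) := by
  unfold conN
  rw [sub_sb_num, Fm.sub_num_sb (numSub_var.update_num 0 _)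
    (by rw [update_of_ne (by omega)]) n]
  refine Fm.sb_congr fun k hk => ?_
  have := hcon.free k hk
  interval_cases k
  · rw [update_of_ne (by omega), update_self]; rfl
  · rw [update_self]; rfl

lemma IsCon.conS_eq (hcon : IsCon con) (T : List Fm) (e : ℕ → ℕ) (he : e 0 = lc T) :
    conS con T = (all 1 con).cl e := by
  show all 1 _ = all 1 _
  refine congrArg (all 1) ?_
  rw [sub_sb_num]
  refine Fm.sb_congr fun k hk => ?_
  have := hcon.free k hk
  interval_cases k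
  · rw [update_self, update_of_ne (by omega), he]
  · rw [update_of_ne (by omega), update_self]

lemma IsCon.conS_sentence (hcon : IsCon con) (T : List Fm) : Fm.Sentence (conS con T) := by
  rw [hcon.conS_eq T (fun _ => lc T) rfl]
  exact Fm.cl_sentence _ _

lemma IsCon.conS_sat (hcon : IsCon con) {T : List Fm} (hT : ∀ φ ∈ T, Fm.Sentence φ)
    (e : ℕ → ℕ) : (conS con T).Sat e ↔ ∀ n, ¬ Prov T n .bot := by
  rw [hcon.conS_eq T (fun _ => lc T) rfl, Fm.sat_cl]
  refine forall_congr' fun n => ?_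
  rw [hcon.sat T _ hT (by rw [update_of_ne (by omega)]), update_self]

/-- The sentence `∀ x_2 (x_2 = c → ∀ x_b (x_b = v → ξ))`. -/
def th (b c v : ℕ) (ξ : Fm) : Fm :=
  all 2 (imp (eq (x 2) (.num c)) (all b (imp (eq (x b) (.num v)) ξ)))

lemma fc_th (b c v : ℕ) (ξ : Fm) : fc (th b c v ξ) = thc b c v (fc ξ) := rfl

/-- The open version of `th`. -/
def thO (b p q : ℕ) (ξ : Fm) : Fm :=
  all 2 (imp (eq (x 2) (x p)) (all b (imp (eq (x b) (x q)) ξ)))

lemma thO_cl {b p q : ℕ} {ξ : Fm} (hξ : ∀ k, ξ.Free k → k = 2 ∨ k = b) (hp : p ≠ 2) (hq : q ≠ 2)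
    (hqb : q ≠ b) (hb : b ≠ 2) (e : ℕ → ℕ) : (thO b p q ξ).cl e = th b (e p) (e q) ξ := by
  set σ : ℕ → Tm := update (fun k => Tm.num (e k)) 2 (x 2) with hσ
  set σ' : ℕ → Tm := update σ b (x b) with hσ'
  have a1 : σ 2 = x 2 := by rw [hσ, update_self]
  have a2 : σ p = .num (e p) := by rw [hσ, update_of_ne hp]
  have a3 : σ' b = x b := by rw [hσ', update_self]
  have a4 : σ' q = .num (e q) := by rw [hσ', update_of_ne hqb, hσ, update_of_ne hq]
  have a5 : ξ.sb σ' = ξ := by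
    conv_rhs => rw [← Fm.sb_var ξ]
    refine Fm.sb_congr fun k hk => ?_
    rcases hξ k hk with rfl | rfl
    · rw [hσ', update_of_ne hb.symm, hσ, update_self]
    · rw [hσ', update_self]
  show all 2 (imp (eq (σ 2) (σ p)) (all b (imp (eq (σ' b) (σ' q)) (ξ.sb σ')))) = _
  rw [a1, a2, a3, a4, a5]; rfl

lemma thO_sat {b p q : ℕ} {ξ : Fm} (hp : p ≠ 2) (hq : q ≠ 2) (hqb : q ≠ b) (e : ℕ → ℕ) :
    (thO b p q ξ).Sat e ↔ ξ.Sat (update (update e 2 (e p)) b (e q)) := by
  simp only [thO, Fm.Sat, Tm.val, update_self]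
  constructor
  · intro h
    exact h (e p) (by rw [update_of_ne hp]) (e q) (by rw [update_of_ne hqb, update_of_ne hq])
  · intro h c hc v hv
    rw [update_of_ne hp] at hc
    rw [update_of_ne hqb, update_of_ne hq] at hv
    subst hc hv
    exact h

section Th

variable (I : Iface (Rel con g s₀)) (D : ℕ) (B : List Fm)

/-- The list of the formulas `Ξ`. -/
def PL : List Fm := (List.range (D + 1)).map fun m => XF I D (D - m) m

/-- The package. -/
def pk : ℕ := nd (lc B) (lc (PL I D))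

/-- The axioms `A_m^v`. -/
def Am (m v : ℕ) : List Fm := th (bv m) (pk I D B) v (XF I D (D - m) m) :: B

/-- The theory `T_m^v = A_m^v + Con`. -/
def Tmv (m v : ℕ) : List Fm := conS con (Am I D B m v) :: Am I D B m v

variable {I D B}

lemma PL_get {m : ℕ} (hm : m ≤ D) : (PL I D)[m]? = some (XF I D (D - m) m) := by
  unfold PL
  rw [List.getElem?_map, List.getElem?_range (by omega)]
  rfl

lemma cdA_iff {m v z : ℕ} (hm : m ≤ D) : CdA m v (pk I D B) z ↔ z = lc (Am I D B m v) := by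
  constructor
  · rintro ⟨lb, P, ξ, h1, ⟨l, φ, h2, h3, h4⟩, h5⟩
    obtain ⟨h6, h7⟩ := nd_inj.mp h1
    rw [h2] at h7
    obtain rfl := lc_inj h7
    rw [PL_get hm] at h3
    obtain rfl := Option.some.inj h3
    rw [h5, h4, ← h6]; rfl
  · rintro rfl
    exact ⟨lc B, lc (PL I D), fc (XF I D (D - m) m), rfl, ⟨PL I D, _, rfl, PL_get hm, rfl⟩, rfl⟩

lemma cdT_iff {m v z : ℕ} (hm : m ≤ D) :
    CdT con m v (pk I D B) z ↔ z = lc (Tmv I D B m v) := by
  constructor
  · rintro ⟨z', h1, h2⟩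
    rw [cdA_iff hm] at h1
    subst h1
    exact h2
  · rintro rfl
    exact ⟨lc (Am I D B m v), (cdA_iff hm).mpr rfl, rfl⟩

variable (hcon : IsCon con)
include hcon

lemma th_sentence (m v : ℕ) : Fm.Sentence (th (bv m) (pk I D B) v (XF I D (D - m) m)) := by
  intro k h
  obtain ⟨h1, h2 | ⟨h2, h3 | h3⟩⟩ := h
  · rcases h2 with h2 | h2
    · exact h1 h2
    · exact Tm.not_has_num _ _ h2
  · rcases h3 with h3 | h3
    · exact h2 h3
    · exact Tm.not_has_num _ _ h3
  · rcases free_XF hcon h3 with h | h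
    · exact h1 h.symm
    · exact h2 h.symm

lemma th_sat (m v : ℕ) (e : ℕ → ℕ) : (th (bv m) (pk I D B) v (XF I D (D - m) m)).Sat e ↔
    sX con g s₀ D (pk I D B) (D - m) m v := by
  have hb : (2 : ℕ) ≠ bv m := by unfold bv; omega
  simp only [th, Fm.Sat, Tm.val, update_self, Tm.val_num]
  constructor
  · intro h
    have := h _ rfl _ rfl
    rw [sat_XF hcon, update_self, update_of_ne hb, update_self] at this
    exact this
  · rintro h c rfl v rfl
    rw [sat_XF hcon, update_self, update_of_ne hb, update_self]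
    exact h

variable (hB : ∀ β ∈ B, TrueS β)
include hB

lemma Am_sentence (m v : ℕ) : ∀ φ ∈ Am I D B m v, Fm.Sentence φ := by
  intro φ hφ
  rcases List.mem_cons.mp hφ with rfl | hφ
  · exact th_sentence hcon m v
  · exact (hB φ hφ).1

lemma Tmv_sentence (m v : ℕ) : ∀ φ ∈ Tmv I D B m v, Fm.Sentence φ := by
  intro φ hφ
  rcases List.mem_cons.mp hφ with rfl | hφ
  · exact hcon.conS_sentence _
  · exact Am_sentence hcon hB m v φ hφ

lemma Am_true {m v : ℕ} (h : sX con g s₀ D (pk I D B) (D - m) m v) :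
    ∀ φ ∈ Am I D B m v, TrueS φ := by
  intro φ hφ
  rcases List.mem_cons.mp hφ with rfl | hφ
  · exact ⟨th_sentence hcon m v, fun e => (th_sat hcon m v e).mpr h⟩
  · exact hB φ hφ

lemma Am_consistent {m v : ℕ} (h : sX con g s₀ D (pk I D B) (D - m) m v) (n : ℕ) :
    ¬ Prov (Am I D B m v) n .bot := by
  intro h'
  exact h'.sound (fun φ hφ => (Am_true hcon hB h φ hφ).2) (fun _ => 0)

lemma Tmv_true {m v : ℕ} (h : sX con g s₀ D (pk I D B) (D - m) m v) :
    ∀ φ ∈ Tmv I D B m v, TrueS φ := by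
  intro φ hφ
  rcases List.mem_cons.mp hφ with rfl | hφ
  · refine ⟨hcon.conS_sentence _, fun e => ?_⟩
    rw [hcon.conS_sat (Am_sentence hcon hB m v)]
    exact fun n => Am_consistent hcon hB h n
  · exact Am_true hcon hB h φ hφ

lemma Tmv_consistent {m v : ℕ} (h : sX con g s₀ D (pk I D B) (D - m) m v) (n : ℕ) :
    ¬ Prov (Tmv I D B m v) n .bot := by
  intro h'
  exact h'.sound (fun φ hφ => (Tmv_true hcon hB h φ hφ).2) (fun _ => 0)

lemma sC_iff {m i v : ℕ} (hm : m ≤ D) : sC con g s₀ D (pk I D B) m i v ↔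
    ¬ Prov (Tmv I D B m v) (nod g s₀ D i m) .bot := by
  have key : cP con (lc (Tmv I D B m v)) (nod g s₀ D i m) ↔
      ¬ Prov (Tmv I D B m v) (nod g s₀ D i m) .bot :=
    hcon.sat (Tmv I D B m v) _ (Tmv_sentence hcon hB m v) rfl
  rw [← key]
  constructor
  · intro h; exact h _ ((cdT_iff hm).mpr rfl)
  · intro h z hz
    rw [cdT_iff hm] at hz
    rw [hz]; exact h

lemma sCA_of {m v : ℕ} (hm : m ≤ D) (h : sX con g s₀ D (pk I D B) (D - m) m v) :
    sCA con (pk I D B) m v := by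
  intro n z hz
  rw [cdA_iff hm] at hz
  rw [hz]
  exact (hcon.sat (Am I D B m v) _ (Am_sentence hcon hB m v) rfl).mpr
    (Am_consistent hcon hB h _)

/-- All the statements `Θ` are true. -/
lemma sTT_true (d : ℕ) : ∀ m, m + d = D → sTT con g s₀ D (pk I D B) d m := by
  induction d with
  | zero =>
    intro m hm v h
    have hD : D - m = 0 := by omega
    refine sCA_of hcon hB (by omega) ?_
    rw [hD]; exact h
  | succ d ih =>
    intro m hm
    refine ⟨fun v h => ?_, ih (m + 1) (by omega)⟩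
    have hD : D - m = d + 1 := by omega
    refine sCA_of hcon hB (by omega) ?_
    rw [hD]; exact h

variable (hg : Good g s₀)
include hg

omit hcon hB in
lemma nod_mono {i i' m : ℕ} (h : i ≤ i') : nod g s₀ D i m ≤ nod g s₀ D i' m := by
  have mono : sd g s₀ D i ≤ sd g s₀ D i' := by
    induction h with
    | refl => exact le_rfl
    | step _ ih =>
      refine ih.trans ((hg.iter_le ?_ (Nat.zero_le D)).trans (hg.sd_succ_ge D _))
      exact (Nat.le_add_right _ _).trans (hg.sd_ge D _)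
  exact hg.mono.iterate m mono

lemma sTR_sC (d : ℕ) : ∀ m a, m + d = D → sTR con g s₀ D (pk I D B) d m a →
    ∃ a' ≥ a, sC con g s₀ D (pk I D B) 0 a' 0 := by
  induction d with
  | zero => intro m a _ h; exact ⟨a, le_rfl, h⟩
  | succ d ih =>
    rintro m a hm ⟨b, _, a', h2, h3, _⟩
    obtain ⟨a'', h4, h5⟩ := ih (m + 1) a' (by omega) h3
    exact ⟨a'', by omega, h5⟩

/-- The theory at level `0`, version `0` is consistent. -/
lemma T00_consistent (n : ℕ) : ¬ Prov (Tmv I D B 0 0) n .bot := by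
  by_contra hn
  have h1 : ¬ sX con g s₀ D (pk I D B) D 0 0 := by
    intro h
    exact Tmv_consistent hcon hB (m := 0) (v := 0) (by simpa using h) n hn
  have h2 := sTT_true (I := I) (D := D) (g := g) (s₀ := s₀) hcon hB D 0 (Nat.zero_add D)
  have h3 : ¬ sP con g s₀ D (pk I D B) D 0 0 := fun h => h1 (sX_of h2 h)
  unfold sP at h3
  push Not at h3
  obtain ⟨a, _, h4, h5⟩ := h3
  obtain ⟨a', h6, h7⟩ := sTR_sC hcon hB hg D 0 a (Nat.zero_add D) h4
  rw [sC_iff hcon hB (Nat.zero_le D)] at h5 h7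
  rw [not_not] at h5
  exact h7 (h5.mono (nod_mono hg h6))

end Th

end Helper31Con

end

section

/-!
# Formal derivations at one level
-/

namespace Helper31Con

open Function Filter Fm

variable {con : Fm} {g : ℕ → ℕ} {s₀ : ℕ}

lemma rich_up {P : List Fm → Prop} (h : ∀ᶠ B in rich, P B) :
    ∀ᶠ B in rich, ∀ A : List Fm, (∀ β ∈ B, β ∈ A) → P A := by
  rw [rich_iff] at h ⊢
  obtain ⟨B₀, h1, h2⟩ := h
  exact ⟨B₀, h1, fun B hB A hA => h2 A fun β hβ => hA β (hB β hβ)⟩

/-- Facts about codes and consistency with elementary cost. -/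
structure Base (I : Iface (Rel con g s₀)) (F : ℕ → ℕ) (B : List Fm) : Prop where
  cons : ∀ (N : ℕ) (T : List Fm) (n : ℕ), (∀ φ ∈ T, Fm.Sentence φ) → lc T ≤ N → n ≤ N →
    ¬ Prov T n .bot → Pr B (F N) (F N) (con.cl (as [lc T, n]))
  cda : ∀ N m v c z, m ≤ N → v ≤ N → c ≤ N → CdA m v c z →
    Pr B (F N) (F N) (I.A 24 (.num m) (.num v) (.num c) (.num z))
  cdt : ∀ N m v c z, m ≤ N → v ≤ N → c ≤ N → CdT con m v c z →
    Pr B (F N) (F N) (I.A 25 (.num m) (.num v) (.num c) (.num z))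

lemma exists_base (I : Iface (Rel con g s₀)) (hcon : IsCon con) :
    ∃ F, EB F ∧ Monotone F ∧ ∀ᶠ B in rich, Base I F B := by
  obtain ⟨f1, hf1, h1⟩ := con_fact I hcon
  obtain ⟨f2, hf2, h2⟩ := cda_fact I
  obtain ⟨f3, hf3, h3⟩ := cdt_fact I
  obtain ⟨F, hF, hm, hle⟩ := ((hf1.add hf2).add hf3).exists_mono
  refine ⟨F, hF, hm, ?_⟩
  filter_upwards [h1, h2, h3] with B h1 h2 h3
  refine ⟨fun N T n a b c d => ?_, fun N m v c z a b d e => ?_, fun N m v c z a b d e => ?_⟩
  · have := hle N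
    exact (h1 N T n a b c d).mono (by omega) (by omega)
  · have := hle N
    exact (h2 N m v c z a b d e).mono (by omega) (by omega)
  · have := hle N
    exact (h3 N m v c z a b d e).mono (by omega) (by omega)

section K

variable (I : Iface (Rel con g s₀)) (hcon : IsCon con) (D : ℕ)

/-- The formula `∀ x_7 (x_6 < x_7 → x_7 < x_a → CF)`. -/
def EF (m a : ℕ) : Fm :=
  all 7 (imp (lt (x 6) (x 7)) (imp (lt (x 7) (x a)) (CF I D m (x 7) (x 6))))

variable {I D}

include hcon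

lemma sat_EF {m a : ℕ} (ha : a ≠ 7) (e : ℕ → ℕ) : (EF I D m a).Sat e ↔
    ∀ j, e 6 < j → j < e a → sC con g s₀ D (e 2) m j (e 6) := by
  refine forall_congr' fun j => ?_
  simp only [Fm.Sat, sat_lt]
  rw [sat_CFv hcon (Or.inl (by omega)) (Or.inl (by omega)) (by omega) (by omega)]
  simp only [Tm.val, update_self]
  rw [update_of_ne (by omega), update_of_ne ha, update_of_ne (by omega)]

lemma EF_cl {m : ℕ} {e e' : ℕ → ℕ} {a a' : ℕ} (ha : a ≠ 7) (ha' : a' ≠ 7) (h2 : e 2 = e' 2)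
    (h6 : e 6 = e' 6) (h : e a = e' a') : (EF I D m a).cl e = (EF I D m a').cl e' := by
  set σ : ℕ → Tm := update (fun k => Tm.num (e k)) 7 (x 7) with hσ
  set σ' : ℕ → Tm := update (fun k => Tm.num (e' k)) 7 (x 7) with hσ'
  have a1 : σ 6 = σ' 6 := by
    rw [hσ, hσ', update_of_ne (by omega), update_of_ne (by omega), h6]
  have a2 : σ a = σ' a' := by
    rw [hσ, hσ', update_of_ne ha, update_of_ne ha', h]
  have a3 : σ 7 = σ' 7 := by rw [hσ, hσ', update_self, update_self]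
  have a4 : (CF I D m (x 7) (x 6)).sb σ = (CF I D m (x 7) (x 6)).sb σ' := by
    refine Fm.sb_congr fun k hk => ?_
    rcases free_CFv hcon (Or.inl (by omega)) (Or.inl (by omega)) hk with rfl | rfl | rfl
    · rw [hσ, hσ', update_of_ne (by omega), update_of_ne (by omega), h2]
    · exact a3
    · exact a1
  show all 7 (imp (le (.succ (σ 6)) (σ 7)) (imp (le (.succ (σ 7)) (σ a))
    ((CF I D m (x 7) (x 6)).sb σ))) = all 7 (imp (le (.succ (σ' 6)) (σ' 7))
    (imp (le (.succ (σ' 7)) (σ' a')) ((CF I D m (x 7) (x 6)).sb σ')))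
  rw [a1, a2, a3, a4]

lemma CF_cl {m p q p' q' : ℕ} {e e' : ℕ → ℕ} (hp : p = p') (hq : q = q') (hp' : Al p) (hq' : Al q)
    (h2 : e 2 = e' 2) (h3 : e p = e' p') (h4 : e q = e' q') :
    (CF I D m (x p) (x q)).cl e = (CF I D m (x p') (x q')).cl e' := by
  subst hp hq
  refine Fm.cl_congr fun k hk => ?_
  rcases free_CFv hcon hp' hq' hk with rfl | rfl | rfl
  · exact h2
  · exact h3
  · exact h4

variable (I D)

lemma K1 (m : ℕ) : ∃ c : ℕ, ∀ᶠ B in rich, ∀ e N M n₁ n₂ n₃, (∀ k, e k ≤ N) → c * (N + 1) ≤ M →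
    Pr B n₁ M (con.cl e) → Pr B n₂ M ((I.A 21 (x 5) (.num m) (.num D) (x 1)).cl e) →
    Pr B n₃ M ((I.A 25 (.num m) (x 6) (x 2) (x 0)).cl e) →
    Pr B (c + n₁ + n₂ + n₃) M ((CF I D m (x 5) (x 6)).cl e) := by
  refine horn3 fun e h1 h2 h3 => ?_
  rw [sat_CFv hcon (Or.inl (by omega)) (Or.inl (by omega)) (by omega) (by omega)]
  rw [I.satA (by simp [Al])] at h2 h3
  have h2' : e 1 = nod g s₀ ((Tm.num D).val e) (e 5) ((Tm.num m).val e) := h2
  obtain ⟨z', h4, h5⟩ : CdT con ((Tm.num m).val e) (e 6) (e 2) (e 0) := h3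
  rw [Tm.val_num, Tm.val_num] at h2'
  rw [Tm.val_num] at h4
  rintro z ⟨z'', h6, h7⟩
  rw [hcon.cP_iff, h2'] at h1
  have hz : z'' = z' := by
    obtain ⟨lb, P, ξ, i1, ⟨l, φ, i2, i3, i4⟩, i5⟩ := h4
    obtain ⟨lb', P', ξ', j1, ⟨l', φ', j2, j3, j4⟩, j5⟩ := h6
    obtain ⟨k1, k2⟩ := nd_inj.mp (i1.symm.trans j1)
    have k3 : l = l' := lc_inj (i2.symm.trans (k2.trans j2))
    rw [k3, j3] at i3
    rw [i5, j5, i4, j4, k1, Option.some.inj i3]
  rw [h7, hz, ← h5]
  exact h1

lemma K1z : ∃ c : ℕ, ∀ᶠ B in rich, ∀ e N M n₁ n₂ n₃, (∀ k, e k ≤ N) → c * (N + 1) ≤ M →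
    Pr B n₁ M (con.cl e) → Pr B n₂ M ((I.A 21 (x 5) (.num 0) (.num D) (x 1)).cl e) →
    Pr B n₃ M ((I.A 25 (.num 0) .zero (x 2) (x 0)).cl e) →
    Pr B (c + n₁ + n₂ + n₃) M ((CF I D 0 (x 5) .zero).cl e) := by
  refine horn3 fun e h1 h2 h3 => ?_
  rw [sat_CFz hcon (Or.inl (by omega)) (by omega)]
  rw [I.satA (by simp [Al])] at h2 h3
  have h2' : e 1 = nod g s₀ ((Tm.num D).val e) (e 5) ((Tm.num 0).val e) := h2
  obtain ⟨z', h4, h5⟩ : CdT con ((Tm.num 0).val e) 0 (e 2) (e 0) := h3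
  rw [Tm.val_num, Tm.val_num] at h2'
  rw [Tm.val_num] at h4
  rintro z ⟨z'', h6, h7⟩
  rw [hcon.cP_iff, h2'] at h1
  have hz : z'' = z' := by
    obtain ⟨lb, P, ξ, i1, ⟨l, φ, i2, i3, i4⟩, i5⟩ := h4
    obtain ⟨lb', P', ξ', j1, ⟨l', φ', j2, j3, j4⟩, j5⟩ := h6
    obtain ⟨k1, k2⟩ := nd_inj.mp (i1.symm.trans j1)
    have k3 : l = l' := lc_inj (i2.symm.trans (k2.trans j2))
    rw [k3, j3] at i3
    rw [i5, j5, i4, j4, k1, Option.some.inj i3]
  rw [h7, hz, ← h5]
  exact h1

lemma K2 (m : ℕ) : ∃ c : ℕ, ∀ᶠ B in rich, ∀ e N M n₁ n₂ n₃, (∀ k, e k ≤ N) → c * (N + 1) ≤ M →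
    Pr B n₁ M ((CF I D m (x 5) (x 4)).cl e) →
    Pr B n₂ M ((I.A 21 (x 5) (.num m) (.num D) (x 1)).cl e) →
    Pr B n₃ M ((I.A 25 (.num m) (x 4) (x 2) (x 0)).cl e) →
    Pr B (c + n₁ + n₂ + n₃) M (con.cl e) := by
  refine horn3 fun e h1 h2 h3 => ?_
  rw [sat_CFv hcon (Or.inl (by omega)) (Or.inl (by omega)) (by omega) (by omega)] at h1
  rw [I.satA (by simp [Al])] at h2 h3
  have h2' : e 1 = nod g s₀ ((Tm.num D).val e) (e 5) ((Tm.num m).val e) := h2
  have h3' : CdT con ((Tm.num m).val e) (e 4) (e 2) (e 0) := h3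
  rw [Tm.val_num, Tm.val_num] at h2'
  rw [Tm.val_num] at h3'
  rw [hcon.cP_iff, h2']
  exact h1 _ h3'

lemma K3 : ∃ c : ℕ, ∀ᶠ B in rich, ∀ e N M n₁ n₂ n₃ n₄, (∀ k, e k ≤ N) → c * (N + 1) ≤ M →
    Pr B n₁ M ((thO (bv D) 3 4 (XF I D 0 D)).cl e) → Pr B n₂ M ((eq (x 2) (x 3)).cl e) →
    Pr B n₃ M ((lt (x 4) (x 5)).cl e) → Pr B n₄ M ((CF I D 0 (x 5) .zero).cl e) →
    Pr B (c + n₁ + n₂ + n₃ + n₄) M ((CF I D D (x 5) (x 4)).cl e) := by
  refine horn4 fun e h1 h2 h3 h4 => ?_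
  rw [thO_sat (by omega) (by omega) (by unfold bv; omega), sat_XF hcon, update_self,
    update_of_ne (by unfold bv; omega), update_self] at h1
  rw [sat_CFz hcon (Or.inl (by omega)) (by omega)] at h4
  rw [sat_CFv hcon (Or.inl (by omega)) (Or.inl (by omega)) (by omega) (by omega)]
  have h2' : e 2 = e 3 := h2
  rw [h2'] at h4 ⊢
  exact h1 (e 5) h3 h4

lemma K4 {m d : ℕ} : ∃ c : ℕ, ∀ᶠ B in rich, ∀ e N M n₁ n₂ n₃ n₄ n₅ n₆,
    (∀ k, e k ≤ N) → c * (N + 1) ≤ M →
    Pr B n₁ M ((thO (bv m) 3 4 (XF I D (d + 1) m)).cl e) → Pr B n₂ M ((eq (x 2) (x 3)).cl e) →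
    Pr B n₃ M ((lt (x 4) (x 5)).cl e) → Pr B n₄ M ((lt (x 6) (x 5)).cl e) →
    Pr B n₅ M ((EF I D (m + 1) 5).cl e) →
    Pr B n₆ M ((neg (thO (bv (m + 1)) 3 6 (XF I D d (m + 1)))).cl e) →
    Pr B (c + n₁ + n₂ + n₃ + n₄ + n₅ + n₆) M ((CF I D m (x 5) (x 4)).cl e) := by
  refine horn6 fun e h1 h2 h3 h4 h5 h6 => ?_
  rw [sat_neg] at h6
  rw [thO_sat (by omega) (by omega) (by unfold bv; omega), sat_XF hcon, update_self,
    update_of_ne (by unfold bv; omega), update_self] at h1 h6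
  rw [sat_EF hcon (by omega)] at h5
  rw [sat_CFv hcon (Or.inl (by omega)) (Or.inl (by omega)) (by omega) (by omega)]
  have h2' : e 2 = e 3 := h2
  rw [h2'] at h5 ⊢
  exact sem_step h1 h3 h4 h5 h6

lemma K5 (m : ℕ) : ∃ c : ℕ, ∀ᶠ B in rich, ∀ e N M n, (∀ k, e k ≤ N) → c * (N + 1) ≤ M →
    Pr B n M ((eq (x 5) (.succ (x 6))).cl e) → Pr B (c + n) M ((EF I D m 5).cl e) := by
  refine horn1 fun e h1 => ?_
  rw [sat_EF hcon (by omega)]
  have h1' : e 5 = e 6 + 1 := h1
  intro j h2 h3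
  omega

lemma K6 (m : ℕ) : ∃ c : ℕ, ∀ᶠ B in rich, ∀ e N M n₁ n₂ n₃, (∀ k, e k ≤ N) → c * (N + 1) ≤ M →
    Pr B n₁ M ((EF I D m 5).cl e) → Pr B n₂ M ((CF I D m (x 5) (x 6)).cl e) →
    Pr B n₃ M ((eq (x 8) (.succ (x 5))).cl e) →
    Pr B (c + n₁ + n₂ + n₃) M ((EF I D m 8).cl e) := by
  refine horn3 fun e h1 h2 h3 => ?_
  rw [sat_EF hcon (by omega)] at h1 ⊢
  rw [sat_CFv hcon (Or.inl (by omega)) (Or.inl (by omega)) (by omega) (by omega)] at h2
  have h3' : e 8 = e 5 + 1 := h3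
  intro j h4 h5
  by_cases h6 : j < e 5
  · exact h1 j h4 h6
  · have : j = e 5 := by omega
    rw [this]; exact h2

lemma K7 {m d : ℕ} : ∃ c : ℕ, ∀ᶠ B in rich, ∀ e N M n₁ n₂ n₃, (∀ k, e k ≤ N) →
    c * (N + 1) ≤ M →
    Pr B n₁ M ((imp (thO (bv (m + 1)) 3 6 (XF I D d (m + 1))) (imp (all 1 con) .bot)).cl e) →
    Pr B n₂ M ((thO (bv m) 3 4 (XF I D (d + 1) m)).cl e) →
    Pr B n₃ M ((I.A 24 (.num (m + 1)) (x 6) (x 3) (x 0)).cl e) →
    Pr B (c + n₁ + n₂ + n₃) M ((neg (thO (bv (m + 1)) 3 6 (XF I D d (m + 1)))).cl e) := by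
  refine horn3 fun e h1 h2 h3 => ?_
  rw [sat_neg]
  intro h4
  refine h1 h4 fun n => ?_
  rw [thO_sat (by omega) (by omega) (by unfold bv; omega), sat_XF hcon, update_self,
    update_of_ne (by unfold bv; omega), update_self] at h2 h4
  rw [I.satA (by simp [Al])] at h3
  have h3' : CdA ((Tm.num (m + 1)).val e) (e 6) (e 3) (e 0) := h3
  rw [Tm.val_num] at h3'
  rw [hcon.cP_iff, update_self, update_of_ne (by omega)]
  exact sTT_app h2.2 h4 n (e 0) h3'

end K

end Helper31Con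

end

section

/-!
# Formal derivations at one level, continued
-/

namespace Helper31Con

open Function Filter Fm

variable {con : Fm} {g : ℕ → ℕ} {s₀ : ℕ}

lemma Tm.cl_num (n : ℕ) (e : ℕ → ℕ) : (Tm.num n).cl e = Tm.num n := Tm.sb_num _ _

lemma IsCon.cl_congr (hcon : IsCon con) {e e' : ℕ → ℕ} (h0 : e 0 = e' 0) (h1 : e 1 = e' 1) :
    con.cl e = con.cl e' := by
  refine Fm.cl_congr fun k hk => ?_
  have := hcon.free k hk
  interval_cases k
  · exact h0
  · exact h1

/-- The derivation at the top level. -/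
lemma top_step (I : Iface (Rel con g s₀)) (hcon : IsCon con) (D : ℕ) :
    ∃ f, PB f ∧ ∀ᶠ A in rich, ∀ p t₀ t₁ w w' v i N M a₁ a₂ a₃ a₄ a₅,
      p ≤ N → t₀ ≤ N → t₁ ≤ N → w ≤ N → w' ≤ N → v < i → i ≤ N → f N ≤ M →
      Pr A a₁ M (con.cl (as [t₀, w])) →
      Pr A a₂ M (I.A 21 (.num i) (.num 0) (.num D) (.num w)) →
      Pr A a₃ M (I.A 25 (.num 0) (.num 0) (.num p) (.num t₀)) →
      th (bv D) p v (XF I D 0 D) ∈ A →
      Pr A a₄ M (I.A 21 (.num i) (.num D) (.num D) (.num w')) →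
      Pr A a₅ M (I.A 25 (.num D) (.num v) (.num p) (.num t₁)) →
      Pr A (f N + a₁ + a₂ + a₃ + a₄ + a₅) M (con.cl (as [t₁, w'])) := by
  obtain ⟨c1, h1⟩ := K1z I hcon D
  obtain ⟨c2, h2⟩ := K2 I hcon D D
  obtain ⟨c3, h3⟩ := K3 I hcon D
  obtain ⟨fe, hfe, he⟩ := eq_fact (x 2) (x 3)
  obtain ⟨fl, hfl, hl⟩ := le_fact (.succ (x 4)) (x 5)
  set L := (thO (bv D) 3 4 (XF I D 0 D)).len with hL
  set C := c1 + c2 + c3 + L + 1 with hC
  refine ⟨fun N => C * (N + 1) + (fe N + fl N), ?_, ?_⟩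
  · exact ((PB.const _).mul (PB.id.add (PB.const 1))).add (hfe.add hfl)
  filter_upwards [h1, h2, h3, he, hl] with A h1 h2 h3 he hl p t₀ t₁ w w' v i N M a₁ a₂ a₃ a₄ a₅
    hp ht0 ht1 hw hw' hvi hi hM q1 q2 q3 hth q9 q10
  have hMc : ∀ c, c ≤ C → c * (N + 1) ≤ M := fun c hc =>
    mulle (S := C) (by omega) hc
  have hCN : C ≤ C * (N + 1) := Nat.le_mul_of_pos_right _ (by omega)
  set e0 := as [t₀, w, p, p, v, i] with he0
  have he0N : ∀ k, e0 k ≤ N := as_le (by
    simp only [List.forall_mem_cons, List.not_mem_nil, IsEmpty.forall_iff, implies_true,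
      and_true]
    omega)
  have e2 : con.cl (as [t₀, w]) = con.cl e0 := hcon.cl_congr rfl rfl
  rw [e2] at q1
  have q4 := h1 e0 N M _ _ _ he0N (hMc _ (by omega)) q1
    (by rw [I.clA (by simp [Al])]; simp only [Tm.cl_num]; exact q2)
    (by rw [I.clA (by simp [Al])]; simp only [Tm.cl_num]; exact q3)
  -- the step
  have hthO : (thO (bv D) 3 4 (XF I D 0 D)).cl e0 = th (bv D) p v (XF I D 0 D) :=
    thO_cl (fun k hk => free_XF hcon hk) (by omega) (by omega) (by unfold bv; omega)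
      (by unfold bv; omega) e0
  have q5 : Pr A 1 M ((thO (bv D) 3 4 (XF I D 0 D)).cl e0) := by
    refine Pr.mem ?_ ?_
    · rw [hthO]; exact hth
    · refine (Fm.len_cl he0N).trans ?_
      rw [← hL]
      exact hMc _ (by omega)
  have q6 := (he e0 N he0N rfl).mono (M' := M) le_rfl (by omega)
  have q7 := (hl e0 N he0N (by show v + 1 ≤ i; omega)).mono (M' := M) le_rfl (by omega)
  have q8 := h3 e0 N M _ _ _ _ he0N (hMc _ (by omega)) q5 q6 q7 q4
  -- the conclusion
  set e1 := as [t₁, w', p, p, v, i] with he1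
  have he1N : ∀ k, e1 k ≤ N := as_le (by
    simp only [List.forall_mem_cons, List.not_mem_nil, IsEmpty.forall_iff, implies_true,
      and_true]
    omega)
  have e3 : (CF I D D (x 5) (x 4)).cl e0 = (CF I D D (x 5) (x 4)).cl e1 :=
    CF_cl hcon rfl rfl (Or.inl (by omega)) (Or.inl (by omega)) rfl rfl rfl
  rw [e3] at q8
  have q11 := h2 e1 N M _ _ _ he1N (hMc _ (by omega)) q8
    (by rw [I.clA (by simp [Al])]; simp only [Tm.cl_num]; exact q9)
    (by rw [I.clA (by simp [Al])]; simp only [Tm.cl_num]; exact q10)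
  have e4 : con.cl e1 = con.cl (as [t₁, w']) := hcon.cl_congr rfl rfl
  rw [e4] at q11
  exact q11.mono (by omega) le_rfl

/-- Consistency facts with versions. -/
lemma cf_step (I : Iface (Rel con g s₀)) (hcon : IsCon con) (D m : ℕ) :
    ∃ f, PB f ∧ ∀ᶠ A in rich, ∀ p t w v j b N M a₁ a₂ a₃,
      p ≤ N → t ≤ N → w ≤ N → v ≤ N → j ≤ N → b ≤ N → f N ≤ M →
      Pr A a₁ M (con.cl (as [t, w])) →
      Pr A a₂ M (I.A 21 (.num j) (.num m) (.num D) (.num w)) →
      Pr A a₃ M (I.A 25 (.num m) (.num b) (.num p) (.num t)) →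
      Pr A (f N + a₁ + a₂ + a₃) M ((CF I D m (x 5) (x 6)).cl (as [0, 0, p, p, v, j, b])) := by
  obtain ⟨c1, h1⟩ := K1 I hcon D m
  refine ⟨fun N => c1 * (N + 1), (PB.const _).mul (PB.id.add (PB.const 1)), ?_⟩
  filter_upwards [h1] with A h1 p t w v j b N M a₁ a₂ a₃ hp ht hw hv hj hb hM q1 q2 q3
  have hCN : c1 ≤ c1 * (N + 1) := Nat.le_mul_of_pos_right _ (by omega)
  set e0 := as [t, w, p, p, v, j, b] with he0
  have he0N : ∀ k, e0 k ≤ N := as_le (by
    simp only [List.forall_mem_cons, List.not_mem_nil, IsEmpty.forall_iff, implies_true,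
      and_true]
    omega)
  have e2 : con.cl (as [t, w]) = con.cl e0 := hcon.cl_congr rfl rfl
  rw [e2] at q1
  have q4 := h1 e0 N M _ _ _ he0N hM q1
    (by rw [I.clA (by simp [Al])]; simp only [Tm.cl_num]; exact q2)
    (by rw [I.clA (by simp [Al])]; simp only [Tm.cl_num]; exact q3)
  have e3 : (CF I D m (x 5) (x 6)).cl e0 = (CF I D m (x 5) (x 6)).cl (as [0, 0, p, p, v, j, b]) :=
    CF_cl hcon rfl rfl (Or.inl (by omega)) (Or.inl (by omega)) rfl rfl rfl
  rw [e3] at q4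
  exact q4.mono (by omega) le_rfl

/-- The collection of consistency facts before node `i`. -/
lemma ef_step (I : Iface (Rel con g s₀)) (hcon : IsCon con) (D m : ℕ) :
    ∃ f, PB f ∧ ∀ᶠ A in rich, ∀ p v i b N M s,
      p ≤ N → v ≤ N → b < i → i ≤ N → f N ≤ M →
      (∀ j, b < j → j < i →
        Pr A s M ((CF I D m (x 5) (x 6)).cl (as [0, 0, p, p, v, j, b]))) →
      Pr A (i * (f N + s)) M ((EF I D m 5).cl (as [0, 0, p, p, v, i, b])) := by
  obtain ⟨c5, h5⟩ := K5 I hcon D m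
  obtain ⟨c6, h6⟩ := K6 I hcon D m
  obtain ⟨fe, hfe, he⟩ := eq_fact (x 5) (.succ (x 6))
  obtain ⟨fe', hfe', he'⟩ := eq_fact (x 8) (.succ (x 5))
  set C := c5 + c6 + 1 with hC
  refine ⟨fun N => C * (N + 1) + (fe N + fe' N), ?_, ?_⟩
  · exact ((PB.const _).mul (PB.id.add (PB.const 1))).add (hfe.add hfe')
  filter_upwards [h5, h6, he, he'] with A h5 h6 he he' p v i b N M s hp hv hbi hi hM hj
  have hMc : ∀ c, c ≤ C → c * (N + 1) ≤ M := fun c hc =>
    mulle (S := C) (by omega) hc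
  have hCN : C ≤ C * (N + 1) := Nat.le_mul_of_pos_right _ (by omega)
  set q := C * (N + 1) + (fe N + fe' N) + s with hq
  obtain ⟨r, rfl⟩ : ∃ r, i = b + 1 + r := ⟨i - b - 1, by omega⟩
  have key := chain (B := A)
    (P := fun k => (EF I D m 5).cl (as [0, 0, p, p, v, b + 1 + k, b]))
    (s := q) (M := M) (a := r) ?_ ?_ r le_rfl
  · refine key.mono ?_ le_rfl
    exact Nat.mul_le_mul_right _ (by omega)
  · have he0N : ∀ k, as [0, 0, p, p, v, b + 1, b] k ≤ N := as_le (by
      simp only [List.forall_mem_cons, List.not_mem_nil, IsEmpty.forall_iff, implies_true,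
        and_true]
      omega)
    have q1 := (he _ N he0N rfl).mono (M' := M) le_rfl (by omega)
    exact (h5 _ N M _ he0N (hMc _ (by omega)) q1).mono (by omega) le_rfl
  · intro k hk n hn
    set e1 := as [0, 0, p, p, v, b + 1 + k, b, 0, b + 1 + k + 1] with he1
    have he1N : ∀ k, e1 k ≤ N := as_le (by
      simp only [List.forall_mem_cons, List.not_mem_nil, IsEmpty.forall_iff, implies_true,
        and_true]
      omega)
    have q0 : Pr A n M ((EF I D m 5).cl e1) := by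
      have e3 : (EF I D m 5).cl e1 = (EF I D m 5).cl (as [0, 0, p, p, v, b + 1 + k, b]) :=
        EF_cl hcon (by omega) (by omega) rfl rfl rfl
      rw [e3]
      exact hn
    have q1 : Pr A s M ((CF I D m (x 5) (x 6)).cl e1) := by
      have e3 : (CF I D m (x 5) (x 6)).cl e1 =
          (CF I D m (x 5) (x 6)).cl (as [0, 0, p, p, v, b + 1 + k, b]) :=
        CF_cl hcon rfl rfl (Or.inl (by omega)) (Or.inl (by omega)) rfl rfl rfl
      rw [e3]
      exact hj _ (by omega) (by omega)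
    have q2 := (he' e1 N he1N rfl).mono (M' := M) le_rfl (by omega)
    have q3 := h6 e1 N M _ _ _ he1N (hMc _ (by omega)) q0 q1 q2
    have e4 : (EF I D m 8).cl e1 = (EF I D m 5).cl (as [0, 0, p, p, v, b + 1 + (k + 1), b]) :=
      EF_cl hcon (by omega) (by omega) rfl rfl rfl
    rw [e4] at q3
    exact q3.mono (by omega) le_rfl

/-- The derivation at a lower level. -/
lemma lt_step (I : Iface (Rel con g s₀)) (hcon : IsCon con) (D m d : ℕ) :
    ∃ f, PB f ∧ ∀ᶠ A in rich, ∀ p tA t₁ w' v i b N M a₁ a₂ a₃ a₄ a₅,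
      p ≤ N → tA ≤ N → t₁ ≤ N → w' ≤ N → v < i → b < i → i ≤ N → f N ≤ M →
      th (bv m) p v (XF I D (d + 1) m) ∈ A →
      Pr A a₁ M ((EF I D (m + 1) 5).cl (as [0, 0, p, p, v, i, b])) →
      Pr A a₂ M (imp (th (bv (m + 1)) p b (XF I D d (m + 1)))
        (imp (all 1 (con.sub 0 (.num tA))) .bot)) →
      Pr A a₃ M (I.A 24 (.num (m + 1)) (.num b) (.num p) (.num tA)) →
      Pr A a₄ M (I.A 21 (.num i) (.num m) (.num D) (.num w')) →
      Pr A a₅ M (I.A 25 (.num m) (.num v) (.num p) (.num t₁)) →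
      Pr A (f N + a₁ + a₂ + a₃ + a₄ + a₅) M (con.cl (as [t₁, w'])) := by
  obtain ⟨c2, h2⟩ := K2 I hcon D m
  obtain ⟨c4, h4⟩ := K4 I hcon D (m := m) (d := d)
  obtain ⟨c7, h7⟩ := K7 I hcon D (m := m) (d := d)
  obtain ⟨fe, hfe, he⟩ := eq_fact (x 2) (x 3)
  obtain ⟨fl, hfl, hl⟩ := le_fact (.succ (x 4)) (x 5)
  obtain ⟨fl', hfl', hl'⟩ := le_fact (.succ (x 6)) (x 5)
  set L := (thO (bv m) 3 4 (XF I D (d + 1) m)).len with hL
  set C := c2 + c4 + c7 + 2 * L + 2 with hC
  refine ⟨fun N => C * (N + 1) + (fe N + fl N + fl' N), ?_, ?_⟩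
  · exact ((PB.const _).mul (PB.id.add (PB.const 1))).add ((hfe.add hfl).add hfl')
  filter_upwards [h2, h4, h7, he, hl, hl'] with A h2 h4 h7 he hl hl' p tA t₁ w' v i b N M
    a₁ a₂ a₃ a₄ a₅ hp htA ht1 hw' hvi hbi hi hM hth q1 q2 q3 q9 q10
  have hMc : ∀ c, c ≤ C → c * (N + 1) ≤ M := fun c hc =>
    mulle (S := C) (by omega) hc
  have hCN : C ≤ C * (N + 1) := Nat.le_mul_of_pos_right _ (by omega)
  set e0 := as [tA, 0, p, p, v, i, b] with he0
  have he0N : ∀ k, e0 k ≤ N := as_le (by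
    simp only [List.forall_mem_cons, List.not_mem_nil, IsEmpty.forall_iff, implies_true,
      and_true]
    omega)
  have hthO : (thO (bv m) 3 4 (XF I D (d + 1) m)).cl e0 = th (bv m) p v (XF I D (d + 1) m) :=
    thO_cl (fun k hk => free_XF hcon hk) (by omega) (by omega) (by unfold bv; omega)
      (by unfold bv; omega) e0
  have hthO' : (thO (bv (m + 1)) 3 6 (XF I D d (m + 1))).cl e0 =
      th (bv (m + 1)) p b (XF I D d (m + 1)) :=
    thO_cl (fun k hk => free_XF hcon hk) (by omega) (by omega) (by unfold bv; omega)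
      (by unfold bv; omega) e0
  have hall : (all 1 con).cl e0 = all 1 (con.sub 0 (.num tA)) := by
    show all 1 _ = all 1 _
    refine congrArg (all 1) ?_
    rw [sub_sb_num]
    refine Fm.sb_congr fun k hk => ?_
    have := hcon.free k hk
    interval_cases k
    · rw [update_of_ne (show (0 : ℕ) ≠ 1 by omega), update_self]; rfl
    · rw [update_of_ne (show (1 : ℕ) ≠ 0 by omega), update_self]
  have q5 : Pr A 1 M ((thO (bv m) 3 4 (XF I D (d + 1) m)).cl e0) := by
    refine Pr.mem ?_ ?_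
    · rw [hthO]; exact hth
    · refine (Fm.len_cl he0N).trans ?_
      rw [← hL]
      exact hMc _ (by omega)
  -- the negation of `Ξ`
  have q6 : Pr A a₂ M ((imp (thO (bv (m + 1)) 3 6 (XF I D d (m + 1)))
      (imp (all 1 con) .bot)).cl e0) := by
    have : (imp (thO (bv (m + 1)) 3 6 (XF I D d (m + 1))) (imp (all 1 con) .bot)).cl e0 =
      imp ((thO (bv (m + 1)) 3 6 (XF I D d (m + 1))).cl e0) (imp ((all 1 con).cl e0) .bot) := rfl
    rw [this, hthO', hall]
    exact q2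
  have q7 := h7 e0 N M _ _ _ he0N (hMc _ (by omega)) q6 q5
    (by rw [I.clA (by simp [Al])]; simp only [Tm.cl_num]; exact q3)
  have q8 := (he e0 N he0N rfl).mono (M' := M) le_rfl (by omega)
  have q11 := (hl e0 N he0N (by show v + 1 ≤ i; omega)).mono (M' := M) le_rfl (by omega)
  have q12 := (hl' e0 N he0N (by show b + 1 ≤ i; omega)).mono (M' := M) le_rfl (by omega)
  have q1' : Pr A a₁ M ((EF I D (m + 1) 5).cl e0) := by
    have e5 : (EF I D (m + 1) 5).cl e0 = (EF I D (m + 1) 5).cl (as [0, 0, p, p, v, i, b]) :=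
      EF_cl hcon (by omega) (by omega) rfl rfl rfl
    rw [e5]
    exact q1
  have q13 := h4 e0 N M _ _ _ _ _ _ he0N (hMc _ (by omega)) q5 q8 q11 q12 q1' q7
  -- the conclusion
  set e1 := as [t₁, w', p, p, v, i, b] with he1
  have he1N : ∀ k, e1 k ≤ N := as_le (by
    simp only [List.forall_mem_cons, List.not_mem_nil, IsEmpty.forall_iff, implies_true,
      and_true]
    omega)
  have e3 : (CF I D m (x 5) (x 4)).cl e0 = (CF I D m (x 5) (x 4)).cl e1 :=
    CF_cl hcon rfl rfl (Or.inl (by omega)) (Or.inl (by omega)) rfl rfl rfl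
  rw [e3] at q13
  have q14 := h2 e1 N M _ _ _ he1N (hMc _ (by omega)) q13
    (by rw [I.clA (by simp [Al])]; simp only [Tm.cl_num]; exact q9)
    (by rw [I.clA (by simp [Al])]; simp only [Tm.cl_num]; exact q10)
  have e4 : con.cl e1 = con.cl (as [t₁, w']) := hcon.cl_congr rfl rfl
  rw [e4] at q14
  exact q14.mono (by omega) le_rfl

end Helper31Con

end

section

/-!
# Cost of the derivations at one level
-/

namespace Helper31Con

open Function Filter Fm

variable {con : Fm} {g : ℕ → ℕ} {s₀ : ℕ}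

lemma Am_mem {I : Iface (Rel con g s₀)} {D : ℕ} {B : List Fm} (m v : ℕ) :
    ∀ β ∈ B, β ∈ Am I D B m v := fun _ h => List.mem_cons_of_mem _ h

lemma level_top (I : Iface (Rel con g s₀)) (hcon : IsCon con) (hg : Good g s₀) {γ : Fm}
    (hγ : Graph g γ) {F : ℕ → ℕ} (hF : ∀ᶠ B in rich, Base I F B) (D : ℕ) :
    ∃ f, PB f ∧ ∀ᶠ B in rich, (∀ β ∈ B, TrueS β) → ∀ v i N, v < i →
      pk I D B ≤ nod g s₀ D i 0 → D ≤ nod g s₀ D i 0 →
      lc (Tmv I D B 0 0) ≤ nod g s₀ D i 0 → lc (Tmv I D B D v) ≤ nod g s₀ D i 0 →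
      F (nod g s₀ D i 0) ≤ N → nod g s₀ D i D ≤ N →
      Pr (Am I D B D v) (f N) (f N) (con.cl (as [lc (Tmv I D B D v), nod g s₀ D i D])) := by
  obtain ⟨f, hf, h⟩ := top_step I hcon D
  obtain ⟨fn, hfn, hn⟩ := nod_fact I hg hγ
  refine ⟨fun N => f N + 2 * fn N + 3 * N, (hf.add ((PB.const 2).mul hfn)).add
    ((PB.const 3).mul PB.id), ?_⟩
  filter_upwards [rich_up h, rich_up hn, rich_up hF] with B h hn hF hB v i N hvi hpk hDw hT0 hT
    hFN hiN
  have hBA : ∀ β ∈ B, β ∈ Am I D B D v := Am_mem D v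
  replace h := h _ hBA
  replace hn := hn _ hBA
  replace hF := hF _ hBA
  have hsd : s₀ + i ≤ nod g s₀ D i 0 := hg.sd_ge D i
  have hwD : nod g s₀ D i 0 ≤ nod g s₀ D i D :=
    hg.iter_le (by have := hg.sd_ge D i; omega) (Nat.zero_le D)
  set M := f N + 2 * fn N + 3 * N with hM
  have q1 : Pr (Am I D B D v) (F (nod g s₀ D i 0)) M
      (con.cl (as [lc (Tmv I D B 0 0), nod g s₀ D i 0])) :=
    (hF.cons (nod g s₀ D i 0) (Tmv I D B 0 0) (nod g s₀ D i 0) (Tmv_sentence hcon hB 0 0) hT0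
      le_rfl (T00_consistent hcon hB hg _)).mono le_rfl (by omega)
  have q2 := (hn N i 0 D (by omega) (by omega)).mono (M' := M) le_rfl (by omega)
  have q3 := (hF.cdt (nod g s₀ D i 0) 0 0 (pk I D B) (lc (Tmv I D B 0 0)) (by omega) (by omega)
    hpk ((cdT_iff (Nat.zero_le D)).mpr rfl)).mono (M' := M) le_rfl (by omega)
  have q4 := (hn N i D D (by omega) (by omega)).mono (M' := M) le_rfl (by omega)
  have q5 := (hF.cdt (nod g s₀ D i 0) D v (pk I D B) (lc (Tmv I D B D v)) (by omega) (by omega)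
    hpk ((cdT_iff le_rfl).mpr rfl)).mono (M' := M) le_rfl (by omega)
  have hth : th (bv D) (pk I D B) v (XF I D 0 D) ∈ Am I D B D v := by
    unfold Am
    rw [Nat.sub_self]
    exact List.mem_cons_self
  have := h (pk I D B) (lc (Tmv I D B 0 0)) (lc (Tmv I D B D v)) (nod g s₀ D i 0)
    (nod g s₀ D i D) v i N M _ _ _ _ _ (by omega) (by omega) (by omega) (by omega) hiN hvi
    (by omega) (by omega) q1 q2 q3 hth q4 q5
  exact this.mono (by omega) le_rfl

lemma level_lt (I : Iface (Rel con g s₀)) (hcon : IsCon con) (hg : Good g s₀) {γ : Fm}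
    (hγ : Graph g γ) {D m d : ℕ} (hD : m + 1 + d = D) :
    ∃ F' f, EB F' ∧ PB f ∧ ∀ᶠ B in rich, (∀ β ∈ B, TrueS β) → ∀ v b i N, v ≤ i → b ≤ i →
      pk I D B ≤ nod g s₀ D i D → D ≤ nod g s₀ D i D →
      (∀ j, b < j → j < i + 1 → ¬ Prov (Tmv I D B (m + 1) b) (nod g s₀ D j (m + 1)) .bot) →
      Prov (Tmv I D B (m + 1) b) N .bot →
      F' (nod g s₀ D i D) ≤ N → nod g s₀ D (i + 1) (m + 1) ≤ N →
      Pr (Am I D B m v) (f N) (f N)
        (con.cl (as [lc (Tmv I D B m v), nod g s₀ D (i + 1) m])) := by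
  obtain ⟨F, hFE, hFm, hF⟩ := exists_base I hcon
  obtain ⟨f1, hf1, h1⟩ := cf_step I hcon D (m + 1)
  obtain ⟨f2, hf2, h2⟩ := ef_step I hcon D (m + 1)
  obtain ⟨f3, hf3, h3⟩ := lt_step I hcon D m d
  obtain ⟨fn, hfn, hn⟩ := nod_fact I hg hγ
  set L := (thO (bv (m + 1)) 3 6 (XF I D d (m + 1))).len with hL
  set Z : ℕ → ℕ := fun y => Tb con y + Zb y + y + 1 with hZ
  have hZE : EB Z := (((Tb_eb con).add Zb_eb).add EB.id).add (EB.const 1)
  set s : ℕ → ℕ := fun y => f1 (Z y) + F (Z y) + fn y + F (Z y) with hs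
  have hsE : EB s := (((hf1.eb.comp hZE).add (hFE.comp hZE)).add hfn.eb).add (hFE.comp hZE)
  set E : ℕ → ℕ := fun y => (y + 1) * (f2 (Z y) + s y) with hE
  have hEE : EB E := (EB.id.add (EB.const 1)).mul ((hf2.eb.comp hZE).add hsE)
  refine ⟨fun y => Z y + s y + E y + f2 (Z y) + (con.len * (Zb y + 1) + L * (y + 1)),
    fun N => f3 N + fn N + 100 * N + 100, ?_, ?_, ?_⟩
  · exact (((hZE.add hsE).add hEE).add (hf2.eb.comp hZE)).add
      (((EB.const _).mul (Zb_eb.add (EB.const 1))).add ((EB.const _).mul (EB.id.add (EB.const 1))))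
  · exact ((hf3.add hfn).add ((PB.const 100).mul PB.id)).add (PB.const 100)
  filter_upwards [rich_up h1, rich_up h2, rich_up h3, rich_up hn, rich_up hF] with B h1 h2 h3 hn
    hF hB v b i N hvi hbi hpk hDy hnp hp hF' hiN
  have hBA : ∀ β ∈ B, β ∈ Am I D B m v := Am_mem m v
  replace h1 := h1 _ hBA
  replace h2 := h2 _ hBA
  replace h3 := h3 _ hBA
  replace hn := hn _ hBA
  replace hF := hF _ hBA
  obtain ⟨y, hy⟩ : ∃ y, y = nod g s₀ D i D := ⟨_, rfl⟩
  rw [← hy] at hpk hDy hF'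
  -- numerical bounds
  have hZy : Z y = Tb con y + Zb y + y + 1 := rfl
  have hsy : s y = f1 (Z y) + F (Z y) + fn y + F (Z y) := rfl
  have hEy : E y = (y + 1) * (f2 (Z y) + s y) := rfl
  have hF'' : Z y + s y + E y + f2 (Z y) + (con.len * (Zb y + 1) + L * (y + 1)) ≤ N := hF'
  have hsd : s₀ + i ≤ sd g s₀ D i := hg.sd_ge D i
  have hiy : s₀ + i ≤ y := by
    have := hg.iter (x := sd g s₀ D i) (by omega) D
    rw [hy]; show _ ≤ g^[D] (sd g s₀ D i); omega
  have hmD : m + 1 ≤ D := by omega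
  have htA : lc (Am I D B (m + 1) b) ≤ Zb y :=
    cdA_le ((cdA_iff hmD).mpr rfl) (by omega) (by omega) hpk
  have ht' : lc (Tmv I D B (m + 1) b) ≤ Tb con y :=
    cdT_le ((cdT_iff hmD).mpr rfl) (by omega) (by omega) hpk
  have ht1 : lc (Tmv I D B m v) ≤ Tb con y :=
    cdT_le ((cdT_iff (by omega)).mpr rfl) (by omega) (by omega) hpk
  have e1 : D - m = d + 1 := by omega
  have e2 : D - (m + 1) = d := by omega
  set M := f3 N + fn N + 100 * N + 100 with hM
  -- consistency facts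
  have q1 : ∀ j, b < j → j < i + 1 → Pr (Am I D B m v) (s y) M
      ((CF I D (m + 1) (x 5) (x 6)).cl (as [0, 0, pk I D B, pk I D B, v, j, b])) := by
    intro j hbj hji
    have hj1 : nod g s₀ D j (m + 1) ≤ y := by
      rw [hy]
      exact (nod_mono hg (by omega : j ≤ i)).trans (hg.iter_le (by omega) hmD)
    have r1 := (hF.cons (Z y) (Tmv I D B (m + 1) b) (nod g s₀ D j (m + 1))
      (Tmv_sentence hcon hB _ _) (by omega) (by omega) (hnp j hbj hji)).mono (M' := M) le_rfl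
      (by omega)
    have r2 := (hn y j (m + 1) D hDy hj1).mono (M' := M) le_rfl (by omega)
    have r3 := (hF.cdt (Z y) (m + 1) b (pk I D B) (lc (Tmv I D B (m + 1) b)) (by omega)
      (by omega) (by omega) ((cdT_iff hmD).mpr rfl)).mono (M' := M) le_rfl (by omega)
    exact h1 (pk I D B) _ _ v j b (Z y) M _ _ _ (by omega) (by omega) (by omega) (by omega)
      (by omega) (by omega) (by omega) r1 r2 r3
  have q2 := h2 (pk I D B) v (i + 1) b (Z y) M (s y) (by omega) (by omega) (by omega) (by omega)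
    (by omega) q1
  have hEle : (i + 1) * (f2 (Z y) + s y) ≤ E y := by
    rw [hEy]; exact Nat.mul_le_mul_right _ (by omega)
  -- the refutation
  have q3 : Pr (Am I D B m v) (25 * N) M (imp (th (bv (m + 1)) (pk I D B) b (XF I D d (m + 1)))
      (imp (all 1 (con.sub 0 (.num (lc (Am I D B (m + 1) b))))) .bot)) := by
    have r1 : Pr (conS con (Am I D B (m + 1) b) :: Am I D B (m + 1) b) N N .bot := hp.pr
    have r2 := r1.ded (hcon.conS_sentence _)
    have r3 : Pr (th (bv (m + 1)) (pk I D B) b (XF I D d (m + 1)) :: B) (5 * N)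
        (5 * (N + (conS con (Am I D B (m + 1) b)).len + 2))
        (imp (conS con (Am I D B (m + 1) b)) .bot) := by
      have : Am I D B (m + 1) b = th (bv (m + 1)) (pk I D B) b (XF I D d (m + 1)) :: B := by
        unfold Am; rw [e2]
      rw [← this]; exact r2
    have hts : Fm.Sentence (th (bv (m + 1)) (pk I D B) b (XF I D d (m + 1))) := by
      have := th_sentence (I := I) (D := D) (B := B) hcon (m + 1) b
      rwa [e2] at this
    have r4 := (r3.ded hts).monoT hBA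
    have l1 : (conS con (Am I D B (m + 1) b)).len ≤ con.len * (Zb y + 1) + 3 := by
      have := len_sub_le con (lc (Am I D B (m + 1) b))
      have h5 : con.len * (lc (Am I D B (m + 1) b) + 1) ≤ con.len * (Zb y + 1) :=
        Nat.mul_le_mul_left _ (by omega)
      show (con.sub 0 (.num (lc (Am I D B (m + 1) b)))).len + (1 + 1) + 1 ≤ _
      omega
    have l2 : (th (bv (m + 1)) (pk I D B) b (XF I D d (m + 1))).len ≤ L * (y + 1) := by
      have h5 : (thO (bv (m + 1)) 3 6 (XF I D d (m + 1))).cl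
          (as [0, 0, 0, pk I D B, 0, 0, b]) = th (bv (m + 1)) (pk I D B) b (XF I D d (m + 1)) :=
        thO_cl (fun k hk => free_XF hcon hk) (by omega) (by omega) (by unfold bv; omega)
          (by unfold bv; omega) _
      rw [← h5, hL]
      exact Fm.len_cl (as_le (by
        simp only [List.forall_mem_cons, List.not_mem_nil, IsEmpty.forall_iff, implies_true,
          and_true]
        omega))
    exact r4.mono (by omega) (by omega)
  have q4 := (hF.cda (Z y) (m + 1) b (pk I D B) (lc (Am I D B (m + 1) b)) (by omega) (by omega)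
    (by omega) ((cdA_iff hmD).mpr rfl)).mono (M' := M) le_rfl (by omega)
  have him : nod g s₀ D (i + 1) m ≤ nod g s₀ D (i + 1) (m + 1) :=
    hg.iter_le (by have := hg.sd_ge D (i + 1); omega) (by omega)
  have q5 := (hn N (i + 1) m D (by omega) (by omega)).mono (M' := M) le_rfl (by omega)
  have q6 := (hF.cdt (Z y) m v (pk I D B) (lc (Tmv I D B m v)) (by omega) (by omega)
    (by omega) ((cdT_iff (by omega)).mpr rfl)).mono (M' := M) le_rfl (by omega)
  have hth : th (bv m) (pk I D B) v (XF I D (d + 1) m) ∈ Am I D B m v := by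
    unfold Am
    rw [e1]
    exact List.mem_cons_self
  have := h3 (pk I D B) (lc (Am I D B (m + 1) b)) (lc (Tmv I D B m v))
    (nod g s₀ D (i + 1) m) v (i + 1) b N M _ _ _ _ _ (by omega) (by omega) (by omega)
    (by omega) (by omega) (by omega) (by omega) (by omega) hth q2 q3 q4 q5 q6
  exact this.mono (by omega) le_rfl

end Helper31Con

end

section

/-!
# The main argument
-/

namespace Helper31Con

open Function Filter Fm

variable {con : Fm} {g : ℕ → ℕ} {s₀ : ℕ}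

lemma Q_true : ∀ φ ∈ Q, TrueS φ := by
  intro φ hφ
  simp only [Q, List.mem_cons, List.not_mem_nil, or_false] at hφ
  rcases hφ with rfl | rfl | rfl | rfl | rfl | rfl | rfl | rfl | rfl
  · exact ⟨fun k => by simp [Fm.Free, Tm.Has], fun e a => by simp [Fm.Sat, Tm.val]⟩
  · exact ⟨fun k => by simp [Fm.Free, Tm.Has]; omega,
      fun e a b => by simp [Fm.Sat, Tm.val, update_apply]⟩
  · refine ⟨fun k => by simp [Fm.Free, Tm.Has]; omega, fun e a => ?_⟩
    simp only [Fm.Sat, sat_neg, sat_ex, Tm.val, update_self]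
    intro h
    refine ⟨a - 1, ?_⟩
    rw [update_of_ne (by omega), update_self]; omega
  · exact ⟨fun k => by simp [Fm.Free, Tm.Has], fun e a => by simp [Fm.Sat, Tm.val]⟩
  · exact ⟨fun k => by simp [Fm.Free, Tm.Has]; omega,
      fun e a b => by simp [Fm.Sat, Tm.val, update_apply]; omega⟩
  · exact ⟨fun k => by simp [Fm.Free, Tm.Has], fun e a => by simp [Fm.Sat, Tm.val]⟩
  · exact ⟨fun k => by simp [Fm.Free, Tm.Has]; omega,
      fun e a b => by simp [Fm.Sat, Tm.val, update_apply]; ring⟩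
  · refine ⟨fun k => by simp [Fm.Free, Tm.Has]; omega, fun e a b => ?_⟩
    simp only [Fm.Sat, sat_ex, Tm.val, update_self]
    rw [update_of_ne (by omega), update_self]
    intro h
    refine ⟨b - a, ?_⟩
    rw [update_of_ne (by omega), update_of_ne (by omega), update_self, update_of_ne (by omega),
      update_self]; omega
  · refine ⟨fun k => by simp [Fm.Free, Tm.Has]; omega, fun e a b => ?_⟩
    simp only [Fm.Sat, sat_ex, Tm.val, update_self]
    rw [update_of_ne (show (0 : ℕ) ≠ 1 by omega), update_self]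
    rintro ⟨c, h⟩
    rw [update_of_ne (by omega), update_of_ne (by omega), update_self, update_of_ne (by omega),
      update_self] at h
    omega

/-- Some iterate of `g` is eventually at least `2 ^ n`. -/
def EvExp (g : ℕ → ℕ) : Prop := ∃ r n₀ : ℕ, ∀ n, n₀ ≤ n → 2 ^ n ≤ g^[r] n

lemma good_of {g : ℕ → ℕ} (hm : Monotone g) {r n₀ : ℕ} (h : ∀ n, n₀ ≤ n → 2 ^ n ≤ g^[r] n) :
    Good g (max n₀ 1) := by
  refine ⟨hm, le_max_right _ _, fun n hn => ?_⟩
  by_contra hlt
  have h1 : ∀ k, g^[k] n ≤ n := by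
    intro k
    induction k with
    | zero => exact le_rfl
    | succ k ih =>
      rw [iterate_succ_apply']
      exact (hm ih).trans (by omega)
  have h2 := h n ((le_max_left _ _).trans hn)
  have h3 : n < 2 ^ n := Nat.lt_two_pow_self
  have := h1 r
  omega

lemma tw_le_iter {g : ℕ → ℕ} (hg : Good g s₀) {r : ℕ} (h : ∀ n, s₀ ≤ n → 2 ^ n ≤ g^[r] n)
    (k n : ℕ) (hn : s₀ ≤ n) : tw k n ≤ g^[r * k] n := by
  induction k with
  | zero => exact le_rfl
  | succ k ih =>
    have h1 : g^[r * (k + 1)] n = g^[r] (g^[r * k] n) := by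
      rw [← iterate_add_apply]; congr 1; congr 1; ring
    rw [h1, tw_succ]
    have h2 := hg.iter hn (r * k)
    exact (Nat.pow_le_pow_right (by omega) ih).trans (h _ (by omega))

lemma eb_le_tw {F : ℕ → ℕ} (hF : EB F) : ∃ h, ∀ y, h ≤ y → F y ≤ tw y y := by
  obtain ⟨h, hh⟩ := hF
  refine ⟨2 * h, fun y hy => (hh y).trans ?_⟩
  have h1 : y + h ≤ tw h y := add_le_tw h y
  calc tw h (y + h) ≤ tw h (tw h y) := tw_mono _ h1
    _ = tw (h + h) y := (tw_add _ _ _).symm
    _ ≤ tw y y := tw_le_tw (by omega) y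

lemma pb_le_pow {f : ℕ → ℕ} (hf : PB f) : ∃ c, ∀ N, 2 ≤ N → f N * f N ≤ N ^ c := by
  obtain ⟨C, q, hC⟩ := hf
  refine ⟨2 * (C + 2 * q), fun N hN => ?_⟩
  have h1 : N + 2 ≤ N ^ 2 := by nlinarith
  have h2 : C ≤ N ^ C := (Nat.lt_two_pow_self).le.trans (Nat.pow_le_pow_left hN _)
  have h3 : f N ≤ N ^ (C + 2 * q) := by
    calc f N ≤ C * (N + 2) ^ q := hC N
      _ ≤ N ^ C * (N ^ 2) ^ q := Nat.mul_le_mul h2 (Nat.pow_le_pow_left h1 _)
      _ = N ^ (C + 2 * q) := by rw [← pow_mul, ← pow_add]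
  calc f N * f N ≤ N ^ (C + 2 * q) * N ^ (C + 2 * q) := Nat.mul_le_mul h3 h3
    _ = N ^ (2 * (C + 2 * q)) := by rw [← pow_add]; congr 1; ring

/-- The main theorem, given formulas for the auxiliary relations. -/
theorem main_of_iface (hcon : IsCon con) (hm : Monotone g) {r n₀ : ℕ}
    (hr : ∀ n, n₀ ≤ n → 2 ^ n ≤ g^[r] n) {γ : Fm} (hγ : Graph g γ)
    (I : Iface (Rel con g (max n₀ 1))) (B₀ : List Fm) (hB₀ : ∀ β ∈ B₀, TrueS β) :
    ∃ (A : List Fm) (c : ℕ), (∀ φ ∈ A, TrueS φ) ∧ (∀ φ ∈ B₀, φ ∈ A) ∧ (∀ φ ∈ Q, φ ∈ A) ∧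
      ∀ N, ∃ n ≥ N, Prov A (g n ^ c) (conN con (conS con A :: A) n) := by
  classical
  set s₀ := max n₀ 1 with hs₀
  have hg : Good g s₀ := good_of hm hr
  have hr' : ∀ n, s₀ ≤ n → 2 ^ n ≤ g^[r] n := fun n hn => hr n ((le_max_left _ _).trans hn)
  obtain ⟨F₀, hF₀, hF₀m, hbase⟩ := exists_base I hcon
  obtain ⟨h, hh⟩ := hF₀
  set D := r * (2 * h) with hD
  have hF₀D : ∀ n, s₀ ≤ n → F₀ n ≤ g^[D + 1] n := by
    intro n hn
    have h1 : n + h ≤ tw h n := add_le_tw h n
    calc F₀ n ≤ tw h (n + h) := hh n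
      _ ≤ tw h (tw h n) := tw_mono _ h1
      _ = tw (2 * h) n := by rw [← tw_add]; congr 1; ring
      _ ≤ g^[r * (2 * h)] n := tw_le_iter hg hr' _ _ hn
      _ ≤ g^[D + 1] n := hg.iter_le hn (by omega)
  obtain ⟨f, hf, htop⟩ := level_top I hcon hg hγ hbase D
  have hlt : ∀ m : ℕ, ∃ F' f, EB F' ∧ PB f ∧ (m < D → ∀ᶠ B in rich, (∀ β ∈ B, TrueS β) →
      ∀ v b i N, v ≤ i → b ≤ i →
      pk I D B ≤ nod g s₀ D i D → D ≤ nod g s₀ D i D →
      (∀ j, b < j → j < i + 1 → ¬ Prov (Tmv I D B (m + 1) b) (nod g s₀ D j (m + 1)) .bot) →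
      Prov (Tmv I D B (m + 1) b) N .bot →
      F' (nod g s₀ D i D) ≤ N → nod g s₀ D (i + 1) (m + 1) ≤ N →
      Pr (Am I D B m v) (f N) (f N)
        (con.cl (as [lc (Tmv I D B m v), nod g s₀ D (i + 1) m]))) := by
    intro m
    by_cases hmD : m < D
    · obtain ⟨F', f, h1, h2, h3⟩ := level_lt I hcon hg hγ (D := D) (m := m) (d := D - (m + 1))
        (by omega)
      exact ⟨F', f, h1, h2, fun _ => h3⟩
    · exact ⟨fun _ => 0, fun _ => 0, EB.const 0, PB.const 0, fun h => absurd h hmD⟩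
  choose F' f' hF' hf' hlev using hlt
  have hall : ∀ᶠ B in rich, ∀ m ∈ Set.Iio D, (∀ β ∈ B, TrueS β) →
      ∀ v b i N, v ≤ i → b ≤ i →
      pk I D B ≤ nod g s₀ D i D → D ≤ nod g s₀ D i D →
      (∀ j, b < j → j < i + 1 → ¬ Prov (Tmv I D B (m + 1) b) (nod g s₀ D j (m + 1)) .bot) →
      Prov (Tmv I D B (m + 1) b) N .bot →
      F' m (nod g s₀ D i D) ≤ N → nod g s₀ D (i + 1) (m + 1) ≤ N →
      Pr (Am I D B m v) (f' m N) (f' m N)
        (con.cl (as [lc (Tmv I D B m v), nod g s₀ D (i + 1) m])) :=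
    (eventually_all_finite (Set.finite_Iio D)).mpr fun m hm => hlev m hm
  obtain ⟨B₁, hB₁, hB₁'⟩ := rich_iff.mp (htop.and hall)
  set B := B₁ ++ (B₀ ++ Q) with hBdef
  have hB : ∀ β ∈ B, TrueS β := by
    intro β hβ
    rcases List.mem_append.mp hβ with h | h
    · exact hB₁ β h
    · rcases List.mem_append.mp h with h | h
      · exact hB₀ β h
      · exact Q_true β h
  obtain ⟨htop', hlev'⟩ := hB₁' B (fun β hβ => List.mem_append_left _ hβ)
  replace htop' := htop' hB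
  -- the largest level with a consistent version
  let P : ℕ → Prop := fun m => ∃ v, ∀ n, ¬ Prov (Tmv I D B m v) n .bot
  have hP0 : P 0 := ⟨0, T00_consistent hcon hB hg⟩
  set m := Nat.findGreatest P D with hmdef
  have hPm : P m := Nat.findGreatest_spec (m := 0) (Nat.zero_le D) hP0
  have hmD : m ≤ D := Nat.findGreatest_le D
  obtain ⟨v, hv⟩ := hPm
  -- the axioms are true
  have hX : sX con g s₀ D (pk I D B) (D - m) m v := by
    refine sX_of (sTT_true hcon hB _ m (by omega)) fun a _ _ => ?_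
    rw [sC_iff hcon hB hmD]
    exact hv _
  have hAtrue := Am_true hcon hB hX
  have hBA : ∀ β ∈ B, β ∈ Am I D B m v := Am_mem m v
  have hTeq : ∀ n, conN con (conS con (Am I D B m v) :: Am I D B m v) n =
      con.cl (as [lc (Tmv I D B m v), n]) := fun n => hcon.conN_eq _ n
  have hgt : ∀ i k, i ≤ nod g s₀ D i k := fun i k => by
    have h1 := hg.sd_ge D i
    have h2 := hg.iter (x := sd g s₀ D i) (by omega) k
    show i ≤ g^[k] (sd g s₀ D i)
    omega
  have hs1 : 1 ≤ s₀ := hg.pos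
  have hs0 : ∀ i k, s₀ ≤ nod g s₀ D i k := fun i k => by
    have h1 := hg.sd_ge D i
    have h2 := hg.iter (x := sd g s₀ D i) (by omega) k
    show s₀ ≤ g^[k] (sd g s₀ D i)
    omega
  have hsucc : ∀ i k, nod g s₀ D i (k + 1) = g (nod g s₀ D i k) := fun i k => by
    show g^[k + 1] _ = _
    rw [iterate_succ_apply']; rfl
  rcases Nat.lt_or_ge m D with hlt | hge
  · -- all versions at level `m + 1` are inconsistent
    have hinc : ∀ b, ∃ n, Prov (Tmv I D B (m + 1) b) n .bot := by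
      intro b
      by_contra hb
      push Not at hb
      exact Nat.findGreatest_is_greatest (P := P) (n := D) (k := m + 1) (by omega) (by omega)
        ⟨b, hb⟩
    obtain ⟨c, hc⟩ := pb_le_pow (hf' m)
    refine ⟨Am I D B m v, c, hAtrue, fun φ hφ => hBA φ (List.mem_append_right _
      (List.mem_append_left _ hφ)), fun φ hφ => hBA φ (List.mem_append_right _
      (List.mem_append_right _ hφ)), fun N₀ => ?_⟩
    obtain ⟨h', hh'⟩ := eb_le_tw (hF' m)
    obtain ⟨p, hp⟩ : ∃ p, p = pk I D B := ⟨_, rfl⟩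
    set b := N₀ + v + p + D + h' with hb
    obtain ⟨ℓ, hℓ⟩ := hinc b
    have hex : ∃ i, b < i ∧ Prov (Tmv I D B (m + 1) b) (nod g s₀ D i (m + 1)) .bot :=
      ⟨b + 1 + ℓ, by omega, hℓ.mono ((by omega : ℓ ≤ b + 1 + ℓ).trans (hgt _ _))⟩
    obtain ⟨hi1, hi2⟩ := Nat.find_spec hex
    have hi3 : ∀ j, b < j → j < Nat.find hex →
        ¬ Prov (Tmv I D B (m + 1) b) (nod g s₀ D j (m + 1)) .bot :=
      fun j hj hj' hp => Nat.find_min hex hj' ⟨hj, hp⟩
    obtain ⟨i, hi⟩ : ∃ i, Nat.find hex = i + 1 := ⟨Nat.find hex - 1, by omega⟩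
    rw [hi] at hi1 hi2 hi3
    have hy := hgt i D
    have hN1 : F' m (nod g s₀ D i D) ≤ nod g s₀ D (i + 1) (m + 1) := by
      refine (hh' _ (by omega)).trans ?_
      exact (hg.iter_le (x := sd g s₀ D (i + 1)) (by have := hg.sd_ge D (i + 1); omega)
        (Nat.zero_le (m + 1)))
    have key := hlev' m hlt hB v b i (nod g s₀ D (i + 1) (m + 1)) (by omega) (by omega)
      (by rw [← hp]; omega) (by omega) hi3 hi2 hN1 le_rfl
    rw [hsucc] at key
    refine ⟨nod g s₀ D (i + 1) m, ?_, ?_⟩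
    · have := hgt (i + 1) m; omega
    · rw [hTeq]
      refine key.prov.mono (hc _ ?_)
      have h1 := hs0 (i + 1) m
      have h2 := hg.lt _ h1
      omega
  · -- the top level
    have hmD' : m = D := le_antisymm hmD hge
    obtain ⟨c, hc⟩ := pb_le_pow hf
    refine ⟨Am I D B m v, c, hAtrue, fun φ hφ => hBA φ (List.mem_append_right _
      (List.mem_append_left _ hφ)), fun φ hφ => hBA φ (List.mem_append_right _
      (List.mem_append_right _ hφ)), fun N₀ => ?_⟩
    obtain ⟨p, hp⟩ : ∃ p, p = pk I D B := ⟨_, rfl⟩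
    obtain ⟨t₀, ht₀⟩ : ∃ t, t = lc (Tmv I D B 0 0) := ⟨_, rfl⟩
    obtain ⟨t₁, ht₁⟩ : ∃ t, t = lc (Tmv I D B D v) := ⟨_, rfl⟩
    set i := N₀ + v + p + D + t₀ + t₁ + 1 with hi
    have hy := hgt i 0
    have hN1 : F₀ (nod g s₀ D i 0) ≤ nod g s₀ D i (D + 1) := hF₀D _ (hs0 i 0)
    have h0D : nod g s₀ D i D ≤ nod g s₀ D i (D + 1) :=
      hg.iter_le (x := sd g s₀ D i) (by have := hg.sd_ge D i; omega) (by omega)
    rw [← hp, ← ht₀] at htop'
    have key := htop' v i (nod g s₀ D i (D + 1)) (by omega) (by omega) (by omega) (by omega)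
      (by rw [← ht₁]; omega) hN1 h0D
    rw [hsucc] at key
    refine ⟨nod g s₀ D i D, ?_, ?_⟩
    · have := hgt i D; omega
    · rw [hTeq, hmD']
      refine key.prov.mono (hc _ ?_)
      have h1 := hs0 i D
      have h2 := hg.lt _ h1
      omega

end Helper31Con

end
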