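import Pool.Agent.Helper31_Con.Main
import Pool.Agent.Helper31_Eff.Closed

section

/-!
# Instances: a formula for finite consistency, growth functions with provable graph
-/

namespace Helper31Con

open Function Filter Fm

/-- Definable binary relations are defined by formulas with free variables `x_0`, `x_1` only. -/
lemma exists_two {P : ℕ → ℕ → Prop} (h : Dfn (fun e => P (e 0) (e 1))) :
    ∃ φ : Fm, (∀ k, φ.Free k → k < 2) ∧ ∀ e : ℕ → ℕ, φ.Sat e ↔ P (e 0) (e 1) := by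
  obtain ⟨φ, hφ⟩ := h
  set σ : ℕ → Tm := fun k => if k < 2 then .var k else .num 0 with hσ
  have hσn : NumSub σ := by
    intro k
    by_cases hk : k < 2
    · left; simp only [hσ, if_pos hk]
    · right; exact ⟨0, by simp only [hσ, if_neg hk]⟩
  refine ⟨φ.sb σ, fun k hk => ?_, fun e => ?_⟩
  · have := (Fm.free_sb hσn hk).2
    by_contra hk2
    simp only [hσ, if_neg hk2, Tm.num] at this
    exact absurd this (by simp)
  · rw [Fm.sat_sb hσn, hφ]
    simp [hσ, Tm.val]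

/-- There is a formula for finite consistency. -/
theorem exists_con : ∃ con, IsCon con := by
  have h : D4 (Rel .bot (fun n => n) 1 15) := d4_syn (by omega)
  have h1 : Dfn (fun e => ∀ w, NR w (e 0) (e 1)) := by
    refine ((h.app (x 2) (x 0) (x 1) .zero).all 2).congr fun e => forall_congr' fun w => ?_
    simp (disch := decide) only [Tm.val, update_self, update_of_ne, Rel]
  obtain ⟨con, h2, h3⟩ := exists_two (P := fun a b => ∀ w, NR w a b) h1
  refine ⟨con, ⟨h2, fun T e _ he => ?_⟩⟩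
  rw [h3, he]
  exact ⟨fun h => not_prov_of_nr le_rfl (h (lb (e 1))), fun h w => nr_of_not_prov h⟩

/-- The main theorem. -/
theorem main {con : Fm} (hcon : IsCon con) {g : ℕ → ℕ} (hm : Monotone g) (hr : EvExp g)
    (hγ : ∃ γ, Graph g γ) (B₀ : List Fm) (hB₀ : ∀ β ∈ B₀, TrueS β) :
    ∃ (A : List Fm) (c : ℕ), (∀ φ ∈ A, TrueS φ) ∧ (∀ φ ∈ B₀, φ ∈ A) ∧ (∀ φ ∈ Q, φ ∈ A) ∧
      ∀ N, ∃ n ≥ N, Prov A (g n ^ c) (conN con (conS con A :: A) n) := by
  obtain ⟨r, n₀, hr⟩ := hr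
  obtain ⟨γ, hγ⟩ := hγ
  obtain ⟨I⟩ := exists_iface con γ g (max n₀ 1) hγ.sat (good_of hm hr)
  exact main_of_iface hcon hm hr hγ I B₀ hB₀

/-! ### A sequence of growth rates -/

/-- The sequence `a_j`: `a_{r i + m}` is the `i`-fold exponential of `r + 1 + m`. -/
def fs (r j : ℕ) : ℕ := tw (j / r) (r + 1 + j % r)

lemma tw_lt (i : ℕ) {a b : ℕ} (h : a < b) : tw i a < tw i b := by
  induction i with
  | zero => exact h
  | succ i ih => exact Nat.pow_lt_pow_right (by omega) ih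

lemma succ_le_two_pow (r : ℕ) : r + 1 + r ≤ 2 ^ (r + 1) := by
  have : r < 2 ^ r := Nat.lt_two_pow_self
  rw [pow_succ]; omega

lemma fs_next {r : ℕ} (hr : 0 < r) (j : ℕ) : tw (j / r) (r + 1 + j % r + 1) ≤ fs r (j + 1) := by
  have h1 := Nat.div_add_mod j r
  have h2 := Nat.mod_lt j hr
  rcases Nat.lt_or_ge (j % r + 1) r with h | h
  · have e1 : (j + 1) / r = j / r := by
      rw [Nat.div_eq_iff hr]
      constructor
      · rw [Nat.mul_comm]; omega
      · rw [Nat.mul_comm]; omega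
    have e2 : (j + 1) % r = j % r + 1 := by
      have h3 := Nat.div_add_mod (j + 1) r
      rw [e1] at h3
      omega
    unfold fs
    rw [e1, e2]
    exact le_rfl
  · have h3 : j + 1 = r * (j / r + 1) := by rw [Nat.mul_add]; omega
    have e1 : (j + 1) / r = j / r + 1 := by
      rw [h3, Nat.mul_div_cancel_left _ hr]
    have e2 : (j + 1) % r = 0 := by
      rw [h3, Nat.mul_mod_right]
    unfold fs
    rw [e1, e2, tw_add]
    refine tw_mono _ ?_
    show _ ≤ 2 ^ (r + 1)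
    have := succ_le_two_pow r
    omega

lemma fs_lt {r : ℕ} (hr : 0 < r) (j : ℕ) : fs r j < fs r (j + 1) :=
  (tw_lt _ (by omega)).trans_le (fs_next hr j)

lemma fs_strictMono {r : ℕ} (hr : 0 < r) : StrictMono (fs r) :=
  strictMono_nat_of_lt_succ (fs_lt hr)

lemma fs_add {r : ℕ} (hr : 0 < r) (j : ℕ) : fs r (j + r) = 2 ^ fs r j := by
  unfold fs
  rw [Nat.add_div_right _ hr, Nat.add_mod_right]
  rfl

lemma lt_fs {r : ℕ} (hr : 0 < r) (j : ℕ) : j < fs r j := by
  induction j with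
  | zero => exact lt_of_lt_of_le (by omega) (le_tw _ _)
  | succ j ih => have := fs_lt hr j; omega

/-- Powers are eventually overtaken in one step. -/
lemma fs_pow {r : ℕ} (hr : 0 < r) (c : ℕ) : ∀ᶠ j in atTop, fs r j ^ c ≤ fs r (j + 1) := by
  have h2 : ∀ i a, 1 ≤ a → tw (i + 2) a ^ 2 ≤ tw (i + 2) (a + 1) := by
    intro i
    induction i with
    | zero =>
      intro a _
      show (2 ^ (2 ^ a)) ^ 2 ≤ 2 ^ (2 ^ (a + 1))
      rw [← pow_mul, ← pow_succ]
    | succ i ih =>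
      intro a ha
      show (2 ^ tw (i + 2) a) ^ 2 ≤ 2 ^ tw (i + 2) (a + 1)
      rw [← pow_mul]
      refine Nat.pow_le_pow_right (by omega) (le_trans ?_ (ih a ha))
      have : a < tw (i + 2) a := by
        have h1 := tw_le_tw (show 1 ≤ i + 2 by omega) a
        have h3 : a < 2 ^ a := Nat.lt_two_pow_self
        have h4 : tw 1 a = 2 ^ a := rfl
        omega
      rw [pow_two]
      exact Nat.mul_le_mul_left _ (by omega)
  have h3 : ∀ i a, 1 ≤ a → c ≤ i → tw (i + 3) a ^ c ≤ tw (i + 3) (a + 1) := by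
    intro i a ha hi
    show (2 ^ tw (i + 2) a) ^ c ≤ 2 ^ tw (i + 2) (a + 1)
    rw [← pow_mul]
    refine Nat.pow_le_pow_right (by omega) (le_trans ?_ (h2 i a ha))
    have := add_le_tw (i + 2) a
    rw [pow_two]
    exact Nat.mul_le_mul_left _ (by omega)
  filter_upwards [eventually_ge_atTop (r * (c + 3))] with j hj
  have hi : c + 3 ≤ j / r := (Nat.le_div_iff_mul_le hr).mpr (by rw [Nat.mul_comm]; exact hj)
  obtain ⟨i, hi'⟩ : ∃ i, j / r = i + 3 := ⟨j / r - 3, by omega⟩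
  refine le_trans ?_ (fs_next hr j)
  unfold fs
  rw [hi']
  exact h3 i _ (by omega) (by omega)

/-- The index of `n`: the largest `j` with `a_j ≤ n` (`0` if there is none). -/
def J (r n : ℕ) : ℕ := Nat.findGreatest (fun j => fs r j ≤ n) n

lemma J_le {r : ℕ} {n : ℕ} (h : fs r 0 ≤ n) : fs r (J r n) ≤ n :=
  Nat.findGreatest_spec (P := fun j => fs r j ≤ n) (m := 0) (Nat.zero_le _) h

lemma lt_J {r : ℕ} (hr : 0 < r) (n : ℕ) : n < fs r (J r n + 1) := by
  by_contra h
  push Not at h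
  have h1 := lt_fs hr (J r n + 1)
  have h2 := Nat.le_findGreatest (P := fun j => fs r j ≤ n) (m := J r n + 1) (n := n)
    (by omega) h
  have h3 : J r n + 1 ≤ J r n := h2
  omega

lemma J_eq {r : ℕ} (hr : 0 < r) {n j : ℕ} (h1 : fs r j ≤ n ∨ j = 0) (h2 : n < fs r (j + 1)) :
    J r n = j := by
  have hs := fs_strictMono hr
  rcases Nat.lt_trichotomy (J r n) j with h | h | h
  · rcases h1 with h1 | h1
    · have h3 := lt_J hr n
      have h4 := hs.monotone (show J r n + 1 ≤ j by omega)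
      omega
    · omega
  · exact h
  · have h3 : fs r 0 ≤ n := by
      by_contra h4
      have h5 : J r n = 0 := by
        unfold J
        rw [Nat.findGreatest_eq_zero_iff]
        intro k _ _ h6
        have := hs.monotone (Nat.zero_le k)
        omega
      omega
    have h4 := J_le h3
    have h5 := hs.monotone (show j + 1 ≤ J r n by omega)
    omega

lemma J_mono {r : ℕ} (hr : 0 < r) : Monotone (J r) := by
  intro n n' h
  by_contra h1
  push Not at h1
  have hs := fs_strictMono hr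
  have h2 := lt_J hr n'
  have h3 := hs.monotone (show J r n' + 1 ≤ J r n by omega)
  rcases Nat.lt_or_ge n (fs r 0) with h4 | h4
  · have h5 : J r n = 0 := J_eq hr (Or.inr rfl) (h4.trans (fs_lt hr 0))
    omega
  · have := J_le h4
    omega

lemma J_fs {r : ℕ} (hr : 0 < r) (j : ℕ) : J r (fs r j) = j :=
  J_eq hr (Or.inl le_rfl) (fs_lt hr j)

/-- The step function that moves `k` steps up the sequence. -/
def gs (r k n : ℕ) : ℕ := fs r (J r n + k)

lemma gs_mono {r : ℕ} (hr : 0 < r) (k : ℕ) : Monotone (gs r k) := fun _ _ h =>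
  (fs_strictMono hr).monotone (Nat.add_le_add_right (J_mono hr h) k)

lemma gs_iter {r : ℕ} (hr : 0 < r) (k i n : ℕ) : (gs r k)^[i + 1] n = fs r (J r n + k * (i + 1)) := by
  induction i with
  | zero => simp [gs]
  | succ i ih =>
    rw [iterate_succ_apply', ih]
    unfold gs
    rw [J_fs hr]
    congr 1; ring

lemma gs_evExp {r : ℕ} (hr : 0 < r) {k : ℕ} (hk : 2 ≤ k) : EvExp (gs r k) := by
  refine ⟨r, 0, fun n _ => ?_⟩
  obtain ⟨i, rfl⟩ : ∃ i, r = i + 1 := ⟨r - 1, by omega⟩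
  have hs := fs_strictMono hr
  rw [gs_iter hr]
  have h1 : J (i + 1) n + 1 + (i + 1) ≤ J (i + 1) n + k * (i + 1) := by nlinarith
  refine le_trans ?_ (hs.monotone h1)
  rw [fs_add hr]
  exact Nat.pow_le_pow_right (by omega) (lt_J hr n).le

lemma gs_iter_le {r : ℕ} (hr : 0 < r) {k i : ℕ} (h : k * i ≤ r) {n : ℕ} (hn : fs r 0 ≤ n) :
    (gs r k)^[i] n ≤ 2 ^ n := by
  cases i with
  | zero => exact (Nat.lt_two_pow_self).le
  | succ i =>
    have hs := fs_strictMono hr
    rw [gs_iter hr]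
    calc fs r (J r n + k * (i + 1)) ≤ fs r (J r n + r) := hs.monotone (by omega)
      _ = 2 ^ fs r (J r n) := fs_add hr _
      _ ≤ 2 ^ n := Nat.pow_le_pow_right (by omega) (J_le hn)

end Helper31Con

end

section

/-!
# The graph of the step functions is provable
-/

namespace Helper31Con

open Function Filter Fm

variable {r : ℕ}

lemma fs_good (hr : 0 < r) : Good (fs r) 1 :=
  ⟨(fs_strictMono hr).monotone, le_rfl, fun n _ => lt_fs hr n⟩

lemma fs_iff (hr : 0 < r) (j y : ℕ) :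
    y = fs r j ↔ ∃ i m, m + 1 ≤ r ∧ j = r * i + m ∧ y = tw i (r + 1 + m) := by
  constructor
  · rintro rfl
    exact ⟨j / r, j % r, Nat.mod_lt j hr, (Nat.div_add_mod j r).symm, rfl⟩
  · rintro ⟨i, m, h1, rfl, rfl⟩
    unfold fs
    have e1 : (r * i + m) / r = i := by
      rw [Nat.add_comm, Nat.add_mul_div_left _ _ hr, Nat.div_eq_of_lt (by omega)]; omega
    have e2 : (r * i + m) % r = m := by
      rw [Nat.mul_add_mod, Nat.mod_eq_of_lt (by omega)]
    rw [e1, e2]

lemma fs_dfn (hr : 0 < r) : Dfn (fun e => e 1 = fs r (e 0)) := by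
  have h17 : D4 (Rel .bot (fun n => n + 1) 1 17) :=
    d4_all (γ := eq (x 1) (.succ (x 0))) (fun e => Iff.rfl)
      ⟨fun a b h => Nat.add_le_add_right h 1, le_rfl, fun n _ => Nat.lt_succ_self n⟩ 17
  have key := ((((Dfn.le (.succ (x 3)) (Tm.num r)).and ((Dfn.eq (x 0) (.add (.mul (Tm.num r) (x 2))
    (x 3))).and (h17.app (x 2) (.add (Tm.num (r + 1)) (x 3)) (x 1) .zero))).ex 3).ex 2)
  refine key.congr fun e => ?_
  rw [fs_iff hr]
  simp (disch := decide) only [Tm.val, update_self, update_of_ne, Tm.val_num, Rel]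

lemma fs_fact (hr : 0 < r) (I : Iface (Rel .bot (fs r) 1)) : ∃ f, PB f ∧ ∀ᶠ B in rich,
    ∀ N j, fs r j ≤ N → Pr B (f N) (f N) (I.A 18 (.num j) (.num (fs r j)) .zero .zero) := by
  obtain ⟨c, h0⟩ := horn4 (α₁ := I.A 17 (x 2) (x 3) (x 1) .zero)
    (α₂ := eq (x 0) (.add (.mul (.num r) (x 2)) (x 4))) (α₃ := eq (x 3) (.add (.num (r + 1)) (x 4)))
    (α₄ := le (.succ (x 4)) (.num r)) (β := I.A 18 (x 0) (x 1) .zero .zero)
    (fun e h1 h2 h3 h4 => by
      rw [I.satA (by simp [Al])] at h1 ⊢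
      have h1' : e 1 = tw (e 2) (e 3) := h1
      have h2' : e 0 = r * e 2 + e 4 := by simpa [Fm.Sat, Tm.val] using h2
      have h3' : e 3 = r + 1 + e 4 := by simpa [Fm.Sat, Tm.val] using h3
      have h4' : e 4 + 1 ≤ r := by simpa [Fm.Sat, Tm.val] using h4
      exact (fs_iff hr _ _).mpr ⟨e 2, e 4, h4', h2', h1'.trans (by rw [h3'])⟩)
  obtain ⟨f1, hf1, h1⟩ := tw_fact I
  obtain ⟨f2, hf2, h2⟩ := eq_fact (x 0) (.add (.mul (.num r) (x 2)) (x 4))
  obtain ⟨f3, hf3, h3⟩ := eq_fact (x 3) (.add (.num (r + 1)) (x 4))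
  obtain ⟨f4, hf4, h4⟩ := le_fact (.succ (x 4)) (.num r)
  refine ⟨fun N => c * (N + 1) + f1 N + f2 N + f3 N + f4 N + c, ?_, ?_⟩
  · exact ((((((PB.const _).mul (PB.id.add (PB.const 1))).add hf1).add hf2).add hf3).add hf4).add
      (PB.const _)
  filter_upwards [h0, h1, h2, h3, h4] with B h0 h1 h2 h3 h4 N j hj
  have hjN := lt_fs hr j
  have hdiv : j / r ≤ j := Nat.div_le_self j r
  have hmod : j % r < r := Nat.mod_lt j hr
  have hb : r + 1 + j % r ≤ fs r j := le_tw _ _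
  set M := c * (N + 1) + f1 N + f2 N + f3 N + f4 N + c with hM
  have he : ∀ k, as [j, fs r j, j / r, r + 1 + j % r, j % r] k ≤ N := as_le (by
    simp only [List.forall_mem_cons, List.not_mem_nil, IsEmpty.forall_iff, implies_true,
      and_true]
    omega)
  have q1 := h1 N (j / r) (r + 1 + j % r) hj
  have q2 := h2 _ N he (by
    show j = (Tm.num r).val _ * (j / r) + j % r
    rw [Tm.val_num]; exact (Nat.div_add_mod j r).symm)
  have q3 := h3 _ N he (by
    show r + 1 + j % r = (Tm.num (r + 1)).val _ + j % r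
    rw [Tm.val_num])
  have q4 := h4 _ N he (by
    show j % r + 1 ≤ (Tm.num r).val _
    rw [Tm.val_num]; exact hmod)
  have := h0 _ N M _ _ _ _ he (by omega)
    (by rw [I.clA (by simp [Al])]; exact q1.mono le_rfl (by omega))
    (q2.mono le_rfl (by omega)) (q3.mono le_rfl (by omega)) (q4.mono le_rfl (by omega))
  rw [I.clA (by simp [Al])] at this
  exact this.mono (by omega) le_rfl

lemma gs_iff (hr : 0 < r) (k n v : ℕ) : v = gs r k n ↔ ∃ j u w, u = fs r j ∧ w = fs r (j + 1) ∧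
    v = fs r (j + k) ∧ (u ≤ n ∨ j = 0) ∧ n + 1 ≤ w := by
  constructor
  · rintro rfl
    refine ⟨J r n, _, _, rfl, rfl, rfl, ?_, lt_J hr n⟩
    by_cases h : fs r 0 ≤ n
    · exact Or.inl (J_le h)
    · right
      exact J_eq hr (Or.inr rfl) (by have := fs_lt hr 0; omega)
  · rintro ⟨j, _, _, rfl, rfl, rfl, h1, h2⟩
    unfold gs
    rw [J_eq hr h1 h2]

lemma gs_dfn (hr : 0 < r) (k : ℕ) : Dfn (fun e => e 1 = gs r k (e 0)) := by
  obtain ⟨γ, hγ⟩ := fs_dfn hr
  have h18 : D4 (Rel .bot (fs r) 1 18) := d4_all (γ := γ) hγ (fs_good hr) 18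
  have key := ((((h18.app (x 2) (x 3) .zero .zero).and
    ((h18.app (.succ (x 2)) (x 4) .zero .zero).and
    ((h18.app (.add (x 2) (Tm.num k)) (x 1) .zero .zero).and
    (((Dfn.le (x 3) (x 0)).or (Dfn.eq (x 2) (Tm.num 0))).and
    (Dfn.le (.succ (x 0)) (x 4)))))).ex 4).ex 3).ex 2
  refine key.congr fun e => ?_
  rw [gs_iff hr]
  simp (disch := decide) only [Tm.val, update_self, update_of_ne, Tm.val_num, Rel]

/-- The graph of the step functions is provable. -/
theorem gs_graph (hr : 0 < r) {k : ℕ} (hk : 1 ≤ k) : ∃ γ, Graph (gs r k) γ := by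
  obtain ⟨γ₀, hγ₀⟩ := fs_dfn hr
  obtain ⟨I⟩ := exists_iface .bot γ₀ (fs r) 1 hγ₀ (fs_good hr)
  obtain ⟨γ, hγ1, hγ2⟩ := exists_two (P := fun n v => v = gs r k n) (gs_dfn hr k)
  refine ⟨γ, ⟨hγ1, hγ2, ?_⟩⟩
  obtain ⟨c, h0⟩ := horn6 (α₁ := I.A 18 (x 2) (x 3) .zero .zero)
    (α₂ := I.A 18 (.succ (x 2)) (x 4) .zero .zero) (α₃ := I.A 18 (x 5) (x 1) .zero .zero)
    (α₄ := eq (x 5) (.add (x 2) (.num k))) (α₅ := le (x 3) (x 0)) (α₆ := le (.succ (x 0)) (x 4))
    (β := γ)
    (fun e h1 h2 h3 h4 h5 h6 => by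
      rw [I.satA (by simp [Al])] at h1 h2 h3
      rw [hγ2]
      have h4' : e 5 = e 2 + k := by simpa [Fm.Sat, Tm.val] using h4
      have h3' : e 1 = fs r (e 5) := h3
      rw [h4'] at h3'
      exact (gs_iff hr _ _ _).mpr ⟨e 2, e 3, e 4, h1, h2, h3', Or.inl h5, h6⟩)
  obtain ⟨c', h0'⟩ := horn3 (α₁ := I.A 18 (.num 1) (x 4) .zero .zero)
    (α₂ := I.A 18 (.num k) (x 1) .zero .zero) (α₃ := le (.succ (x 0)) (x 4))
    (β := γ)
    (fun e h1 h2 h3 => by
      rw [I.satA (by simp [Al])] at h1 h2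
      rw [hγ2]
      have h1' : e 4 = fs r ((Tm.num 1).val e) := h1
      have h2' : e 1 = fs r ((Tm.num k).val e) := h2
      rw [Tm.val_num] at h1' h2'
      exact (gs_iff hr _ _ _).mpr ⟨0, _, e 4, rfl, h1', by rw [Nat.zero_add]; exact h2',
        Or.inr rfl, h3⟩)
  obtain ⟨f1, hf1, h1⟩ := fs_fact hr I
  obtain ⟨f2, hf2, h2⟩ := eq_fact (x 5) (.add (x 2) (.num k))
  obtain ⟨f3, hf3, h3⟩ := le_fact (x 3) (x 0)
  obtain ⟨f4, hf4, h4⟩ := le_fact (.succ (x 0)) (x 4)
  set F : ℕ → ℕ := fun N => (c + c') * (N + k + 1) + f1 N + f1 N + f1 N + f2 (N + k) + f3 (N + k) +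
    f4 (N + k) + (c + c') with hF
  have hFP : PB F := by
    have hk' : PB (fun N => N + k) := PB.id.add (PB.const k)
    exact (((((((((PB.const _).mul (hk'.add (PB.const 1))).add hf1).add hf1).add hf1).add
      (hf2.comp hk')).add (hf3.comp hk')).add (hf4.comp hk')).add (PB.const _))
  have key : ∀ᶠ B in rich, ∀ n, Pr B (F (gs r k n)) (F (gs r k n)) (γ.cl (as [n, gs r k n])) := by
    filter_upwards [h0, h0', h1, h2, h3, h4] with B h0 h0' h1 h2 h3 h4 n
    have hs := fs_strictMono hr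
    have hlt := lt_J hr n
    have hle : fs r (J r n + 1) ≤ fs r (J r n + k) := hs.monotone (by omega)
    have hle' : fs r (J r n) ≤ fs r (J r n + k) := hs.monotone (by omega)
    have hgs : gs r k n = fs r (J r n + k) := rfl
    obtain ⟨N, hN⟩ : ∃ N, N = gs r k n := ⟨_, rfl⟩
    rw [← hN]
    have hFN : F N = (c + c') * (N + k + 1) + f1 N + f1 N + f1 N + f2 (N + k) + f3 (N + k) +
      f4 (N + k) + (c + c') := rfl
    obtain ⟨M, hM⟩ : ∃ M, M = F N := ⟨_, rfl⟩
    rw [← hM]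
    have hc1 : c * (N + k + 1) ≤ (c + c') * (N + k + 1) := Nat.mul_le_mul_right _ (by omega)
    have hc2 : c' * (N + k + 1) ≤ (c + c') * (N + k + 1) := Nat.mul_le_mul_right _ (by omega)
    have hJ1 := lt_fs hr (J r n)
    have hJ2 := lt_fs hr (J r n + k)
    by_cases hn : fs r (J r n) ≤ n
    · have he : ∀ i, as [n, N, J r n, fs r (J r n), fs r (J r n + 1), J r n + k] i ≤ N + k :=
        as_le (by
          simp only [List.forall_mem_cons, List.not_mem_nil, IsEmpty.forall_iff, implies_true,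
            and_true]
          omega)
      have q1 := h1 N (J r n) (by omega)
      have q2 := h1 N (J r n + 1) (by omega)
      have q3 := h1 N (J r n + k) (by omega)
      rw [← hgs, ← hN] at q3
      have q4 := h2 _ (N + k) he (by
        show J r n + k = J r n + (Tm.num k).val _
        rw [Tm.val_num])
      have q5 := h3 _ (N + k) he hn
      have q6 := h4 _ (N + k) he hlt
      have := h0 _ (N + k) M _ _ _ _ _ _ he (by omega)
        (by rw [I.clA (by simp [Al])]; exact q1.mono le_rfl (by omega))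
        (by rw [I.clA (by simp [Al])]; exact q2.mono le_rfl (by omega))
        (by rw [I.clA (by simp [Al])]; exact q3.mono le_rfl (by omega))
        (q4.mono le_rfl (by omega)) (q5.mono le_rfl (by omega)) (q6.mono le_rfl (by omega))
      have e3 : γ.cl (as [n, N, J r n, fs r (J r n), fs r (J r n + 1), J r n + k]) =
          γ.cl (as [n, N]) := by
        refine Fm.cl_congr fun i hi => ?_
        have := hγ1 i hi
        interval_cases i <;> rfl
      rw [e3] at this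
      exact this.mono (by omega) le_rfl
    · have hJ0 : J r n = 0 := by
        by_contra h
        by_cases h' : fs r 0 ≤ n
        · exact hn (J_le h')
        · exact h (J_eq hr (Or.inr rfl) (by have := fs_lt hr 0; omega))
      rw [hJ0] at hlt hle hgs
      rw [Nat.zero_add] at hlt hle hgs
      have he : ∀ i, as [n, N, 0, 0, fs r 1] i ≤ N + k :=
        as_le (by
          simp only [List.forall_mem_cons, List.not_mem_nil, IsEmpty.forall_iff, implies_true,
            and_true]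
          rw [Nat.zero_add] at hle
          omega)
      have q1 := h1 N 1 (by rw [Nat.zero_add] at hle; omega)
      have q2 := h1 N k (by omega)
      rw [← hgs, ← hN] at q2
      have q3 := h4 _ (N + k) he hlt
      have e1 : (Tm.num 1).cl (as [n, N, 0, 0, fs r 1]) = Tm.num 1 := Tm.sb_num _ _
      have e2 : (Tm.num k).cl (as [n, N, 0, 0, fs r 1]) = Tm.num k := Tm.sb_num _ _
      have := h0' _ (N + k) M _ _ _ he (by omega)
        (by rw [I.clA (by simp [Al]), e1]; exact q1.mono le_rfl (by omega))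
        (by rw [I.clA (by simp [Al]), e2]; exact q2.mono le_rfl (by omega))
        (q3.mono le_rfl (by omega))
      have e3 : γ.cl (as [n, N, 0, 0, fs r 1]) = γ.cl (as [n, N]) := by
        refine Fm.cl_congr fun i hi => ?_
        have := hγ1 i hi
        interval_cases i <;> rfl
      rw [e3] at this
      exact this.mono (by omega) le_rfl
  obtain ⟨G, hG, hG'⟩ := rich_iff.mp key
  obtain ⟨c₁, hc₁⟩ := pb_le_pow hFP
  refine ⟨G, c₁, hG, fun n => ?_⟩
  have h5 := (hG' G (fun β hβ => hβ) n).prov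
  refine h5.mono ?_
  have h6 : 2 ≤ gs r k n := by
    have h7 : r + 1 ≤ fs r (J r n + k) := (Nat.le_add_right _ _).trans (le_tw _ _)
    show 2 ≤ fs r (J r n + k)
    omega
  exact (hc₁ _ h6).trans (Nat.pow_le_pow_left (by omega) _)

end Helper31Con

end

section

/-!
# Subexponential bounds
-/

namespace Helper31Con

open Function Filter Fm

variable {r : ℕ}

lemma J_tendsto (hr : 0 < r) (j : ℕ) : ∀ᶠ n in atTop, j ≤ J r n := by
  filter_upwards [eventually_ge_atTop (fs r j)] with n hn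
  rw [← J_fs hr j]
  exact J_mono hr hn

lemma gs_pow (hr : 0 < r) (k c : ℕ) : ∀ᶠ n in atTop, gs r k n ^ c ≤ gs r (k + 1) n := by
  obtain ⟨j₀, h⟩ := eventually_atTop.mp (fs_pow hr c)
  filter_upwards [J_tendsto hr j₀] with n hn
  exact h (J r n + k) (by omega)

lemma gs_le_rpow {k : ℕ} (hk : k + 1 ≤ r) {ε : ℝ} (hε : 0 < ε) :
    ∀ᶠ n : ℕ in atTop, (gs r k n : ℝ) ≤ 2 ^ ((n : ℝ) ^ ε) := by
  have hr : 0 < r := by omega
  obtain ⟨K, hK⟩ := exists_nat_gt (1 / ε)
  have hK0 : (0 : ℝ) < K := lt_trans (by positivity) hK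
  have hK1 : K ≠ 0 := by rintro rfl; simp at hK0
  have hKε : (K : ℝ)⁻¹ ≤ ε := by
    rw [inv_le_comm₀ hK0 hε, inv_eq_one_div]
    exact hK.le
  obtain ⟨j₀, h⟩ := eventually_atTop.mp (fs_pow hr K)
  filter_upwards [J_tendsto hr (j₀ + 1), eventually_ge_atTop (fs r 0)] with n hn hn0
  have hs := fs_strictMono hr
  obtain ⟨j, hj⟩ : ∃ j, J r n = j + 1 := ⟨J r n - 1, by omega⟩
  have h1 : fs r j ^ K ≤ n := by
    have h2 := h j (by omega)
    have h3 := J_le hn0
    rw [hj] at h3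
    omega
  have h4 : gs r k n ≤ 2 ^ fs r j := by
    rw [← fs_add hr]
    exact hs.monotone (by omega)
  have hn1 : (1 : ℝ) ≤ n := by
    have := lt_fs hr 0
    exact_mod_cast (by omega : 1 ≤ n)
  have h5 : (fs r j : ℝ) ≤ (n : ℝ) ^ ε := by
    calc (fs r j : ℝ) = ((fs r j : ℝ) ^ K) ^ ((K : ℝ)⁻¹) :=
          (Real.pow_rpow_inv_natCast (by positivity) hK1).symm
      _ ≤ (n : ℝ) ^ ((K : ℝ)⁻¹) := by
          refine Real.rpow_le_rpow (by positivity) ?_ (by positivity)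
          exact_mod_cast h1
      _ ≤ (n : ℝ) ^ ε := Real.rpow_le_rpow_of_exponent_le hn1 hKε
  calc (gs r k n : ℝ) ≤ ((2 ^ fs r j : ℕ) : ℝ) := by exact_mod_cast h4
    _ = 2 ^ (fs r j : ℝ) := by rw [Real.rpow_natCast]; push_cast; rfl
    _ ≤ 2 ^ ((n : ℝ) ^ ε) := Real.rpow_le_rpow_of_exponent_le (by norm_num) h5

/-- Subexponential proofs, infinitely often. -/
theorem subexp {con : Fm} (hcon : IsCon con) (s : ℕ) (B₀ : List Fm) (hB₀ : ∀ β ∈ B₀, TrueS β) :
    ∃ (A : List Fm) (h : ℕ → ℕ), (∀ φ ∈ A, TrueS φ) ∧ (∀ φ ∈ B₀, φ ∈ A) ∧ (∀ φ ∈ Q, φ ∈ A) ∧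
      Monotone h ∧ (∀ᶠ n in atTop, h^[s] n ≤ 2 ^ n) ∧
      (∀ ε : ℝ, 0 < ε → ∀ᶠ n : ℕ in atTop, (h n : ℝ) ≤ 2 ^ ((n : ℝ) ^ ε)) ∧
      ∀ N, ∃ n ≥ N, Prov A (h n) (conN con (conS con A :: A) n) := by
  obtain ⟨r, hrdef⟩ : ∃ r, r = 3 * s + 4 := ⟨_, rfl⟩
  have hr : 0 < r := by omega
  obtain ⟨A, c, h1, h2, h3, h4⟩ := main hcon (gs_mono hr 2) (gs_evExp hr le_rfl)
    (gs_graph hr (by omega)) B₀ hB₀
  refine ⟨A, gs r 3, h1, h2, h3, gs_mono hr 3, ?_, fun ε hε => gs_le_rpow (by omega) hε, ?_⟩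
  · filter_upwards [eventually_ge_atTop (fs r 0)] with n hn
    exact gs_iter_le hr (by omega) hn
  · obtain ⟨N₀, hN₀⟩ := eventually_atTop.mp (gs_pow hr 2 c)
    intro N
    obtain ⟨n, hn, h5⟩ := h4 (max N N₀)
    exact ⟨n, (le_max_left _ _).trans hn, h5.mono (hN₀ n ((le_max_right _ _).trans hn))⟩

end Helper31Con

end

section

/-!
# Shorter bounds, and the final theorem
-/

namespace Helper31Con

open Function Filter Fm

variable {r : ℕ}

/-- Finite consistency up to `N` gives finite consistency up to every smaller bound. -/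
lemma con_down {con : Fm} (hcon : IsCon con) : ∃ f F : ℕ → ℕ, PB f ∧ ∀ᶠ B in rich,
    ∀ (T : List Fm) (N n k : ℕ), (∀ φ ∈ T, Fm.Sentence φ) → n ≤ N →
    Prov B k (con.cl (as [lc T, N])) →
    Prov B (f (N + k + F (lc T))) (con.cl (as [lc T, n])) := by
  obtain ⟨I⟩ := exists_iface con (eq (x 1) (.succ (x 0))) (fun n => n + 1) 1 (fun e => Iff.rfl)
    ⟨fun a b h => Nat.add_le_add_right h 1, le_rfl, fun n _ => Nat.lt_succ_self n⟩
  -- the sentence `con (x_0, x_3)`
  set δ : Fm := all 1 (imp (eq (x 1) (x 3)) con) with hδ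
  have hδsat : ∀ e : ℕ → ℕ, δ.Sat e ↔ con.Sat (as [e 0, e 3]) := by
    intro e
    have key : ∀ a, con.Sat (update e 1 a) ↔ con.Sat (as [e 0, a]) := by
      intro a
      refine Fm.sat_congr fun i hi => ?_
      have := hcon.free i hi
      interval_cases i <;> rfl
    constructor
    · intro h
      exact (key _).mp (h (e 3) rfl)
    · intro h a ha
      have ha' : a = e 3 := ha
      rw [key, ha']; exact h
  have hδcl : ∀ e e' : ℕ → ℕ, e 0 = e' 0 → e 3 = e' 3 → δ.cl e = δ.cl e' := by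
    intro e e' h0 h3
    refine Fm.cl_congr fun i hi => ?_
    obtain ⟨h1, (h2 | h2) | h2⟩ := hi
    · exact absurd h2 h1
    · have h2' : 3 = i := h2
      rw [← h2']; exact h3
    · have := hcon.free i h2
      interval_cases i
      · exact h0
      · exact absurd rfl h1
  obtain ⟨c0, h0⟩ := horn2 (α₁ := con) (α₂ := eq (x 3) (x 1)) (β := δ)
    (fun e h1 h2 => by
      rw [hδsat]
      have h2' : e 3 = e 1 := h2
      refine (Fm.sat_congr fun i hi => ?_).mp h1
      have := hcon.free i hi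
      interval_cases i
      · rfl
      · exact h2'.symm)
  obtain ⟨c1, h1⟩ := horn3 (α₁ := I.A 11 (x 0) .zero .zero .zero) (α₂ := δ)
    (α₃ := le (x 1) (x 3)) (β := con)
    (fun e h1 h2 h3 => by
      rw [I.satA (by simp [Al])] at h1
      obtain ⟨T, hT, hS⟩ : LSR (e 0) := h1
      rw [hδsat] at h2
      have h2' : ¬ Prov T (e 3) .bot := (hcon.sat T (as [e 0, e 3]) hS hT).mp h2
      rw [hcon.sat T _ hS hT]
      have h3' : e 1 ≤ e 3 := h3
      exact fun h => h2' (h.mono h3'))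
  obtain ⟨f1, hf1, h2⟩ := dec_all I
  obtain ⟨f2, hf2, h3⟩ := eq_fact (x 3) (x 1)
  obtain ⟨f3, hf3, h4⟩ := le_fact (x 1) (x 3)
  set G : ℕ → ℕ := fun t => (c0 + c1) * (t + 1) + t + f2 t + f3 t + c0 + c1 with hG
  have hGP : PB G := (((((((PB.const _).mul (PB.id.add (PB.const 1))).add PB.id).add hf2).add
    hf3).add (PB.const _)).add (PB.const _))
  obtain ⟨G', hG'P, hG'm, hG'⟩ := hGP.exists_mono
  refine ⟨fun t => (3 * G' t) * (3 * G' t), fun t => f1 t + t,
    ((PB.const 3).mul hG'P).mul ((PB.const 3).mul hG'P), ?_⟩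
  filter_upwards [h0, h1, h2, h3, h4] with B h0 h1 h2 h3 h4 T N n k hT hn hp
  obtain ⟨z, hz⟩ : ∃ z, z = lc T := ⟨_, rfl⟩
  rw [← hz] at hp ⊢
  set t := N + k + (f1 z + z) with ht
  set M := 3 * G' t with hM
  have hGt : G t ≤ G' t := hG' t
  have hGN : ∀ u, u ≤ t → G u ≤ G' t := fun u hu => (hG' u).trans (hG'm hu)
  have hGdef : ∀ u, G u = (c0 + c1) * (u + 1) + u + f2 u + f3 u + c0 + c1 := fun _ => rfl
  have q1 := (h2 z 11 (by omega) z 0 0 0 le_rfl (by omega) (by omega) (by omega)).1 ⟨T, hz, hT⟩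
  have q2 := hp.pr
  have he : ∀ i, as [z, N, 0, N] i ≤ t := as_le (by
    simp only [List.forall_mem_cons, List.not_mem_nil, IsEmpty.forall_iff, implies_true, and_true]
    omega)
  have he' : ∀ i, as [z, n, 0, N] i ≤ t := as_le (by
    simp only [List.forall_mem_cons, List.not_mem_nil, IsEmpty.forall_iff, implies_true, and_true]
    omega)
  have q3 := h3 (as [z, N, 0, N]) t he rfl
  have q4 := h4 (as [z, n, 0, N]) t he' hn
  have e1 : con.cl (as [z, N, 0, N]) = con.cl (as [z, N]) := by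
    refine Fm.cl_congr fun i hi => ?_
    have := hcon.free i hi
    interval_cases i <;> rfl
  have e2 : con.cl (as [z, n, 0, N]) = con.cl (as [z, n]) := by
    refine Fm.cl_congr fun i hi => ?_
    have := hcon.free i hi
    interval_cases i <;> rfl
  have hc0 : c0 * (t + 1) ≤ (c0 + c1) * (t + 1) := Nat.mul_le_mul_right _ (by omega)
  have hc1 : c1 * (t + 1) ≤ (c0 + c1) * (t + 1) := Nat.mul_le_mul_right _ (by omega)
  have hGt' := hGdef t
  have s1 := h0 _ t M k (f2 t) he (by omega)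
    (by rw [e1]; exact q2.mono le_rfl (by omega)) (q3.mono le_rfl (by omega))
  rw [hδcl (as [z, N, 0, N]) (as [z, n, 0, N]) rfl rfl] at s1
  have s2 := h1 _ t M (f1 z) _ (f3 t) he' (by omega)
    (by rw [I.clA (by simp [Al])]; exact q1.mono le_rfl (by omega)) s1
    (q4.mono le_rfl (by omega))
  rw [e2] at s2
  exact (s2.mono (show _ ≤ M by omega) le_rfl).prov

lemma pow_le_gs (hr : 0 < r) (k : ℕ) : ∀ᶠ n in atTop, n ^ k ≤ gs r 2 n := by
  obtain ⟨j₀, h⟩ := eventually_atTop.mp (fs_pow hr k)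
  filter_upwards [J_tendsto hr j₀] with n hn
  exact (Nat.pow_le_pow_left (lt_J hr n).le k).trans (h (J r n + 1) (by omega))

lemma gs_gs (hr : 0 < r) (k l n : ℕ) : gs r k (gs r l n) = gs r (l + k) n := by
  unfold gs
  rw [J_fs hr]
  congr 1; ring

lemma gs_tendsto (hr : 0 < r) (k m : ℕ) : ∀ᶠ n in atTop, m ≤ gs r k n := by
  filter_upwards [J_tendsto hr m] with n hn
  have := lt_fs hr (J r n + k)
  show m ≤ fs r (J r n + k)
  omega

/-- Subexponential proofs on long intervals. -/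
theorem subexp' {con : Fm} (hcon : IsCon con) (B₀ : List Fm) (hB₀ : ∀ β ∈ B₀, TrueS β) (s : ℕ) :
    ∃ (A : List Fm) (h : ℕ → ℕ), (∀ φ ∈ A, TrueS φ) ∧ (∀ φ ∈ B₀, φ ∈ A) ∧ (∀ φ ∈ Q, φ ∈ A) ∧
      (∀ k, ¬ Prov (conS con A :: A) k .bot) ∧ Monotone h ∧ (∀ᶠ n in atTop, h^[s] n ≤ 2 ^ n) ∧
      (∀ ε : ℝ, 0 < ε → ∀ᶠ n : ℕ in atTop, (h n : ℝ) ≤ 2 ^ ((n : ℝ) ^ ε)) ∧
      ∀ k M : ℕ, ∃ N ≥ M, ∀ n ≤ N, N ≤ n ^ k → Prov A (h n) (conN con (conS con A :: A) n) := by
  obtain ⟨r, hrdef⟩ : ∃ r, r = 5 * s + 6 := ⟨_, rfl⟩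
  have hr : 0 < r := by omega
  have hs := fs_strictMono hr
  obtain ⟨f, F, hf, hdown⟩ := con_down hcon
  obtain ⟨B₁, hB₁, hB₁'⟩ := rich_iff.mp hdown
  obtain ⟨A, c, h1, h2, h3, h4⟩ := main hcon (gs_mono hr 2) (gs_evExp hr le_rfl)
    (gs_graph hr (by omega)) (B₀ ++ B₁) (by
      intro β hβ
      rcases List.mem_append.mp hβ with h | h
      · exact hB₀ β h
      · exact hB₁ β h)
  have hdownA := hB₁' A fun β hβ => h2 β (List.mem_append_right _ hβ)
  obtain ⟨T, hT⟩ : ∃ T, T = conS con A :: A := ⟨_, rfl⟩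
  rw [← hT] at h4
  have hTs : ∀ φ ∈ T, Fm.Sentence φ := by
    rw [hT]
    intro φ hφ
    rcases List.mem_cons.mp hφ with rfl | hφ
    · exact hcon.conS_sentence A
    · exact (h1 φ hφ).1
  have hAc : ∀ n, ¬ Prov A n .bot := fun n h =>
    h.sound (fun φ hφ => (h1 φ hφ).2) (fun _ => 0)
  have hTt : ∀ φ ∈ T, ∀ e, φ.Sat e := by
    rw [hT]
    intro φ hφ e
    rcases List.mem_cons.mp hφ with rfl | hφ
    · exact (hcon.conS_sat (fun φ hφ => (h1 φ hφ).1) e).mpr hAc
    · exact (h1 φ hφ).2 e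
  refine ⟨A, gs r 5, h1, fun φ hφ => h2 φ (List.mem_append_left _ hφ), h3, ?_, gs_mono hr 5, ?_,
    fun ε hε => gs_le_rpow (by omega) hε, ?_⟩
  · rw [← hT]
    exact fun k h => h.sound hTt (fun _ => 0)
  · filter_upwards [eventually_ge_atTop (fs r 0)] with n hn
    exact gs_iter_le hr (by omega) hn
  · intro k M
    obtain ⟨C, q, hC⟩ := hf
    obtain ⟨K, hK⟩ : ∃ K, K = F (lc T) := ⟨_, rfl⟩
    obtain ⟨n₁, hn₁⟩ := eventually_atTop.mp ((gs_pow hr 4 (C + (c + 3) * q)).and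
      ((pow_le_gs hr k).and ((gs_tendsto hr 4 K).and (gs_tendsto hr 4 2))))
    obtain ⟨N, hN, h5⟩ := h4 (max M (n₁ ^ k + 1))
    refine ⟨N, (le_max_left _ _).trans hN, fun n hn hnk => ?_⟩
    rw [← hT]
    have hN' : n₁ ^ k + 1 ≤ N := (le_max_right _ _).trans hN
    have hn' : n₁ ≤ n := by
      by_contra h6
      have := Nat.pow_le_pow_left (show n ≤ n₁ by omega) k
      omega
    obtain ⟨h6, h7, h8, h9⟩ := hn₁ n hn'
    rw [hcon.conN_eq] at h5 ⊢
    have h10 := hdownA T N n _ hTs hn h5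
    rw [← hK] at h10
    refine h10.mono (le_trans ?_ h6)
    obtain ⟨y, hy⟩ : ∃ y, y = gs r 4 n := ⟨_, rfl⟩
    rw [← hy] at h8 h9 ⊢
    have h11 : gs r 2 N ≤ y := by
      rw [hy, ← gs_gs hr 2 2 n]
      exact gs_mono hr 2 (hnk.trans h7)
    have h12 : N ≤ y := by
      refine (hnk.trans h7).trans ?_
      rw [hy]
      exact hs.monotone (by omega)
    have h13 : (gs r 2 N) ^ c ≤ y ^ c := Nat.pow_le_pow_left h11 c
    have h14 : y ≤ y ^ (c + 1) := by
      calc y = y ^ 1 := (pow_one y).symm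
        _ ≤ y ^ (c + 1) := Nat.pow_le_pow_right (by omega) (by omega)
    have h15 : y ^ c ≤ y ^ (c + 1) := Nat.pow_le_pow_right (by omega) (by omega)
    have h16 : y ^ (c + 3) = y ^ (c + 1) * (y * y) := by ring
    have h17 : 4 ≤ y * y := by nlinarith
    have h18 : N + (gs r 2 N) ^ c + K + 2 ≤ y ^ (c + 3) := by
      rw [h16]
      have : y ^ (c + 1) * 4 ≤ y ^ (c + 1) * (y * y) := Nat.mul_le_mul_left _ h17
      omega
    have h19 : C ≤ y ^ C := (Nat.lt_two_pow_self).le.trans (Nat.pow_le_pow_left h9 _)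
    calc f (N + (gs r 2 N) ^ c + K) ≤ C * (N + (gs r 2 N) ^ c + K + 2) ^ q := hC _
      _ ≤ y ^ C * (y ^ (c + 3)) ^ q := Nat.mul_le_mul h19 (Nat.pow_le_pow_left h18 _)
      _ = y ^ (C + (c + 3) * q) := by rw [← pow_mul, ← pow_add]

end Helper31Con

end
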