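import Mathlib

/-!
# Definitions: arithmetic, proofs and their lengths, finite consistency

Language `0, S, +, ·, ≤, =`; connectives `⊥, →, ∀`.  The length of an expression is its number of
symbols, the variable `x_k` being written as the letter `x` followed by `k` primes.  This file holds
every definition that the final statement uses.
-/

namespace Helper31Con

open Function

/-! ### Terms and formulas -/

/-- Terms of the language of arithmetic. -/
inductive Tm where
  | var : ℕ → Tm
  | zero : Tm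
  | succ : Tm → Tm
  | add : Tm → Tm → Tm
  | mul : Tm → Tm → Tm

/-- Formulas of the language of arithmetic. -/
inductive Fm where
  | bot : Fm
  | eq : Tm → Tm → Fm
  | le : Tm → Tm → Fm
  | imp : Fm → Fm → Fm
  | all : ℕ → Fm → Fm

namespace Tm

/-- Number of symbols of a term (`x_k` counts `k + 1`). -/
def len : Tm → ℕ
  | var k => k + 1
  | zero => 1
  | succ t => t.len + 1
  | add t s => t.len + s.len + 1
  | mul t s => t.len + s.len + 1

/-- The variable `x_k` occurs in the term. -/
def Has (k : ℕ) : Tm → Prop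
  | var j => j = k
  | zero => False
  | succ t => t.Has k
  | add t s => t.Has k ∨ s.Has k
  | mul t s => t.Has k ∨ s.Has k

/-- Value of a term in `ℕ`. -/
def val (e : ℕ → ℕ) : Tm → ℕ
  | var k => e k
  | zero => 0
  | succ t => t.val e + 1
  | add t s => t.val e + s.val e
  | mul t s => t.val e * s.val e

/-- `t.sub k r`: substitution of the term `r` for the variable `x_k` in `t`. -/
def sub : Tm → ℕ → Tm → Tm
  | var j, k, r => if j = k then r else var j
  | zero, _, _ => zero
  | succ t, k, r => succ (t.sub k r)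
  | add t s, k, r => add (t.sub k r) (s.sub k r)
  | mul t s, k, r => mul (t.sub k r) (s.sub k r)

/-- The numeral `S ... S 0`. -/
def num : ℕ → Tm
  | 0 => zero
  | n + 1 => succ (num n)

end Tm

namespace Fm

/-- Number of symbols of a formula. -/
def len : Fm → ℕ
  | bot => 1
  | eq t s => t.len + s.len + 1
  | le t s => t.len + s.len + 1
  | imp φ ψ => φ.len + ψ.len + 1
  | all k φ => φ.len + (k + 1) + 1

/-- The variable `x_k` occurs free in the formula. -/
def Free (k : ℕ) : Fm → Prop
  | bot => False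
  | eq t s => t.Has k ∨ s.Has k
  | le t s => t.Has k ∨ s.Has k
  | imp φ ψ => φ.Free k ∨ ψ.Free k
  | all j φ => j ≠ k ∧ φ.Free k

/-- Satisfaction in the standard model `ℕ`. -/
def Sat (e : ℕ → ℕ) : Fm → Prop
  | bot => False
  | eq t s => t.val e = s.val e
  | le t s => t.val e ≤ s.val e
  | imp φ ψ => φ.Sat e → ψ.Sat e
  | all k φ => ∀ a : ℕ, φ.Sat (update e k a)

/-- `φ.sub k r`: substitution of the term `r` for the free occurrences of `x_k` in `φ`. -/
def sub : Fm → ℕ → Tm → Fm
  | bot, _, _ => bot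
  | eq t s, k, r => eq (t.sub k r) (s.sub k r)
  | le t s, k, r => le (t.sub k r) (s.sub k r)
  | imp φ ψ, k, r => imp (φ.sub k r) (ψ.sub k r)
  | all j φ, k, r => if j = k then all j φ else all j (φ.sub k r)

/-- `φ.FreeFor k r`: the term `r` is free for the variable `x_k` in `φ`. -/
def FreeFor : Fm → ℕ → Tm → Prop
  | bot, _, _ => True
  | eq _ _, _, _ => True
  | le _ _, _, _ => True
  | imp φ ψ, k, r => φ.FreeFor k r ∧ ψ.FreeFor k r
  | all j φ, k, r => j = k ∨ ¬ φ.Free k ∨ (¬ r.Has j ∧ φ.FreeFor k r)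

/-- A sentence is a formula without free variables. -/
def Sentence (φ : Fm) : Prop := ∀ k, ¬ φ.Free k

/-- Negation. -/
def neg (φ : Fm) : Fm := imp φ bot

/-- Existential quantifier. -/
def ex (k : ℕ) (φ : Fm) : Fm := neg (all k (neg φ))

end Fm

/-- A sentence true in the standard model. -/
def TrueS (φ : Fm) : Prop := Fm.Sentence φ ∧ ∀ e, φ.Sat e

/-! ### The calculus -/

open Fm

/-- Logical axioms: propositional axioms, quantifier axioms, equality axioms. -/
inductive Ax : Fm → Prop
  | k (φ ψ : Fm) : Ax (imp φ (imp ψ φ))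
  | s (φ ψ χ : Fm) : Ax (imp (imp φ (imp ψ χ)) (imp (imp φ ψ) (imp φ χ)))
  | dne (φ : Fm) : Ax (imp (imp (imp φ bot) bot) φ)
  | inst (j : ℕ) (φ : Fm) (t : Tm) : φ.FreeFor j t → Ax (imp (all j φ) (φ.sub j t))
  | dist (j : ℕ) (φ ψ : Fm) : ¬ φ.Free j → Ax (imp (all j (imp φ ψ)) (imp φ (all j ψ)))
  | refl (t : Tm) : Ax (eq t t)
  | congS (t s : Tm) : Ax (imp (eq t s) (eq (Tm.succ t) (Tm.succ s)))
  | congAdd (t s t' s' : Tm) :
      Ax (imp (eq t s) (imp (eq t' s') (eq (Tm.add t t') (Tm.add s s'))))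
  | congMul (t s t' s' : Tm) :
      Ax (imp (eq t s) (imp (eq t' s') (eq (Tm.mul t t') (Tm.mul s s'))))
  | congEq (t s t' s' : Tm) : Ax (imp (eq t s) (imp (eq t' s') (imp (eq t t') (eq s s'))))
  | congLe (t s t' s' : Tm) : Ax (imp (eq t s) (imp (eq t' s') (imp (le t t') (le s s'))))

/-- `IsProof T L`: read from its end to its head, the list `L` is a proof from the axioms `T`:
every line is an element of `T`, a logical axiom, or follows from earlier lines by modus ponens or
generalization. -/
def IsProof (T : List Fm) : List Fm → Prop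
  | [] => True
  | φ :: L => IsProof T L ∧
      (φ ∈ T ∨ Ax φ ∨ (∃ ψ, ψ ∈ L ∧ imp ψ φ ∈ L) ∨ ∃ j ψ, ψ ∈ L ∧ φ = all j ψ)

/-- Number of symbols of a list of formulas. -/
def plen (L : List Fm) : ℕ := (L.map Fm.len).sum

/-- `Prov T k φ`: `φ` has a proof from `T` with at most `k` symbols. -/
def Prov (T : List Fm) (k : ℕ) (φ : Fm) : Prop := ∃ L, IsProof T (φ :: L) ∧ plen (φ :: L) ≤ k

/-! ### Gödel numbers -/

/-- The pairing function used for codes. -/
def nd (a b : ℕ) : ℕ := (a + b) * (a + b) + a + 1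

lemma nd_def (a b : ℕ) : nd a b = (a + b) * (a + b) + a + 1 := rfl

/-- Code of a term. -/
def tc : Tm → ℕ
  | .var k => nd 0 k
  | .zero => nd 1 0
  | .succ t => nd 2 (tc t)
  | .add t s => nd 3 (nd (tc t) (tc s))
  | .mul t s => nd 4 (nd (tc t) (tc s))

/-- Code of a formula. -/
def fc : Fm → ℕ
  | .bot => nd 5 0
  | .eq t s => nd 6 (nd (tc t) (tc s))
  | .le t s => nd 7 (nd (tc t) (tc s))
  | .imp φ ψ => nd 8 (nd (fc φ) (fc ψ))
  | .all k φ => nd 9 (nd k (fc φ))

/-- Code of a finite list of formulas. -/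
def lc : List Fm → ℕ
  | [] => 0
  | φ :: L => nd (fc φ) (lc L)

/-! ### Finite consistency -/

/-- `con` (free variables among `x_0`, `x_1`) defines finite consistency in `ℕ`: for every finite
list `T` of sentences and every `n`, the formula holds at `(code of T, n)` exactly if `⊥` has no
proof from `T` with at most `n` symbols. -/
structure IsCon (con : Fm) : Prop where
  free : ∀ k, con.Free k → k < 2
  sat : ∀ (T : List Fm) (e : ℕ → ℕ), (∀ φ ∈ T, Fm.Sentence φ) → e 0 = lc T →
    (con.Sat e ↔ ¬ Prov T (e 1) .bot)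

/-- The sentence `Con_T(n)`. -/
def conN (con : Fm) (T : List Fm) (n : ℕ) : Fm := (con.sub 0 (.num (lc T))).sub 1 (.num n)

/-- The sentence `Con_T`. -/
def conS (con : Fm) (T : List Fm) : Fm := all 1 (con.sub 0 (.num (lc T)))

/-- Robinson arithmetic, with the defining axioms of `≤`. -/
def Q : List Fm :=
  [ all 0 (neg (eq (.succ (.var 0)) .zero)),
    all 0 (all 1 (imp (eq (.succ (.var 0)) (.succ (.var 1))) (eq (.var 0) (.var 1)))),
    all 0 (imp (neg (eq (.var 0) .zero)) (ex 1 (eq (.var 0) (.succ (.var 1))))),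
    all 0 (eq (.add (.var 0) .zero) (.var 0)),
    all 0 (all 1 (eq (.add (.var 0) (.succ (.var 1))) (.succ (.add (.var 0) (.var 1))))),
    all 0 (eq (.mul (.var 0) .zero) .zero),
    all 0 (all 1 (eq (.mul (.var 0) (.succ (.var 1))) (.add (.mul (.var 0) (.var 1)) (.var 0)))),
    all 0 (all 1 (imp (le (.var 0) (.var 1)) (ex 2 (eq (.add (.var 2) (.var 0)) (.var 1))))),
    all 0 (all 1 (imp (ex 2 (eq (.add (.var 2) (.var 0)) (.var 1))) (le (.var 0) (.var 1)))) ]

attribute [irreducible] nd

end Helper31Con
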