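import Pool.Agent.Helper31_Con.Rec

section

/-!
# Gödel numbering
-/

namespace Helper31Con

open Function Fm Tm Filter

lemma lt_nd_l (a b : ℕ) : a < nd a b := by unfold nd; omega

lemma lt_nd_r (a b : ℕ) : b < nd a b := by unfold nd; nlinarith

lemma le_nd_l {x a : ℕ} (b : ℕ) (h : x ≤ a) : x ≤ nd a b := h.trans (lt_nd_l a b).le

lemma le_nd_r {x b : ℕ} (a : ℕ) (h : x ≤ b) : x ≤ nd a b := h.trans (lt_nd_r a b).le

lemma nd_inj {a b c d : ℕ} : nd a b = nd c d ↔ a = c ∧ b = d := by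
  constructor
  · intro h
    unfold nd at h
    have h1 : a + b = c + d := by
      rcases Nat.lt_trichotomy (a + b) (c + d) with h1 | h1 | h1
      · exfalso
        have : (a + b + 1) * (a + b + 1) ≤ (c + d) * (c + d) := Nat.mul_le_mul h1 h1
        nlinarith
      · exact h1
      · exfalso
        have : (c + d + 1) * (c + d + 1) ≤ (a + b) * (a + b) := Nat.mul_le_mul h1 h1
        nlinarith
    rw [h1] at h
    omega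
  · rintro ⟨rfl, rfl⟩; rfl

lemma nd_pos (a b : ℕ) : 0 < nd a b := by unfold nd; omega

lemma tc_inj {t s : Tm} (h : tc t = tc s) : t = s := by
  induction t generalizing s with
  | var k => cases s <;> simp_all [tc, nd_inj]
  | zero => cases s <;> simp_all [tc, nd_inj]
  | succ t ih =>
    cases s <;> simp only [tc, nd_inj] at h <;> try omega
    rw [ih h.2]
  | add t s iht ihs =>
    cases s <;> simp only [tc, nd_inj] at h <;> try omega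
    rw [iht h.2.1, ihs h.2.2]
  | mul t s iht ihs =>
    cases s <;> simp only [tc, nd_inj] at h <;> try omega
    rw [iht h.2.1, ihs h.2.2]

lemma fc_inj {φ ψ : Fm} (h : fc φ = fc ψ) : φ = ψ := by
  induction φ generalizing ψ with
  | bot => cases ψ <;> simp_all [fc, nd_inj]
  | eq t s =>
    cases ψ <;> simp only [fc, nd_inj] at h <;> try omega
    rw [tc_inj h.2.1, tc_inj h.2.2]
  | le t s =>
    cases ψ <;> simp only [fc, nd_inj] at h <;> try omega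
    rw [tc_inj h.2.1, tc_inj h.2.2]
  | imp φ χ ih1 ih2 =>
    cases ψ <;> simp only [fc, nd_inj] at h <;> try omega
    rw [ih1 h.2.1, ih2 h.2.2]
  | all k φ ih =>
    cases ψ <;> simp only [fc, nd_inj] at h <;> try omega
    rw [ih h.2.2, h.2.1]

lemma lc_inj {L L' : List Fm} (h : lc L = lc L') : L = L' := by
  induction L generalizing L' with
  | nil =>
    cases L' with
    | nil => rfl
    | cons φ L' => simp only [lc] at h; have := nd_pos (fc φ) (lc L'); omega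
  | cons φ L ih =>
    cases L' with
    | nil => simp only [lc] at h; have := nd_pos (fc φ) (lc L); omega
    | cons ψ L' =>
      simp only [lc, nd_inj] at h
      rw [fc_inj h.1, ih h.2]

/-- The term for `nd`. -/
def ndT (t s : Tm) : Tm := succ (add (mul (add t s) (add t s)) t)

@[simp] lemma val_ndT (t s : Tm) (e : ℕ → ℕ) : (ndT t s).val e = nd (t.val e) (s.val e) := by
  rw [nd_def]; rfl

@[simp] lemma has_ndT (t s : Tm) (k : ℕ) : (ndT t s).Has k ↔ t.Has k ∨ s.Has k := by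
  simp only [ndT, Tm.Has]; tauto

end Helper31Con

end

section

/-!
# The syntactic relations and their recursive definitions
-/

namespace Helper31Con

open Function Filter

/-- `x` is a code of a term. -/
def IsT (x : ℕ) : Prop := ∃ t, x = tc t
/-- `x` is a code of a formula. -/
def IsF (x : ℕ) : Prop := ∃ φ, x = fc φ
/-- `x_k` occurs in the term with code `x`. -/
def HasR (x k : ℕ) : Prop := ∃ t : Tm, x = tc t ∧ t.Has k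
/-- `x_k` occurs free in the formula with code `x`. -/
def FreeR (x k : ℕ) : Prop := ∃ φ : Fm, x = fc φ ∧ φ.Free k
/-- Substitution in terms. -/
def SbT (x k r y : ℕ) : Prop := ∃ t r' : Tm, x = tc t ∧ r = tc r' ∧ y = tc (t.sub k r')
/-- Substitution in formulas. -/
def SbF (x k r y : ℕ) : Prop := ∃ (φ : Fm) (r' : Tm), x = fc φ ∧ r = tc r' ∧ y = fc (φ.sub k r')
/-- Free for. -/
def FFR (x k r : ℕ) : Prop := ∃ (φ : Fm) (r' : Tm), x = fc φ ∧ r = tc r' ∧ φ.FreeFor k r'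
/-- Length of terms. -/
def LnT (x n : ℕ) : Prop := ∃ t : Tm, x = tc t ∧ n = t.len
/-- Length of formulas. -/
def LnF (x n : ℕ) : Prop := ∃ φ : Fm, x = fc φ ∧ n = φ.len
/-- Logical axioms. -/
def AxR (x : ℕ) : Prop := ∃ φ : Fm, x = fc φ ∧ Ax φ
/-- Lists of formulas. -/
def IsL (x : ℕ) : Prop := ∃ l : List Fm, x = lc l
/-- Lists of sentences. -/
def LSR (x : ℕ) : Prop := ∃ l : List Fm, x = lc l ∧ ∀ φ ∈ l, Fm.Sentence φ
/-- Membership. -/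
def MeR (L x : ℕ) : Prop := ∃ (l : List Fm) (φ : Fm), L = lc l ∧ x = fc φ ∧ φ ∈ l
/-- `L` is a proof from `T`. -/
def PfR (L T : ℕ) : Prop := ∃ l t : List Fm, L = lc l ∧ T = lc t ∧ IsProof t l
/-- Length of lists. -/
def PLR (L n : ℕ) : Prop := ∃ l : List Fm, L = lc l ∧ n = plen l
/-- No refutation of `T` with at most `n` symbols and code at most `w`. -/
def NR (w T n : ℕ) : Prop := ∀ p ≤ w, ∀ m ≤ n, ¬ (PfR p T ∧ PLR p m ∧ ∃ q ≤ p, p = nd (nd 5 0) q)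

@[simp] lemma lt_nd_l' (a b : ℕ) : a < nd a b := lt_nd_l a b
@[simp] lemma lt_nd_r' (a b : ℕ) : b < nd a b := lt_nd_r a b
@[simp] lemma lt_nd2_l (t a b : ℕ) : a < nd t (nd a b) := (lt_nd_l a b).trans (lt_nd_r _ _)
@[simp] lemma lt_nd2_r (t a b : ℕ) : b < nd t (nd a b) := (lt_nd_r a b).trans (lt_nd_r _ _)

/-- `x_k` -/
abbrev x (k : ℕ) : Tm := Tm.var k

namespace BF

/-- `∃ x_k, x_v = nd t x_k ∧ P` -/
def m1 (v t k : ℕ) (P : BF) : BF := bex k v ((eq (x v) (ndT (Tm.num t) (x k))).and P)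

/-- `∃ x_k x_l, x_v = nd t (nd x_k x_l) ∧ P` -/
def m2 (v t k l : ℕ) (P : BF) : BF :=
  bex k v (bex l v ((eq (x v) (ndT (Tm.num t) (ndT (x k) (x l)))).and P))

variable {R : ℕ → ℕ → ℕ → ℕ → ℕ → Prop} {S : ℕ → ℕ → ℕ → ℕ → Prop}

lemma m1_ev (v t k : ℕ) (P : BF) (e : ℕ → ℕ) (h : v ≠ k) :
    (m1 v t k P).ev R S e ↔ ∃ a, e v = nd t a ∧ P.ev R S (update e k a) := by
  simp only [m1, ev_bex, ev_and, ev_eq, val_ndT, Tm.val_num, Tm.val, update_self,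
    update_of_ne h]
  constructor
  · rintro ⟨a, _, h⟩; exact ⟨a, h⟩
  · rintro ⟨a, h, h'⟩; exact ⟨a, by rw [h]; exact (lt_nd_r _ _).le, h, h'⟩

lemma m2_ev (v t k l : ℕ) (P : BF) (e : ℕ → ℕ) (h : v ≠ k) (h' : v ≠ l) (h'' : k ≠ l) :
    (m2 v t k l P).ev R S e ↔
      ∃ a b, e v = nd t (nd a b) ∧ P.ev R S (update (update e k a) l b) := by
  simp only [m2, ev_bex, ev_and, ev_eq, val_ndT, Tm.val_num, Tm.val, update_self,
    update_of_ne h, update_of_ne h', update_of_ne h'']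
  constructor
  · rintro ⟨a, _, b, _, h⟩; exact ⟨a, b, h⟩
  · rintro ⟨a, b, h, h'⟩
    exact ⟨a, by rw [h]; exact (lt_nd2_l _ _ _).le, b, by rw [h]; exact (lt_nd2_r _ _ _).le, h, h'⟩

/-- `∃ x_k x_l, x_v = nd x_k x_l ∧ P` -/
def mp (v k l : ℕ) (P : BF) : BF :=
  bex k v (bex l v ((eq (x v) (ndT (x k) (x l))).and P))

lemma mp_ev (v k l : ℕ) (P : BF) (e : ℕ → ℕ) (h : v ≠ k) (h' : v ≠ l) (h'' : k ≠ l) :
    (mp v k l P).ev R S e ↔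
      ∃ a b, e v = nd a b ∧ P.ev R S (update (update e k a) l b) := by
  simp only [mp, ev_bex, ev_and, ev_eq, val_ndT, Tm.val, update_self,
    update_of_ne h, update_of_ne h', update_of_ne h'']
  constructor
  · rintro ⟨a, _, b, _, h⟩; exact ⟨a, b, h⟩
  · rintro ⟨a, b, h, h'⟩
    exact ⟨a, by rw [h]; exact (lt_nd_l _ _).le, b, by rw [h]; exact (lt_nd_r _ _).le, h, h'⟩

@[simp] lemma ok_mp (i v k l : ℕ) (P : BF) :
    (mp v k l P).Ok i ↔ (k ≠ 0 ∧ k ≠ v) ∧ (l ≠ 0 ∧ l ≠ v) ∧ P.Ok i := by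
  simp [mp]; tauto

@[simp] lemma ok_m1 (i v t k : ℕ) (P : BF) : (m1 v t k P).Ok i ↔ k ≠ 0 ∧ k ≠ v ∧ P.Ok i := by
  simp [m1]

@[simp] lemma ok_m2 (i v t k l : ℕ) (P : BF) :
    (m2 v t k l P).Ok i ↔ (k ≠ 0 ∧ k ≠ v) ∧ (l ≠ 0 ∧ l ≠ v) ∧ P.Ok i := by
  simp [m2]; tauto

end BF

open BF

/-- IsT -/
def ψ0 : BF :=
  (m1 0 0 4 (eq (x 4) (x 4))).or <| (m1 0 1 4 (eq (x 4) (Tm.num 0))).or <|
  (m1 0 2 4 (slf 4 1 2 3)).or <| (m2 0 3 4 5 ((slf 4 1 2 3).and (slf 5 1 2 3))).or <|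
  m2 0 4 4 5 ((slf 4 1 2 3).and (slf 5 1 2 3))

variable {R : ℕ → ℕ → ℕ → ℕ → ℕ → Prop}

lemma ψ0_ok : ψ0.Ok 0 := by simp [ψ0, Ok]

lemma ψ0_iff (e : ℕ → ℕ) : IsT (e 0) ↔ ψ0.ev R (fun a _ _ _ => IsT a) e := by
  simp [ψ0, m1_ev, m2_ev, update_apply, Tm.val]
  constructor
  · rintro ⟨t, h⟩
    rw [h]
    cases t with
    | var k => exact Or.inl ⟨k, rfl⟩
    | zero => exact Or.inr (Or.inl rfl)
    | succ t => exact Or.inr (Or.inr (Or.inl ⟨tc t, rfl, by simp [tc], t, rfl⟩))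
    | add t s => exact Or.inr (Or.inr (Or.inr (Or.inl ⟨tc t, tc s, rfl, ⟨by simp [tc], t, rfl⟩,
        by simp [tc], s, rfl⟩)))
    | mul t s => exact Or.inr (Or.inr (Or.inr (Or.inr ⟨tc t, tc s, rfl, ⟨by simp [tc], t, rfl⟩,
        by simp [tc], s, rfl⟩)))
  · rintro (⟨b, h⟩ | h | ⟨b, h, _, t, rfl⟩ | ⟨b, c, h, ⟨_, t, rfl⟩, _, s, rfl⟩ |
      ⟨b, c, h, ⟨_, t, rfl⟩, _, s, rfl⟩)
    · exact ⟨.var b, h⟩
    · exact ⟨.zero, h⟩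
    · exact ⟨.succ t, h⟩
    · exact ⟨.add t s, h⟩
    · exact ⟨.mul t s, h⟩


/-- IsF -/
def ψ1 : BF :=
  (m1 0 5 4 (eq (x 4) (Tm.num 0))).or <|
  (m2 0 6 4 5 ((rel 0 4 1 2 3).and (rel 0 5 1 2 3))).or <|
  (m2 0 7 4 5 ((rel 0 4 1 2 3).and (rel 0 5 1 2 3))).or <|
  (m2 0 8 4 5 ((slf 4 1 2 3).and (slf 5 1 2 3))).or <|
  m2 0 9 4 5 (slf 5 1 2 3)

lemma ψ1_ok : ψ1.Ok 1 := by simp [ψ1, Ok]

lemma ψ1_iff (e : ℕ → ℕ) (h0 : ∀ a b c d, R 0 a b c d ↔ IsT a) :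
    IsF (e 0) ↔ ψ1.ev R (fun a _ _ _ => IsF a) e := by
  simp [ψ1, m1_ev, m2_ev, update_apply, Tm.val, h0]
  constructor
  · rintro ⟨φ, h⟩
    rw [h]
    cases φ with
    | bot => exact Or.inl rfl
    | eq t s => exact Or.inr (Or.inl ⟨tc t, tc s, rfl, ⟨t, rfl⟩, s, rfl⟩)
    | le t s => exact Or.inr (Or.inr (Or.inl ⟨tc t, tc s, rfl, ⟨t, rfl⟩, s, rfl⟩))
    | imp φ ψ => exact Or.inr (Or.inr (Or.inr (Or.inl ⟨fc φ, fc ψ, rfl, ⟨by simp [fc], φ, rfl⟩,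
        by simp [fc], ψ, rfl⟩)))
    | all k φ => exact Or.inr (Or.inr (Or.inr (Or.inr ⟨k, fc φ, rfl, by simp [fc], φ, rfl⟩)))
  · rintro (h | ⟨b, c, h, ⟨t, rfl⟩, s, rfl⟩ | ⟨b, c, h, ⟨t, rfl⟩, s, rfl⟩ |
      ⟨b, c, h, ⟨_, t, rfl⟩, _, s, rfl⟩ | ⟨b, c, h, _, t, rfl⟩)
    · exact ⟨.bot, h⟩
    · exact ⟨.eq t s, h⟩
    · exact ⟨.le t s, h⟩
    · exact ⟨.imp t s, h⟩
    · exact ⟨.all b t, h⟩

/-- HasR -/
def ψ2 : BF :=
  (m1 0 0 4 (eq (x 4) (x 1))).or <| (m1 0 2 4 (slf 4 1 2 3)).or <|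
  (m2 0 3 4 5 (((slf 4 1 2 3).and (rel 0 5 1 2 3)).or ((rel 0 4 1 2 3).and (slf 5 1 2 3)))).or <|
  m2 0 4 4 5 (((slf 4 1 2 3).and (rel 0 5 1 2 3)).or ((rel 0 4 1 2 3).and (slf 5 1 2 3)))

lemma ψ2_ok : ψ2.Ok 2 := by simp [ψ2, Ok]

lemma ψ2_iff (e : ℕ → ℕ) (h0 : ∀ a b c d, R 0 a b c d ↔ IsT a) :
    HasR (e 0) (e 1) ↔ ψ2.ev R (fun a b _ _ => HasR a b) e := by
  simp [ψ2, m1_ev, m2_ev, update_apply, Tm.val, h0]
  constructor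
  · rintro ⟨t, h, h'⟩
    rw [h]
    cases t with
    | var k => simp only [Tm.Has] at h'; exact Or.inl (by rw [h']; rfl)
    | zero => exact absurd h' (by simp [Tm.Has])
    | succ t => exact Or.inr (Or.inl ⟨tc t, rfl, by simp [tc], t, rfl, h'⟩)
    | add t s =>
      refine Or.inr (Or.inr (Or.inl ⟨tc t, tc s, rfl, ?_⟩))
      rcases h' with h' | h'
      · exact Or.inl ⟨⟨by simp [tc], t, rfl, h'⟩, s, rfl⟩
      · exact Or.inr ⟨⟨t, rfl⟩, by simp [tc], s, rfl, h'⟩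
    | mul t s =>
      refine Or.inr (Or.inr (Or.inr ⟨tc t, tc s, rfl, ?_⟩))
      rcases h' with h' | h'
      · exact Or.inl ⟨⟨by simp [tc], t, rfl, h'⟩, s, rfl⟩
      · exact Or.inr ⟨⟨t, rfl⟩, by simp [tc], s, rfl, h'⟩
  · rintro (h | ⟨b, h, _, t, rfl, h'⟩ | ⟨b, c, h, ⟨⟨_, t, rfl, h'⟩, s, rfl⟩ |
      ⟨⟨t, rfl⟩, _, s, rfl, h'⟩⟩ | ⟨b, c, h, ⟨⟨_, t, rfl, h'⟩, s, rfl⟩ |
      ⟨⟨t, rfl⟩, _, s, rfl, h'⟩⟩)
    · exact ⟨.var (e 1), h, rfl⟩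
    · exact ⟨.succ t, h, h'⟩
    · exact ⟨.add t s, h, Or.inl h'⟩
    · exact ⟨.add t s, h, Or.inr h'⟩
    · exact ⟨.mul t s, h, Or.inl h'⟩
    · exact ⟨.mul t s, h, Or.inr h'⟩

/-- FreeR -/
def ψ3 : BF :=
  (m2 0 6 4 5 (((rel 2 4 1 2 3).and (rel 0 5 1 2 3)).or ((rel 0 4 1 2 3).and (rel 2 5 1 2 3)))).or <|
  (m2 0 7 4 5 (((rel 2 4 1 2 3).and (rel 0 5 1 2 3)).or ((rel 0 4 1 2 3).and (rel 2 5 1 2 3)))).or <|
  (m2 0 8 4 5 (((slf 4 1 2 3).and (rel 1 5 1 2 3)).or ((rel 1 4 1 2 3).and (slf 5 1 2 3)))).or <|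
  m2 0 9 4 5 ((neg (eq (x 4) (x 1))).and (slf 5 1 2 3))

lemma ψ3_ok : ψ3.Ok 3 := by simp [ψ3, Ok]

lemma ψ3_iff (e : ℕ → ℕ) (h0 : ∀ a b c d, R 0 a b c d ↔ IsT a)
    (h1 : ∀ a b c d, R 1 a b c d ↔ IsF a) (h2 : ∀ a b c d, R 2 a b c d ↔ HasR a b) :
    FreeR (e 0) (e 1) ↔ ψ3.ev R (fun a b _ _ => FreeR a b) e := by
  simp [ψ3, m2_ev, update_apply, Tm.val, h0, h1, h2]
  constructor
  · rintro ⟨t, h, h'⟩
    rw [h]
    cases t with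
    | bot => exact absurd h' (by simp [Fm.Free])
    | eq t s =>
      refine Or.inl ⟨tc t, tc s, rfl, ?_⟩
      rcases h' with h' | h'
      · exact Or.inl ⟨⟨t, rfl, h'⟩, s, rfl⟩
      · exact Or.inr ⟨⟨t, rfl⟩, s, rfl, h'⟩
    | le t s =>
      refine Or.inr (Or.inl ⟨tc t, tc s, rfl, ?_⟩)
      rcases h' with h' | h'
      · exact Or.inl ⟨⟨t, rfl, h'⟩, s, rfl⟩
      · exact Or.inr ⟨⟨t, rfl⟩, s, rfl, h'⟩
    | imp t s =>
      refine Or.inr (Or.inr (Or.inl ⟨fc t, fc s, rfl, ?_⟩))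
      rcases h' with h' | h'
      · exact Or.inl ⟨⟨by simp [fc], t, rfl, h'⟩, s, rfl⟩
      · exact Or.inr ⟨⟨t, rfl⟩, by simp [fc], s, rfl, h'⟩
    | all k φ => exact Or.inr (Or.inr (Or.inr ⟨k, fc φ, rfl, h'.1, by simp [fc], φ, rfl, h'.2⟩))
  · rintro (⟨b, c, h, ⟨⟨t, rfl, h'⟩, s, rfl⟩ |
      ⟨⟨t, rfl⟩, s, rfl, h'⟩⟩ | ⟨b, c, h, ⟨⟨t, rfl, h'⟩, s, rfl⟩ |
      ⟨⟨t, rfl⟩, s, rfl, h'⟩⟩ | ⟨b, c, h, ⟨⟨_, t, rfl, h'⟩, s, rfl⟩ |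
      ⟨⟨t, rfl⟩, _, s, rfl, h'⟩⟩ | ⟨b, c, h, h'', _, t, rfl, h'⟩)
    · exact ⟨.eq t s, h, Or.inl h'⟩
    · exact ⟨.eq t s, h, Or.inr h'⟩
    · exact ⟨.le t s, h, Or.inl h'⟩
    · exact ⟨.le t s, h, Or.inr h'⟩
    · exact ⟨.imp t s, h, Or.inl h'⟩
    · exact ⟨.imp t s, h, Or.inr h'⟩
    · exact ⟨.all b t, h, h'', h'⟩

/-- SbT -/
def ψ4 : BF :=
  (m1 0 0 4 ((rel 0 2 1 2 3).and (((eq (x 4) (x 1)).and (eq (x 3) (x 2))).or
    ((neg (eq (x 4) (x 1))).and (eq (x 3) (x 0)))))).or <|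
  (m1 0 1 4 ((eq (x 4) (Tm.num 0)).and ((eq (x 3) (x 0)).and (rel 0 2 1 2 3)))).or <|
  (m1 0 2 4 (m1 3 2 5 (slf 4 1 2 5))).or <|
  (m2 0 3 4 5 (m2 3 3 6 7 ((slf 4 1 2 6).and (slf 5 1 2 7)))).or <|
  m2 0 4 4 5 (m2 3 4 6 7 ((slf 4 1 2 6).and (slf 5 1 2 7)))

lemma ψ4_ok : ψ4.Ok 4 := by simp [ψ4, Ok]

lemma ψ4_iff (e : ℕ → ℕ) (h0 : ∀ a b c d, R 0 a b c d ↔ IsT a) :
    SbT (e 0) (e 1) (e 2) (e 3) ↔ ψ4.ev R (fun a b c d => SbT a b c d) e := by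
  simp [ψ4, m1_ev, m2_ev, update_apply, Tm.val, h0]
  constructor
  · rintro ⟨t, r, h, hr, hy⟩
    rw [h, hr, hy]
    cases t with
    | var k =>
      refine Or.inl ⟨k, rfl, ⟨r, rfl⟩, ?_⟩
      by_cases hk : k = e 1
      · exact Or.inl ⟨hk, by simp [Tm.sub, hk]⟩
      · exact Or.inr ⟨hk, by simp [Tm.sub, hk]⟩
    | zero => exact Or.inr (Or.inl ⟨rfl, rfl, r, rfl⟩)
    | succ t => exact Or.inr (Or.inr (Or.inl ⟨tc t, rfl, _, rfl, by simp [tc], t, r, rfl, rfl, rfl⟩))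
    | add t s =>
      exact Or.inr (Or.inr (Or.inr (Or.inl ⟨tc t, tc s, rfl, _, _, rfl,
        ⟨by simp [tc], t, r, rfl, rfl, rfl⟩, by simp [tc], s, r, rfl, rfl, rfl⟩)))
    | mul t s =>
      exact Or.inr (Or.inr (Or.inr (Or.inr ⟨tc t, tc s, rfl, _, _, rfl,
        ⟨by simp [tc], t, r, rfl, rfl, rfl⟩, by simp [tc], s, r, rfl, rfl, rfl⟩)))
  · rintro (⟨k, h, ⟨r, hr⟩, ⟨hk, h'⟩ | ⟨hk, h'⟩⟩ | ⟨h, h', r, hr⟩ |
      ⟨a, h, b, h', _, t, r, rfl, hr, rfl⟩ |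
      ⟨a, b, h, c, d, h', ⟨_, t, r, rfl, hr, rfl⟩, _, s, r', rfl, hr', rfl⟩ |
      ⟨a, b, h, c, d, h', ⟨_, t, r, rfl, hr, rfl⟩, _, s, r', rfl, hr', rfl⟩)
    · exact ⟨.var k, r, h, hr, by rw [h', hr]; simp [Tm.sub, hk]⟩
    · exact ⟨.var k, r, h, hr, by rw [h', h]; simp [Tm.sub, hk, tc]⟩
    · exact ⟨.zero, r, h, hr, by rw [h', h]; rfl⟩
    · exact ⟨.succ t, r, h, hr, h'⟩
    · obtain rfl : r = r' := tc_inj (hr.symm.trans hr')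
      exact ⟨.add t s, r, h, hr, h'⟩
    · obtain rfl : r = r' := tc_inj (hr.symm.trans hr')
      exact ⟨.mul t s, r, h, hr, h'⟩

/-- SbF -/
def ψ5 : BF :=
  (m1 0 5 4 ((eq (x 4) (Tm.num 0)).and ((eq (x 3) (x 0)).and (rel 0 2 1 2 3)))).or <|
  (m2 0 6 4 5 (m2 3 6 6 7 ((rel 4 4 1 2 6).and (rel 4 5 1 2 7)))).or <|
  (m2 0 7 4 5 (m2 3 7 6 7 ((rel 4 4 1 2 6).and (rel 4 5 1 2 7)))).or <|
  (m2 0 8 4 5 (m2 3 8 6 7 ((slf 4 1 2 6).and (slf 5 1 2 7)))).or <|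
  m2 0 9 4 5 (((eq (x 4) (x 1)).and ((eq (x 3) (x 0)).and ((rel 1 5 1 2 3).and (rel 0 2 1 2 3)))).or
    ((neg (eq (x 4) (x 1))).and (m2 3 9 6 7 ((eq (x 6) (x 4)).and (slf 5 1 2 7)))))

lemma ψ5_ok : ψ5.Ok 5 := by simp [ψ5, Ok]

lemma ψ5_iff (e : ℕ → ℕ) (h0 : ∀ a b c d, R 0 a b c d ↔ IsT a)
    (h1 : ∀ a b c d, R 1 a b c d ↔ IsF a) (h4 : ∀ a b c d, R 4 a b c d ↔ SbT a b c d) :
    SbF (e 0) (e 1) (e 2) (e 3) ↔ ψ5.ev R (fun a b c d => SbF a b c d) e := by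
  simp [ψ5, m1_ev, m2_ev, update_apply, Tm.val, h0, h1, h4]
  constructor
  · rintro ⟨t, r, h, hr, hy⟩
    rw [h, hr, hy]
    cases t with
    | bot => exact Or.inl ⟨rfl, rfl, r, rfl⟩
    | eq t s => exact Or.inr (Or.inl ⟨tc t, tc s, rfl, _, _, rfl,
        ⟨t, r, rfl, rfl, rfl⟩, s, r, rfl, rfl, rfl⟩)
    | le t s => exact Or.inr (Or.inr (Or.inl ⟨tc t, tc s, rfl, _, _, rfl,
        ⟨t, r, rfl, rfl, rfl⟩, s, r, rfl, rfl, rfl⟩))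
    | imp t s =>
      exact Or.inr (Or.inr (Or.inr (Or.inl ⟨fc t, fc s, rfl, _, _, rfl,
        ⟨by simp [fc], t, r, rfl, rfl, rfl⟩, by simp [fc], s, r, rfl, rfl, rfl⟩)))
    | all k φ =>
      refine Or.inr (Or.inr (Or.inr (Or.inr ⟨k, fc φ, rfl, ?_⟩)))
      by_cases hk : k = e 1
      · exact Or.inl ⟨hk, by simp [Fm.sub, hk], ⟨φ, rfl⟩, r, rfl⟩
      · exact Or.inr ⟨hk, _, by simp [Fm.sub, hk, fc], by simp [fc], φ, r, rfl, rfl, rfl⟩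
  · rintro (⟨h, h', r, hr⟩ |
      ⟨a, b, h, c, d, h', ⟨t, r, rfl, hr, rfl⟩, s, r', rfl, hr', rfl⟩ |
      ⟨a, b, h, c, d, h', ⟨t, r, rfl, hr, rfl⟩, s, r', rfl, hr', rfl⟩ |
      ⟨a, b, h, c, d, h', ⟨_, t, r, rfl, hr, rfl⟩, _, s, r', rfl, hr', rfl⟩ |
      ⟨a, b, h, ⟨hk, h', ⟨φ, rfl⟩, r, hr⟩ | ⟨hk, c, h', _, φ, r, rfl, hr, rfl⟩⟩)
    · exact ⟨.bot, r, h, hr, by rw [h', h]; rfl⟩
    · obtain rfl : r = r' := tc_inj (hr.symm.trans hr')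
      exact ⟨.eq t s, r, h, hr, h'⟩
    · obtain rfl : r = r' := tc_inj (hr.symm.trans hr')
      exact ⟨.le t s, r, h, hr, h'⟩
    · obtain rfl : r = r' := tc_inj (hr.symm.trans hr')
      exact ⟨.imp t s, r, h, hr, h'⟩
    · exact ⟨.all a φ, r, h, hr, by rw [h', h]; simp [Fm.sub, hk, fc]⟩
    · exact ⟨.all a φ, r, h, hr, by rw [h']; simp [Fm.sub, hk, fc]⟩

/-- FFR -/
def ψ6 : BF :=
  (m1 0 5 4 ((eq (x 4) (Tm.num 0)).and (rel 0 2 1 2 3))).or <|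
  (m2 0 6 4 5 ((rel 0 4 1 2 3).and ((rel 0 5 1 2 3).and (rel 0 2 1 2 3)))).or <|
  (m2 0 7 4 5 ((rel 0 4 1 2 3).and ((rel 0 5 1 2 3).and (rel 0 2 1 2 3)))).or <|
  (m2 0 8 4 5 ((slf 4 1 2 3).and (slf 5 1 2 3))).or <|
  m2 0 9 4 5 ((rel 1 5 1 2 3).and ((rel 0 2 1 2 3).and ((eq (x 4) (x 1)).or
    ((neg (rel 3 5 1 2 3)).or ((neg (rel 2 2 4 2 3)).and (slf 5 1 2 3))))))

lemma ψ6_ok : ψ6.Ok 6 := by simp [ψ6, Ok]

lemma ψ6_iff (e : ℕ → ℕ) (h0 : ∀ a b c d, R 0 a b c d ↔ IsT a)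
    (h1 : ∀ a b c d, R 1 a b c d ↔ IsF a) (h2 : ∀ a b c d, R 2 a b c d ↔ HasR a b)
    (h3 : ∀ a b c d, R 3 a b c d ↔ FreeR a b) :
    FFR (e 0) (e 1) (e 2) ↔ ψ6.ev R (fun a b c _ => FFR a b c) e := by
  simp [ψ6, m1_ev, m2_ev, update_apply, Tm.val, h0, h1, h2, h3]
  constructor
  · rintro ⟨t, r, h, hr, hy⟩
    rw [h, hr]
    cases t with
    | bot => exact Or.inl ⟨rfl, r, rfl⟩
    | eq t s => exact Or.inr (Or.inl ⟨tc t, tc s, rfl, ⟨t, rfl⟩, ⟨s, rfl⟩, r, rfl⟩)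
    | le t s => exact Or.inr (Or.inr (Or.inl ⟨tc t, tc s, rfl, ⟨t, rfl⟩, ⟨s, rfl⟩, r, rfl⟩))
    | imp t s =>
      exact Or.inr (Or.inr (Or.inr (Or.inl ⟨fc t, fc s, rfl,
        ⟨by simp [fc], t, r, rfl, rfl, hy.1⟩, by simp [fc], s, r, rfl, rfl, hy.2⟩)))
    | all k φ =>
      refine Or.inr (Or.inr (Or.inr (Or.inr ⟨k, fc φ, rfl, ⟨φ, rfl⟩, ⟨r, rfl⟩, ?_⟩)))
      rcases hy with hy | hy | hy
      · exact Or.inl hy
      · refine Or.inr (Or.inl ?_)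
        rintro ⟨φ', h1, h2⟩
        rw [← fc_inj h1] at h2
        exact hy h2
      · refine Or.inr (Or.inr ⟨?_, by simp [fc], φ, r, rfl, rfl, hy.2⟩)
        rintro ⟨t', h1, h2⟩
        rw [← tc_inj h1] at h2
        exact hy.1 h2
  · rintro (⟨h, r, hr⟩ | ⟨a, b, h, ⟨t, rfl⟩, ⟨s, rfl⟩, r, hr⟩ |
      ⟨a, b, h, ⟨t, rfl⟩, ⟨s, rfl⟩, r, hr⟩ |
      ⟨a, b, h, ⟨_, t, r, rfl, hr, h1⟩, _, s, r', rfl, hr', h2⟩ |
      ⟨a, b, h, ⟨φ, rfl⟩, ⟨r, hr⟩, h' | h' | ⟨h', _, φ', r', hφ, hr', h''⟩⟩)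
    · exact ⟨.bot, r, h, hr, trivial⟩
    · exact ⟨.eq t s, r, h, hr, trivial⟩
    · exact ⟨.le t s, r, h, hr, trivial⟩
    · obtain rfl : r = r' := tc_inj (hr.symm.trans hr')
      exact ⟨.imp t s, r, h, hr, h1, h2⟩
    · exact ⟨.all a φ, r, h, hr, Or.inl h'⟩
    · exact ⟨.all a φ, r, h, hr, Or.inr (Or.inl fun h3 => h' ⟨φ, rfl, h3⟩)⟩
    · obtain rfl : r = r' := tc_inj (hr.symm.trans hr')
      obtain rfl : φ = φ' := fc_inj hφ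
      exact ⟨.all a φ, r, h, hr, Or.inr (Or.inr ⟨fun h3 => h' ⟨r, hr, h3⟩, h''⟩)⟩

end Helper31Con

end

section

/-!
# The syntactic relations, continued
-/

namespace Helper31Con

open Function Filter BF

variable {R : ℕ → ℕ → ℕ → ℕ → ℕ → Prop}

/-- LnT -/
def ψ7 : BF :=
  (m1 0 0 4 (eq (x 1) (Tm.succ (x 4)))).or <|
  (m1 0 1 4 ((eq (x 4) (Tm.num 0)).and (eq (x 1) (Tm.num 1)))).or <|
  (m1 0 2 4 (bex 5 1 ((slf 4 5 2 3).and (eq (x 1) (Tm.succ (x 5)))))).or <|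
  (m2 0 3 4 5 (bex 6 1 (bex 7 1 ((slf 4 6 2 3).and ((slf 5 7 2 3).and
    (eq (x 1) (Tm.succ (Tm.add (x 6) (x 7))))))))).or <|
  m2 0 4 4 5 (bex 6 1 (bex 7 1 ((slf 4 6 2 3).and ((slf 5 7 2 3).and
    (eq (x 1) (Tm.succ (Tm.add (x 6) (x 7))))))))

lemma ψ7_ok : ψ7.Ok 7 := by simp [ψ7, Ok]

lemma ψ7_iff (e : ℕ → ℕ) :
    LnT (e 0) (e 1) ↔ ψ7.ev R (fun a b _ _ => LnT a b) e := by
  simp [ψ7, m1_ev, m2_ev, update_apply, Tm.val]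
  constructor
  · rintro ⟨t, h, hn⟩
    rw [h, hn]
    cases t with
    | var k => exact Or.inl ⟨k, rfl, rfl⟩
    | zero => exact Or.inr (Or.inl ⟨rfl, rfl⟩)
    | succ t => exact Or.inr (Or.inr (Or.inl ⟨tc t, rfl, t.len, by simp [Tm.len],
        ⟨by simp [tc], t, rfl, rfl⟩, rfl⟩))
    | add t s =>
      exact Or.inr (Or.inr (Or.inr (Or.inl ⟨tc t, tc s, rfl, t.len, by simp only [Tm.len]; omega,
        s.len, by simp only [Tm.len]; omega, ⟨by simp [tc], t, rfl, rfl⟩,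
        ⟨by simp [tc], s, rfl, rfl⟩, rfl⟩)))
    | mul t s =>
      exact Or.inr (Or.inr (Or.inr (Or.inr ⟨tc t, tc s, rfl, t.len, by simp only [Tm.len]; omega,
        s.len, by simp only [Tm.len]; omega, ⟨by simp [tc], t, rfl, rfl⟩,
        ⟨by simp [tc], s, rfl, rfl⟩, rfl⟩)))
  · rintro (⟨k, h, h'⟩ | ⟨h, h'⟩ | ⟨a, h, b, _, ⟨_, t, rfl, rfl⟩, h'⟩ |
      ⟨a, b, h, c, _, d, _, ⟨_, t, rfl, rfl⟩, ⟨_, s, rfl, rfl⟩, h'⟩ |
      ⟨a, b, h, c, _, d, _, ⟨_, t, rfl, rfl⟩, ⟨_, s, rfl, rfl⟩, h'⟩)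
    · exact ⟨.var k, h, h'⟩
    · exact ⟨.zero, h, h'⟩
    · exact ⟨.succ t, h, h'⟩
    · exact ⟨.add t s, h, h'⟩
    · exact ⟨.mul t s, h, h'⟩

/-- LnF -/
def ψ8 : BF :=
  (m1 0 5 4 ((eq (x 4) (Tm.num 0)).and (eq (x 1) (Tm.num 1)))).or <|
  (m2 0 6 4 5 (bex 6 1 (bex 7 1 ((rel 7 4 6 2 3).and ((rel 7 5 7 2 3).and
    (eq (x 1) (Tm.succ (Tm.add (x 6) (x 7))))))))).or <|
  (m2 0 7 4 5 (bex 6 1 (bex 7 1 ((rel 7 4 6 2 3).and ((rel 7 5 7 2 3).and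
    (eq (x 1) (Tm.succ (Tm.add (x 6) (x 7))))))))).or <|
  (m2 0 8 4 5 (bex 6 1 (bex 7 1 ((slf 4 6 2 3).and ((slf 5 7 2 3).and
    (eq (x 1) (Tm.succ (Tm.add (x 6) (x 7))))))))).or <|
  m2 0 9 4 5 (bex 6 1 ((slf 5 6 2 3).and
    (eq (x 1) (Tm.succ (Tm.add (x 6) (Tm.succ (x 4)))))))

lemma ψ8_ok : ψ8.Ok 8 := by simp [ψ8, Ok]

lemma ψ8_iff (e : ℕ → ℕ) (h7 : ∀ a b c d, R 7 a b c d ↔ LnT a b) :
    LnF (e 0) (e 1) ↔ ψ8.ev R (fun a b _ _ => LnF a b) e := by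
  simp [ψ8, m1_ev, m2_ev, update_apply, Tm.val, h7]
  constructor
  · rintro ⟨t, h, hn⟩
    rw [h, hn]
    cases t with
    | bot => exact Or.inl ⟨rfl, rfl⟩
    | eq t s =>
      exact Or.inr (Or.inl ⟨tc t, tc s, rfl, t.len, by simp only [Fm.len]; omega,
        s.len, by simp only [Fm.len]; omega, ⟨t, rfl, rfl⟩, ⟨s, rfl, rfl⟩, rfl⟩)
    | le t s =>
      exact Or.inr (Or.inr (Or.inl ⟨tc t, tc s, rfl, t.len, by simp only [Fm.len]; omega,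
        s.len, by simp only [Fm.len]; omega, ⟨t, rfl, rfl⟩, ⟨s, rfl, rfl⟩, rfl⟩))
    | imp t s =>
      exact Or.inr (Or.inr (Or.inr (Or.inl ⟨fc t, fc s, rfl, t.len, by simp only [Fm.len]; omega,
        s.len, by simp only [Fm.len]; omega, ⟨by simp [fc], t, rfl, rfl⟩,
        ⟨by simp [fc], s, rfl, rfl⟩, rfl⟩)))
    | all k φ => exact Or.inr (Or.inr (Or.inr (Or.inr ⟨k, fc φ, rfl, φ.len,
        by simp only [Fm.len]; omega, ⟨by simp [fc], φ, rfl, rfl⟩, rfl⟩)))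
  · rintro (⟨h, h'⟩ |
      ⟨a, b, h, c, _, d, _, ⟨t, rfl, rfl⟩, ⟨s, rfl, rfl⟩, h'⟩ |
      ⟨a, b, h, c, _, d, _, ⟨t, rfl, rfl⟩, ⟨s, rfl, rfl⟩, h'⟩ |
      ⟨a, b, h, c, _, d, _, ⟨_, t, rfl, rfl⟩, ⟨_, s, rfl, rfl⟩, h'⟩ |
      ⟨a, b, h, c, _, ⟨_, t, rfl, rfl⟩, h'⟩)
    · exact ⟨.bot, h, h'⟩
    · exact ⟨.eq t s, h, h'⟩
    · exact ⟨.le t s, h, h'⟩
    · exact ⟨.imp t s, h, h'⟩
    · exact ⟨.all a t, h, h'⟩

/-- term for the code of an implication -/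
def tI (a b : Tm) : Tm := ndT (Tm.num 8) (ndT a b)
/-- term for the code of a universal formula -/
def tA (a b : Tm) : Tm := ndT (Tm.num 9) (ndT a b)
/-- term for the code of an equation -/
def tE (a b : Tm) : Tm := ndT (Tm.num 6) (ndT a b)
/-- term for the code of an inequality -/
def tL (a b : Tm) : Tm := ndT (Tm.num 7) (ndT a b)

/-! ### Codes and substitution: bounds -/

lemma tc_zero_le (x : ℕ) (h : 3 ≤ x) : tc .zero ≤ x := by simpa [tc, nd] using h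

lemma three_le_tc (t : Tm) : 1 ≤ tc t := by cases t <;> exact nd_pos _ _

lemma tc_le_tc_sub {t : Tm} {k : ℕ} {r : Tm} (h : t.Has k) : tc r ≤ tc (t.sub k r) := by
  induction t with
  | var j => simp only [Tm.Has] at h; subst h; simp [Tm.sub]
  | zero => exact absurd h (by simp [Tm.Has])
  | succ t ih => exact (ih h).trans (by simp only [Tm.sub, tc]; exact (lt_nd_r _ _).le)
  | add t s iht ihs =>
    rcases h with h | h
    · exact (iht h).trans (by simp only [Tm.sub, tc]; exact (lt_nd2_l _ _ _).le)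
    · exact (ihs h).trans (by simp only [Tm.sub, tc]; exact (lt_nd2_r _ _ _).le)
  | mul t s iht ihs =>
    rcases h with h | h
    · exact (iht h).trans (by simp only [Tm.sub, tc]; exact (lt_nd2_l _ _ _).le)
    · exact (ihs h).trans (by simp only [Tm.sub, tc]; exact (lt_nd2_r _ _ _).le)

lemma tc_le_fc_sub {φ : Fm} {k : ℕ} {r : Tm} (h : φ.Free k) : tc r ≤ fc (φ.sub k r) := by
  induction φ with
  | bot => exact absurd h (by simp [Fm.Free])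
  | eq t s =>
    rcases h with h | h
    · exact (tc_le_tc_sub h).trans (by simp only [Fm.sub, fc]; exact (lt_nd2_l _ _ _).le)
    · exact (tc_le_tc_sub h).trans (by simp only [Fm.sub, fc]; exact (lt_nd2_r _ _ _).le)
  | le t s =>
    rcases h with h | h
    · exact (tc_le_tc_sub h).trans (by simp only [Fm.sub, fc]; exact (lt_nd2_l _ _ _).le)
    · exact (tc_le_tc_sub h).trans (by simp only [Fm.sub, fc]; exact (lt_nd2_r _ _ _).le)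
  | imp φ ψ ih1 ih2 =>
    rcases h with h | h
    · exact (ih1 h).trans (by simp only [Fm.sub, fc]; exact (lt_nd2_l _ _ _).le)
    · exact (ih2 h).trans (by simp only [Fm.sub, fc]; exact (lt_nd2_r _ _ _).le)
  | all j φ ih =>
    exact (ih h.2).trans (by simp only [Fm.sub, if_neg h.1, fc]; exact (lt_nd2_r _ _ _).le)

lemma free_le_tc {t : Tm} {k : ℕ} (h : t.Has k) : k ≤ tc t := by
  induction t with
  | var j => simp only [Tm.Has] at h; subst h; exact (lt_nd_r _ _).le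
  | zero => exact absurd h (by simp [Tm.Has])
  | succ t ih => exact (ih h).trans (lt_nd_r _ _).le
  | add t s iht ihs =>
    rcases h with h | h
    · exact (iht h).trans (lt_nd2_l _ _ _).le
    · exact (ihs h).trans (lt_nd2_r _ _ _).le
  | mul t s iht ihs =>
    rcases h with h | h
    · exact (iht h).trans (lt_nd2_l _ _ _).le
    · exact (ihs h).trans (lt_nd2_r _ _ _).le

lemma free_le_fc {φ : Fm} {k : ℕ} (h : φ.Free k) : k ≤ fc φ := by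
  induction φ with
  | bot => exact absurd h (by simp [Fm.Free])
  | eq t s =>
    rcases h with h | h
    · exact (free_le_tc h).trans (lt_nd2_l _ _ _).le
    · exact (free_le_tc h).trans (lt_nd2_r _ _ _).le
  | le t s =>
    rcases h with h | h
    · exact (free_le_tc h).trans (lt_nd2_l _ _ _).le
    · exact (free_le_tc h).trans (lt_nd2_r _ _ _).le
  | imp φ ψ ih1 ih2 =>
    rcases h with h | h
    · exact (ih1 h).trans (lt_nd2_l _ _ _).le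
    · exact (ih2 h).trans (lt_nd2_r _ _ _).le
  | all j φ ih => exact (ih h.2).trans (lt_nd2_r _ _ _).le

/-- AxR, part `k` -/
def ψ9a : BF := m2 0 8 4 5 (m2 5 8 6 7 ((eq (x 7) (x 4)).and ((rel 1 4 1 2 3).and
  (rel 1 6 1 2 3))))
/-- AxR, part `s` -/
def ψ9b : BF := m2 0 8 4 5 (m2 4 8 6 7 (m2 7 8 8 9 ((eq (x 5) (tI (tI (x 6) (x 8))
  (tI (x 6) (x 9)))).and ((rel 1 6 1 2 3).and ((rel 1 8 1 2 3).and (rel 1 9 1 2 3))))))
/-- AxR, part `dne` -/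
def ψ9c : BF := m2 0 8 4 5 ((eq (x 4) (tI (tI (x 5) (ndT (Tm.num 5) (Tm.num 0)))
    (ndT (Tm.num 5) (Tm.num 0)))).and (rel 1 5 1 2 3))
/-- AxR, part `inst` -/
def ψ9d : BF := m2 0 8 4 5 (m2 4 9 6 7 (bex 8 0 ((rel 6 7 6 8 3).and (rel 5 7 6 8 5))))
/-- AxR, part `dist` -/
def ψ9e : BF := m2 0 8 4 5 (m2 4 9 6 7 (m2 7 8 8 9 ((eq (x 5) (tI (x 8) (tA (x 6) (x 9)))).and
    ((rel 1 8 1 2 3).and ((rel 1 9 1 2 3).and (neg (rel 3 8 6 2 3)))))))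
/-- AxR, part `refl` -/
def ψ9f : BF := m2 0 6 4 5 ((eq (x 5) (x 4)).and (rel 0 4 1 2 3))
/-- AxR, part `congS` -/
def ψ9g : BF := m2 0 8 4 5 (m2 4 6 6 7 ((eq (x 5) (tE (ndT (Tm.num 2) (x 6))
    (ndT (Tm.num 2) (x 7)))).and ((rel 0 6 1 2 3).and (rel 0 7 1 2 3))))
/-- AxR, parts with two equations -/
def ψ9h : BF := m2 0 8 4 5 (m2 4 6 6 7 (m2 5 8 8 9 (m2 8 6 10 11
    ((rel 0 6 1 2 3).and ((rel 0 7 1 2 3).and ((rel 0 10 1 2 3).and ((rel 0 11 1 2 3).and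
    ((eq (x 9) (tE (ndT (Tm.num 3) (ndT (x 6) (x 10))) (ndT (Tm.num 3) (ndT (x 7) (x 11))))).or
    ((eq (x 9) (tE (ndT (Tm.num 4) (ndT (x 6) (x 10))) (ndT (Tm.num 4) (ndT (x 7) (x 11))))).or
    ((eq (x 9) (tI (tE (x 6) (x 10)) (tE (x 7) (x 11)))).or
    (eq (x 9) (tI (tL (x 6) (x 10)) (tL (x 7) (x 11)))))))))))))) 

/-- AxR -/
def ψ9 : BF := ψ9a.or (ψ9b.or (ψ9c.or (ψ9d.or (ψ9e.or (ψ9f.or (ψ9g.or ψ9h))))))

lemma ψ9_ok : ψ9.Ok 9 := by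
  simp [ψ9, ψ9a, ψ9b, ψ9c, ψ9d, ψ9e, ψ9f, ψ9g, ψ9h, Ok]

variable {S : ℕ → ℕ → ℕ → ℕ → Prop}

lemma ψ9a_iff (e : ℕ → ℕ) (h1 : ∀ a b c d, R 1 a b c d ↔ IsF a) : ψ9a.ev R S e ↔
    ∃ φ ψ : Fm, e 0 = fc (.imp φ (.imp ψ φ)) := by
  simp (disch := decide) only [ψ9a, m2_ev, ev_and, ev_eq, ev_rel, Tm.val, update_self,
    update_of_ne, h1]
  constructor
  · rintro ⟨_, _, h, _, _, rfl, rfl, ⟨φ, rfl⟩, ψ, rfl⟩
    exact ⟨φ, ψ, h⟩
  · rintro ⟨φ, ψ, h⟩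
    exact ⟨_, _, h, _, _, rfl, rfl, ⟨φ, rfl⟩, ψ, rfl⟩

lemma ψ9b_iff (e : ℕ → ℕ) (h1 : ∀ a b c d, R 1 a b c d ↔ IsF a) : ψ9b.ev R S e ↔
    ∃ φ ψ χ : Fm, e 0 = fc (.imp (.imp φ (.imp ψ χ)) (.imp (.imp φ ψ) (.imp φ χ))) := by
  simp (disch := decide) only [ψ9b, m2_ev, ev_and, ev_eq, ev_rel, Tm.val, update_self,
    update_of_ne, h1, tI, val_ndT, Tm.val_num]
  constructor
  · rintro ⟨_, _, h, _, _, rfl, _, _, rfl, rfl, ⟨φ, rfl⟩, ⟨ψ, rfl⟩, χ, rfl⟩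
    exact ⟨φ, ψ, χ, h⟩
  · rintro ⟨φ, ψ, χ, h⟩
    exact ⟨_, _, h, _, _, rfl, _, _, rfl, rfl, ⟨φ, rfl⟩, ⟨ψ, rfl⟩, χ, rfl⟩

lemma ψ9c_iff (e : ℕ → ℕ) (h1 : ∀ a b c d, R 1 a b c d ↔ IsF a) : ψ9c.ev R S e ↔
    ∃ φ : Fm, e 0 = fc (.imp (.imp (.imp φ .bot) .bot) φ) := by
  simp (disch := decide) only [ψ9c, m2_ev, ev_and, ev_eq, ev_rel, Tm.val, update_self,
    update_of_ne, h1, tI, val_ndT, Tm.val_num]
  constructor
  · rintro ⟨_, _, h, rfl, φ, rfl⟩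
    exact ⟨φ, h⟩
  · rintro ⟨φ, h⟩
    exact ⟨_, _, h, rfl, φ, rfl⟩

lemma ψ9d_iff (e : ℕ → ℕ) (h5 : ∀ a b c d, R 5 a b c d ↔ SbF a b c d)
    (h6 : ∀ a b c d, R 6 a b c d ↔ FFR a b c) : ψ9d.ev R S e ↔
    ∃ (j : ℕ) (φ : Fm) (t : Tm), φ.FreeFor j t ∧ e 0 = fc (.imp (.all j φ) (φ.sub j t)) := by
  simp (disch := decide) only [ψ9d, m2_ev, ev_bex, ev_and, ev_eq, ev_rel, Tm.val, update_self,
    update_of_ne, h5, h6, tI, val_ndT, Tm.val_num]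
  constructor
  · rintro ⟨_, _, h, j, _, rfl, _, _, ⟨φ, t, rfl, rfl, hf⟩, φ', t', h1, h2, rfl⟩
    obtain rfl := fc_inj h1
    obtain rfl := tc_inj h2
    exact ⟨j, φ, t, hf, h⟩
  · rintro ⟨j, φ, t, hf, h⟩
    rw [h]
    refine ⟨_, _, rfl, j, fc φ, rfl, ?_⟩
    by_cases hj : φ.Free j
    · refine ⟨tc t, ?_, ⟨φ, t, rfl, rfl, hf⟩, φ, t, rfl, rfl, rfl⟩
      exact (tc_le_fc_sub hj).trans (lt_nd2_r _ _ _).le
    · refine ⟨tc .zero, ?_, ⟨φ, .zero, rfl, rfl, ?_⟩, φ, .zero, rfl, rfl, ?_⟩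
      · have h1 := lt_nd2_l 8 (fc (Fm.all j φ)) (fc (φ.sub j t))
        have h2 : 9 < fc (Fm.all j φ) := lt_nd_l _ _
        have h3 : tc .zero = 3 := by simp [tc, nd]
        rw [h3]
        show 3 ≤ nd 8 (nd (fc (Fm.all j φ)) (fc (φ.sub j t)))
        omega
      · exact Fm.freeFor_of_closed (fun j => by simp [Tm.Has]) φ
      · rw [Fm.sub_of_not_free hj, Fm.sub_of_not_free hj]

lemma ψ9e_iff (e : ℕ → ℕ) (h1 : ∀ a b c d, R 1 a b c d ↔ IsF a)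
    (h3 : ∀ a b c d, R 3 a b c d ↔ FreeR a b) : ψ9e.ev R S e ↔
    ∃ (j : ℕ) (φ ψ : Fm), ¬ φ.Free j ∧
      e 0 = fc (.imp (.all j (.imp φ ψ)) (.imp φ (.all j ψ))) := by
  simp (disch := decide) only [ψ9e, m2_ev, ev_and, ev_neg, ev_eq, ev_rel, Tm.val, update_self,
    update_of_ne, h1, h3, tI, tA, val_ndT, Tm.val_num]
  constructor
  · rintro ⟨_, _, h, j, _, rfl, _, _, rfl, rfl, ⟨φ, rfl⟩, ⟨ψ, rfl⟩, hf⟩
    exact ⟨j, φ, ψ, fun h' => hf ⟨φ, rfl, h'⟩, h⟩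
  · rintro ⟨j, φ, ψ, hf, h⟩
    refine ⟨_, _, h, j, _, rfl, _, _, rfl, rfl, ⟨φ, rfl⟩, ⟨ψ, rfl⟩, ?_⟩
    rintro ⟨φ', h1, h2⟩
    rw [← fc_inj h1] at h2
    exact hf h2

lemma ψ9f_iff (e : ℕ → ℕ) (h0 : ∀ a b c d, R 0 a b c d ↔ IsT a) : ψ9f.ev R S e ↔
    ∃ t : Tm, e 0 = fc (.eq t t) := by
  simp (disch := decide) only [ψ9f, m2_ev, ev_and, ev_eq, ev_rel, Tm.val, update_self,
    update_of_ne, h0]
  constructor
  · rintro ⟨_, _, h, rfl, t, rfl⟩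
    exact ⟨t, h⟩
  · rintro ⟨t, h⟩
    exact ⟨_, _, h, rfl, t, rfl⟩

lemma ψ9g_iff (e : ℕ → ℕ) (h0 : ∀ a b c d, R 0 a b c d ↔ IsT a) : ψ9g.ev R S e ↔
    ∃ t s : Tm, e 0 = fc (.imp (.eq t s) (.eq (.succ t) (.succ s))) := by
  simp (disch := decide) only [ψ9g, m2_ev, ev_and, ev_eq, ev_rel, Tm.val, update_self,
    update_of_ne, h0, tE, val_ndT, Tm.val_num]
  constructor
  · rintro ⟨_, _, h, _, _, rfl, rfl, ⟨t, rfl⟩, s, rfl⟩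
    exact ⟨t, s, h⟩
  · rintro ⟨t, s, h⟩
    exact ⟨_, _, h, _, _, rfl, rfl, ⟨t, rfl⟩, s, rfl⟩

lemma ψ9h_iff (e : ℕ → ℕ) (h0 : ∀ a b c d, R 0 a b c d ↔ IsT a) : ψ9h.ev R S e ↔
    ∃ t s t' s' : Tm,
      (e 0 = fc (.imp (.eq t s) (.imp (.eq t' s') (.eq (.add t t') (.add s s'))))) ∨
      (e 0 = fc (.imp (.eq t s) (.imp (.eq t' s') (.eq (.mul t t') (.mul s s'))))) ∨
      (e 0 = fc (.imp (.eq t s) (.imp (.eq t' s') (.imp (.eq t t') (.eq s s'))))) ∨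
      (e 0 = fc (.imp (.eq t s) (.imp (.eq t' s') (.imp (.le t t') (.le s s'))))) := by
  simp (disch := decide) only [ψ9h, m2_ev, ev_and, ev_or, ev_eq, ev_rel, Tm.val, update_self,
    update_of_ne, h0, tE, tI, tL, val_ndT, Tm.val_num]
  constructor
  · rintro ⟨_, _, h, _, _, rfl, _, _, rfl, _, _, rfl, ⟨t, rfl⟩, ⟨s, rfl⟩, ⟨t', rfl⟩, ⟨s', rfl⟩,
      rfl | rfl | rfl | rfl⟩
    · exact ⟨t, s, t', s', Or.inl h⟩
    · exact ⟨t, s, t', s', Or.inr (Or.inl h)⟩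
    · exact ⟨t, s, t', s', Or.inr (Or.inr (Or.inl h))⟩
    · exact ⟨t, s, t', s', Or.inr (Or.inr (Or.inr h))⟩
  · rintro ⟨t, s, t', s', h | h | h | h⟩
    · exact ⟨_, _, h, _, _, rfl, _, _, rfl, _, _, rfl, ⟨t, rfl⟩, ⟨s, rfl⟩, ⟨t', rfl⟩,
        ⟨s', rfl⟩, Or.inl rfl⟩
    · exact ⟨_, _, h, _, _, rfl, _, _, rfl, _, _, rfl, ⟨t, rfl⟩, ⟨s, rfl⟩, ⟨t', rfl⟩,
        ⟨s', rfl⟩, Or.inr (Or.inl rfl)⟩
    · exact ⟨_, _, h, _, _, rfl, _, _, rfl, _, _, rfl, ⟨t, rfl⟩, ⟨s, rfl⟩, ⟨t', rfl⟩,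
        ⟨s', rfl⟩, Or.inr (Or.inr (Or.inl rfl))⟩
    · exact ⟨_, _, h, _, _, rfl, _, _, rfl, _, _, rfl, ⟨t, rfl⟩, ⟨s, rfl⟩, ⟨t', rfl⟩,
        ⟨s', rfl⟩, Or.inr (Or.inr (Or.inr rfl))⟩

lemma ψ9_iff (e : ℕ → ℕ) (h0 : ∀ a b c d, R 0 a b c d ↔ IsT a)
    (h1 : ∀ a b c d, R 1 a b c d ↔ IsF a)
    (h3 : ∀ a b c d, R 3 a b c d ↔ FreeR a b) (h5 : ∀ a b c d, R 5 a b c d ↔ SbF a b c d)
    (h6 : ∀ a b c d, R 6 a b c d ↔ FFR a b c) :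
    AxR (e 0) ↔ ψ9.ev R (fun a _ _ _ => AxR a) e := by
  rw [ψ9, ev_or, ev_or, ev_or, ev_or, ev_or, ev_or, ev_or, ψ9a_iff e h1, ψ9b_iff e h1,
    ψ9c_iff e h1, ψ9d_iff e h5 h6, ψ9e_iff e h1 h3, ψ9f_iff e h0, ψ9g_iff e h0, ψ9h_iff e h0]
  constructor
  · rintro ⟨φ, h, hA⟩
    cases hA with
    | k φ ψ => exact Or.inl ⟨φ, ψ, h⟩
    | s φ ψ χ => exact Or.inr (Or.inl ⟨φ, ψ, χ, h⟩)
    | dne φ => exact Or.inr (Or.inr (Or.inl ⟨φ, h⟩))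
    | inst j φ t hf => exact Or.inr (Or.inr (Or.inr (Or.inl ⟨j, φ, t, hf, h⟩)))
    | dist j φ ψ hf => exact Or.inr (Or.inr (Or.inr (Or.inr (Or.inl ⟨j, φ, ψ, hf, h⟩))))
    | refl t => exact Or.inr (Or.inr (Or.inr (Or.inr (Or.inr (Or.inl ⟨t, h⟩)))))
    | congS t s =>
      exact Or.inr (Or.inr (Or.inr (Or.inr (Or.inr (Or.inr (Or.inl ⟨t, s, h⟩))))))
    | congAdd t s t' s' =>
      exact Or.inr (Or.inr (Or.inr (Or.inr (Or.inr (Or.inr (Or.inr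
        ⟨t, s, t', s', Or.inl h⟩))))))
    | congMul t s t' s' =>
      exact Or.inr (Or.inr (Or.inr (Or.inr (Or.inr (Or.inr (Or.inr
        ⟨t, s, t', s', Or.inr (Or.inl h)⟩))))))
    | congEq t s t' s' =>
      exact Or.inr (Or.inr (Or.inr (Or.inr (Or.inr (Or.inr (Or.inr
        ⟨t, s, t', s', Or.inr (Or.inr (Or.inl h))⟩))))))
    | congLe t s t' s' =>
      exact Or.inr (Or.inr (Or.inr (Or.inr (Or.inr (Or.inr (Or.inr
        ⟨t, s, t', s', Or.inr (Or.inr (Or.inr h))⟩))))))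
  · rintro (⟨φ, ψ, h⟩ | ⟨φ, ψ, χ, h⟩ | ⟨φ, h⟩ | ⟨j, φ, t, hf, h⟩ | ⟨j, φ, ψ, hf, h⟩ | ⟨t, h⟩ |
      ⟨t, s, h⟩ | ⟨t, s, t', s', h | h | h | h⟩)
    · exact ⟨_, h, Ax.k φ ψ⟩
    · exact ⟨_, h, Ax.s φ ψ χ⟩
    · exact ⟨_, h, Ax.dne φ⟩
    · exact ⟨_, h, Ax.inst j φ t hf⟩
    · exact ⟨_, h, Ax.dist j φ ψ hf⟩
    · exact ⟨_, h, Ax.refl t⟩
    · exact ⟨_, h, Ax.congS t s⟩
    · exact ⟨_, h, Ax.congAdd t s t' s'⟩
    · exact ⟨_, h, Ax.congMul t s t' s'⟩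
    · exact ⟨_, h, Ax.congEq t s t' s'⟩
    · exact ⟨_, h, Ax.congLe t s t' s'⟩

end Helper31Con

end

section

/-!
# The syntactic relations: lists and proofs
-/

namespace Helper31Con

open Function Filter BF

variable {R : ℕ → ℕ → ℕ → ℕ → ℕ → Prop}

/-- IsL -/
def ψ10 : BF := (eq (x 0) (Tm.num 0)).or (mp 0 4 5 ((rel 1 4 1 2 3).and (slf 5 1 2 3)))

lemma ψ10_ok : ψ10.Ok 10 := by simp [ψ10, Ok]

lemma ψ10_iff (e : ℕ → ℕ) (h1 : ∀ a b c d, R 1 a b c d ↔ IsF a) :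
    IsL (e 0) ↔ ψ10.ev R (fun a _ _ _ => IsL a) e := by
  simp (disch := decide) only [ψ10, mp_ev, ev_and, ev_or, ev_eq, ev_rel, ev_slf, Tm.val,
    update_self, update_of_ne, h1, Tm.val_num]
  constructor
  · rintro ⟨l, h⟩
    rw [h]
    cases l with
    | nil => exact Or.inl rfl
    | cons φ l => exact Or.inr ⟨fc φ, lc l, rfl, ⟨φ, rfl⟩, by simp [lc], l, rfl⟩
  · rintro (h | ⟨_, _, h, ⟨φ, rfl⟩, _, l, rfl⟩)
    · exact ⟨[], h⟩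
    · exact ⟨φ :: l, h⟩

/-- LSR -/
def ψ11 : BF := (eq (x 0) (Tm.num 0)).or (mp 0 4 5 ((rel 1 4 1 2 3).and
  ((ball 6 4 (neg (rel 3 4 6 2 3))).and (slf 5 1 2 3))))

lemma ψ11_ok : ψ11.Ok 11 := by simp [ψ11, Ok]

lemma ψ11_iff (e : ℕ → ℕ) (h1 : ∀ a b c d, R 1 a b c d ↔ IsF a)
    (h3 : ∀ a b c d, R 3 a b c d ↔ FreeR a b) :
    LSR (e 0) ↔ ψ11.ev R (fun a _ _ _ => LSR a) e := by
  simp (disch := decide) only [ψ11, mp_ev, ev_and, ev_or, ev_neg, ev_ball, ev_eq, ev_rel, ev_slf,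
    Tm.val, update_self, update_of_ne, h1, h3, Tm.val_num]
  constructor
  · rintro ⟨l, h, hl⟩
    rw [h]
    cases l with
    | nil => exact Or.inl rfl
    | cons φ l =>
      refine Or.inr ⟨fc φ, lc l, rfl, ⟨φ, rfl⟩, ?_, by simp [lc], l, rfl,
        fun ψ hψ => hl ψ (List.mem_cons_of_mem _ hψ)⟩
      rintro b _ ⟨φ', h1, h2⟩
      rw [← fc_inj h1] at h2
      exact hl φ List.mem_cons_self b h2
  · rintro (h | ⟨_, _, h, ⟨φ, rfl⟩, hb, _, l, rfl, hl⟩)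
    · exact ⟨[], h, by simp⟩
    · refine ⟨φ :: l, h, ?_⟩
      intro ψ hψ
      rcases List.mem_cons.mp hψ with rfl | hψ
      · intro k hk
        exact hb k (free_le_fc hk) ⟨ψ, rfl, hk⟩
      · exact hl ψ hψ

/-- MeR -/
def ψ12 : BF := mp 0 4 5 ((rel 1 4 1 2 3).and (((eq (x 4) (x 1)).and (rel 10 5 1 2 3)).or
  (slf 5 1 2 3)))

lemma ψ12_ok : ψ12.Ok 12 := by simp [ψ12, Ok]

lemma ψ12_iff (e : ℕ → ℕ) (h1 : ∀ a b c d, R 1 a b c d ↔ IsF a)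
    (h10 : ∀ a b c d, R 10 a b c d ↔ IsL a) :
    MeR (e 0) (e 1) ↔ ψ12.ev R (fun a b _ _ => MeR a b) e := by
  simp (disch := decide) only [ψ12, mp_ev, ev_and, ev_or, ev_eq, ev_rel, ev_slf,
    Tm.val, update_self, update_of_ne, h1, h10]
  constructor
  · rintro ⟨l, φ, h, hφ, hl⟩
    rw [h]
    cases l with
    | nil => exact absurd hl (by simp)
    | cons ψ l =>
      refine ⟨fc ψ, lc l, rfl, ⟨ψ, rfl⟩, ?_⟩
      rcases List.mem_cons.mp hl with rfl | hl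
      · exact Or.inl ⟨hφ.symm, l, rfl⟩
      · exact Or.inr ⟨by simp [lc], l, φ, rfl, hφ, hl⟩
  · rintro ⟨_, _, h, ⟨ψ, rfl⟩, ⟨h', l, rfl⟩ | ⟨_, l, φ, rfl, h', hl⟩⟩
    · exact ⟨ψ :: l, ψ, h, h'.symm, List.mem_cons_self⟩
    · exact ⟨ψ :: l, φ, h, h', List.mem_cons_of_mem _ hl⟩

/-- PfR -/
def ψ13 : BF := ((eq (x 0) (Tm.num 0)).and (rel 10 1 1 2 3)).or (mp 0 4 5 ((slf 5 1 2 3).and
  ((rel 1 4 1 2 3).and ((rel 12 1 4 2 3).or ((rel 9 4 1 2 3).or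
  ((bex 6 5 (bex 7 5 ((eq (x 7) (tI (x 6) (x 4))).and ((rel 12 5 6 2 3).and
  (rel 12 5 7 2 3))))).or (m2 4 9 6 7 (rel 12 5 7 2 3))))))))

lemma ψ13_ok : ψ13.Ok 13 := by simp [ψ13, Ok]

lemma meR_iff {l : List Fm} {φ : Fm} : MeR (lc l) (fc φ) ↔ φ ∈ l := by
  constructor
  · rintro ⟨l', φ', h1, h2, h3⟩
    rw [lc_inj h1, fc_inj h2]; exact h3
  · intro h; exact ⟨l, φ, rfl, rfl, h⟩

lemma mem_le_lc {l : List Fm} {φ : Fm} (h : φ ∈ l) : fc φ ≤ lc l := by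
  induction l with
  | nil => exact absurd h (by simp)
  | cons ψ l ih =>
    rcases List.mem_cons.mp h with rfl | h
    · exact (lt_nd_l _ _).le
    · exact (ih h).trans (lt_nd_r _ _).le

lemma ψ13_iff (e : ℕ → ℕ) (h1 : ∀ a b c d, R 1 a b c d ↔ IsF a)
    (h9 : ∀ a b c d, R 9 a b c d ↔ AxR a)
    (h10 : ∀ a b c d, R 10 a b c d ↔ IsL a) (h12 : ∀ a b c d, R 12 a b c d ↔ MeR a b) :
    PfR (e 0) (e 1) ↔ ψ13.ev R (fun a b _ _ => PfR a b) e := by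
  simp (disch := decide) only [ψ13, mp_ev, m2_ev, ev_bex, ev_and, ev_or, ev_eq, ev_rel, ev_slf,
    Tm.val, update_self, update_of_ne, h1, h9, h10, h12, Tm.val_num, tI, val_ndT]
  constructor
  · rintro ⟨l, t, h, ht, hp⟩
    rw [h]
    cases l with
    | nil => exact Or.inl ⟨rfl, t, ht⟩
    | cons ψ l =>
      refine Or.inr ⟨fc ψ, lc l, rfl, ⟨by simp [lc], l, t, rfl, ht, hp.1⟩, ⟨ψ, rfl⟩, ?_⟩
      rcases hp.2 with h' | h' | ⟨χ, h', h''⟩ | ⟨j, χ, h', h''⟩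
      · left; rw [ht]; exact meR_iff.mpr h'
      · exact Or.inr (Or.inl ⟨ψ, rfl, h'⟩)
      · exact Or.inr (Or.inr (Or.inl ⟨fc χ, mem_le_lc h', _, mem_le_lc h'', rfl,
          meR_iff.mpr h', meR_iff.mpr h''⟩))
      · subst h''
        exact Or.inr (Or.inr (Or.inr ⟨j, fc χ, rfl, meR_iff.mpr h'⟩))
  · rintro (⟨h, t, ht⟩ | ⟨_, _, h, ⟨_, l, t, rfl, ht, hp⟩, ⟨ψ, rfl⟩, h'⟩)
    · exact ⟨[], t, h, ht, trivial⟩
    · refine ⟨ψ :: l, t, h, ht, hp, ?_⟩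
      rcases h' with h' | ⟨φ, h', h''⟩ | ⟨_, _, _, _, rfl, ⟨l', χ, h1, rfl, h3⟩, h''⟩ |
        ⟨j, _, h', l', χ, h1, rfl, h3⟩
      · rw [ht] at h'; exact Or.inl (meR_iff.mp h')
      · rw [fc_inj h']; exact Or.inr (Or.inl h'')
      · rw [← lc_inj h1] at h3
        exact Or.inr (Or.inr (Or.inl ⟨χ, h3, meR_iff.mp h''⟩))
      · rw [← lc_inj h1] at h3
        refine Or.inr (Or.inr (Or.inr ⟨j, χ, h3, ?_⟩))
        exact fc_inj h'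

/-- PLR -/
def ψ14 : BF := ((eq (x 0) (Tm.num 0)).and (eq (x 1) (Tm.num 0))).or (mp 0 4 5
  (bex 6 1 (bex 7 1 ((rel 8 4 6 2 3).and ((slf 5 7 2 3).and (eq (x 1) (Tm.add (x 6) (x 7))))))))

lemma ψ14_ok : ψ14.Ok 14 := by simp [ψ14, Ok]

lemma ψ14_iff (e : ℕ → ℕ) (h8 : ∀ a b c d, R 8 a b c d ↔ LnF a b) :
    PLR (e 0) (e 1) ↔ ψ14.ev R (fun a b _ _ => PLR a b) e := by
  simp (disch := decide) only [ψ14, mp_ev, ev_bex, ev_and, ev_or, ev_eq, ev_rel, ev_slf,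
    Tm.val, update_self, update_of_ne, h8, Tm.val_num]
  constructor
  · rintro ⟨l, h, hn⟩
    rw [h, hn]
    cases l with
    | nil => exact Or.inl ⟨rfl, rfl⟩
    | cons φ l =>
      exact Or.inr ⟨fc φ, lc l, rfl, φ.len, by simp, plen l, by simp, ⟨φ, rfl, rfl⟩,
        ⟨by simp [lc], l, rfl, rfl⟩, by simp⟩
  · rintro (⟨h, h'⟩ | ⟨_, _, h, _, _, _, _, ⟨φ, rfl, rfl⟩, ⟨_, l, rfl, rfl⟩, h'⟩)
    · exact ⟨[], h, h'⟩
    · exact ⟨φ :: l, h, by rw [h']; simp⟩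

/-- NR -/
def ψ15 : BF := ball 4 0 (ball 5 2 (neg ((rel 13 4 1 2 3).and ((rel 14 4 5 2 3).and
  (bex 6 4 (eq (x 4) (ndT (ndT (Tm.num 5) (Tm.num 0)) (x 6))))))))

lemma ψ15_ok : ψ15.Ok 15 := by simp [ψ15, Ok]

lemma ψ15_iff (e : ℕ → ℕ) (S : ℕ → ℕ → ℕ → ℕ → Prop) (h13 : ∀ a b c d, R 13 a b c d ↔ PfR a b)
    (h14 : ∀ a b c d, R 14 a b c d ↔ PLR a b) :
    NR (e 0) (e 1) (e 2) ↔ ψ15.ev R S e := by
  simp (disch := decide) only [ψ15, ev_ball, ev_neg, ev_bex, ev_and, ev_eq, ev_rel,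
    Tm.val, update_self, update_of_ne, h13, h14, Tm.val_num, val_ndT, NR]

/-! ### Codes are bounded by elementary functions of the length -/

lemma nd_le {a b M : ℕ} (ha : a ≤ M) (hb : b ≤ M) : nd a b ≤ (2 * M + 1) * (2 * M + 1) := by
  unfold nd; nlinarith

end Helper31Con

end

section

/-!
# The family of relations used in the construction
-/

namespace Helper31Con

open Function Filter

/-- The seeds `S(i)`. -/
def sd (g : ℕ → ℕ) (s₀ D : ℕ) : ℕ → ℕ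
  | 0 => s₀
  | i + 1 => tw (g^[D] (sd g s₀ D i)) (g^[D] (sd g s₀ D i))

/-- The nodes `x_{i,m}`. -/
def nod (g : ℕ → ℕ) (s₀ D i m : ℕ) : ℕ := g^[m] (sd g s₀ D i)

/-- Code of the formula `∀ x_2 (x_2 = c → ∀ x_b (x_b = v → ξ))`. -/
def thc (b c v ξ : ℕ) : ℕ :=
  nd 9 (nd 2 (nd 8 (nd (nd 6 (nd (nd 0 2) (tc (Tm.num c))))
    (nd 9 (nd b (nd 8 (nd (nd 6 (nd (nd 0 b) (tc (Tm.num v)))) ξ)))))))

/-- The `m`-th entry of a list of formulas. -/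
def NthR (P m y : ℕ) : Prop := ∃ (l : List Fm) (φ : Fm), P = lc l ∧ l[m]? = some φ ∧ y = fc φ

/-- The variable for the version at level `m`. -/
def bv (m : ℕ) : ℕ := 18 + 4 * m

/-- The variable for the index at level `m`. -/
def av (m : ℕ) : ℕ := 16 + 4 * m

/-- `z` is the code of the axioms `A_m^v` for the package `c`. -/
def CdA (m v c z : ℕ) : Prop := ∃ lb P ξ, c = nd lb P ∧ NthR P m ξ ∧ z = nd (thc (bv m) c v ξ) lb

/-- `z` is the code of `T_m^v` for the package `c`. -/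
def CdT (con : Fm) (m v c z : ℕ) : Prop :=
  ∃ z', CdA m v c z' ∧ z = nd (fc (.all 1 (con.sub 0 (Tm.num z')))) z'

/-- The family of relations. -/
def Rel (con : Fm) (g : ℕ → ℕ) (s₀ : ℕ) : ℕ → ℕ → ℕ → ℕ → ℕ → Prop
  | 0, a, _, _, _ => IsT a
  | 1, a, _, _, _ => IsF a
  | 2, a, b, _, _ => HasR a b
  | 3, a, b, _, _ => FreeR a b
  | 4, a, b, c, d => SbT a b c d
  | 5, a, b, c, d => SbF a b c d
  | 6, a, b, c, _ => FFR a b c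
  | 7, a, b, _, _ => LnT a b
  | 8, a, b, _, _ => LnF a b
  | 9, a, _, _, _ => AxR a
  | 10, a, _, _, _ => IsL a
  | 11, a, _, _, _ => LSR a
  | 12, a, b, _, _ => MeR a b
  | 13, a, b, _, _ => PfR a b
  | 14, a, b, _, _ => PLR a b
  | 15, a, b, c, _ => NR a b c
  | 16, a, b, _, _ => b = 2 ^ a
  | 17, a, b, c, _ => c = tw a b
  | 18, a, b, _, _ => b = g a
  | 19, a, b, c, _ => s₀ ≤ b ∧ c = g^[a] b
  | 20, a, b, c, _ => c = sd g s₀ b a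
  | 21, a, b, c, d => d = nod g s₀ c a b
  | 22, a, b, _, _ => b = tc (Tm.num a)
  | 23, a, b, c, _ => NthR a b c
  | 24, a, b, c, d => CdA a b c d
  | 25, a, b, c, d => CdT con a b c d
  | _, _, _, _, _ => False

/-- The defining bounded formulas. -/
def psi : ℕ → BF
  | 0 => ψ0
  | 1 => ψ1
  | 2 => ψ2
  | 3 => ψ3
  | 4 => ψ4
  | 5 => ψ5
  | 6 => ψ6
  | 7 => ψ7
  | 8 => ψ8
  | 9 => ψ9
  | 10 => ψ10
  | 11 => ψ11
  | 12 => ψ12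
  | 13 => ψ13
  | 14 => ψ14
  | 15 => ψ15
  | _ => BF.bot

lemma psi_ok {i : ℕ} (hi : i < 16) : (psi i).Ok i := by
  match i, hi with
  | 0, _ => exact ψ0_ok
  | 1, _ => exact ψ1_ok
  | 2, _ => exact ψ2_ok
  | 3, _ => exact ψ3_ok
  | 4, _ => exact ψ4_ok
  | 5, _ => exact ψ5_ok
  | 6, _ => exact ψ6_ok
  | 7, _ => exact ψ7_ok
  | 8, _ => exact ψ8_ok
  | 9, _ => exact ψ9_ok
  | 10, _ => exact ψ10_ok
  | 11, _ => exact ψ11_ok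
  | 12, _ => exact ψ12_ok
  | 13, _ => exact ψ13_ok
  | 14, _ => exact ψ14_ok
  | 15, _ => exact ψ15_ok
  | n + 16, h => exact absurd h (by omega)

variable {con : Fm} {g : ℕ → ℕ} {s₀ : ℕ}

lemma psi_iff {i : ℕ} (hi : i < 16) (e : ℕ → ℕ) : Rel con g s₀ i (e 0) (e 1) (e 2) (e 3) ↔
    (psi i).ev (Rel con g s₀) (Rel con g s₀ i) e := by
  have h0 : ∀ a b c d, Rel con g s₀ 0 a b c d ↔ IsT a := fun _ _ _ _ => Iff.rfl
  have h1 : ∀ a b c d, Rel con g s₀ 1 a b c d ↔ IsF a := fun _ _ _ _ => Iff.rfl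
  have h2 : ∀ a b c d, Rel con g s₀ 2 a b c d ↔ HasR a b := fun _ _ _ _ => Iff.rfl
  have h3 : ∀ a b c d, Rel con g s₀ 3 a b c d ↔ FreeR a b := fun _ _ _ _ => Iff.rfl
  have h4 : ∀ a b c d, Rel con g s₀ 4 a b c d ↔ SbT a b c d := fun _ _ _ _ => Iff.rfl
  have h5 : ∀ a b c d, Rel con g s₀ 5 a b c d ↔ SbF a b c d := fun _ _ _ _ => Iff.rfl
  have h6 : ∀ a b c d, Rel con g s₀ 6 a b c d ↔ FFR a b c := fun _ _ _ _ => Iff.rfl
  have h7 : ∀ a b c d, Rel con g s₀ 7 a b c d ↔ LnT a b := fun _ _ _ _ => Iff.rfl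
  have h8 : ∀ a b c d, Rel con g s₀ 8 a b c d ↔ LnF a b := fun _ _ _ _ => Iff.rfl
  have h9 : ∀ a b c d, Rel con g s₀ 9 a b c d ↔ AxR a := fun _ _ _ _ => Iff.rfl
  have h10 : ∀ a b c d, Rel con g s₀ 10 a b c d ↔ IsL a := fun _ _ _ _ => Iff.rfl
  have h12 : ∀ a b c d, Rel con g s₀ 12 a b c d ↔ MeR a b := fun _ _ _ _ => Iff.rfl
  have h13 : ∀ a b c d, Rel con g s₀ 13 a b c d ↔ PfR a b := fun _ _ _ _ => Iff.rfl
  have h14 : ∀ a b c d, Rel con g s₀ 14 a b c d ↔ PLR a b := fun _ _ _ _ => Iff.rfl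
  match i, hi with
  | 0, _ => exact ψ0_iff e
  | 1, _ => exact ψ1_iff e h0
  | 2, _ => exact ψ2_iff e h0
  | 3, _ => exact ψ3_iff e h0 h1 h2
  | 4, _ => exact ψ4_iff e h0
  | 5, _ => exact ψ5_iff e h0 h1 h4
  | 6, _ => exact ψ6_iff e h0 h1 h2 h3
  | 7, _ => exact ψ7_iff e
  | 8, _ => exact ψ8_iff e h7
  | 9, _ => exact ψ9_iff e h0 h1 h3 h5 h6
  | 10, _ => exact ψ10_iff e h1
  | 11, _ => exact ψ11_iff e h1 h3
  | 12, _ => exact ψ12_iff e h1 h10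
  | 13, _ => exact ψ13_iff e h1 h9 h10 h12
  | 14, _ => exact ψ14_iff e h8
  | 15, _ => exact ψ15_iff e _ h13 h14
  | n + 16, h => exact absurd h (by omega)

/-- The syntactic relations are decided with elementary cost. -/
lemma dec_all (I : Iface (Rel con g s₀)) : ∃ f, EB f ∧ ∀ᶠ B in rich, ∀ N, ∀ j < 16,
    DecR I B (f N) N j := by
  have key : ∀ i ≤ 16, ∃ f, EB f ∧ ∀ᶠ B in rich, ∀ N, ∀ j < i, DecR I B (f N) N j := by
    intro i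
    induction i with
    | zero =>
      intro _
      exact ⟨fun _ => 0, EB.const 0, Eventually.of_forall fun B N j hj => by omega⟩
    | succ i ih =>
      intro hi
      exact dec_rec I (psi_ok (by omega)) (psi_iff (by omega)) (ih (by omega))
  exact key 16 le_rfl

/-! ### Codes are bounded by elementary functions of the length -/

lemma nd_le_pow {a b u : ℕ} (ha : a ≤ 2 ^ u) (hb : b ≤ 2 ^ u) : nd a b ≤ 2 ^ (2 * u + 4) := by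
  have h1 := nd_le ha hb
  have h2 : 1 ≤ 2 ^ u := Nat.one_le_two_pow
  have h3 : 2 ^ (2 * u + 4) = 16 * (2 ^ u * 2 ^ u) := by
    rw [pow_add, two_mul, pow_add]; ring
  rw [h3]
  nlinarith

/-- Bound for codes. -/
def cb (n : ℕ) : ℕ := 2 ^ (2 ^ (4 * n + 4))

lemma cb_mono {a b : ℕ} (h : a ≤ b) : cb a ≤ cb b := by
  unfold cb
  exact Nat.pow_le_pow_right (by omega) (Nat.pow_le_pow_right (by omega) (by omega))

lemma cb_eb : EB cb := by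
  have h1 : EB (fun n => 2 ^ (4 * n + 4)) :=
    EB.comp (f := fun N => 2 ^ N) EB.pow2 (((EB.const 4).mul EB.id).add (EB.const 4))
  exact EB.comp (f := fun N => 2 ^ N) EB.pow2 h1

lemma nd2_le_cb {t a b n : ℕ} (ht : t ≤ 9) (ha : a ≤ cb n) (hb : b ≤ cb n) :
    nd t (nd a b) ≤ cb (n + 1) := by
  unfold cb at *
  set u := 2 ^ (4 * n + 4) with hu
  have h1 := nd_le_pow ha hb
  have hu16 : 16 ≤ u := by
    rw [hu]
    calc 16 = 2 ^ 4 := by norm_num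
      _ ≤ 2 ^ (4 * n + 4) := Nat.pow_le_pow_right (by omega) (by omega)
  have h2 : t ≤ 2 ^ (2 * u + 4) := by
    refine ht.trans ?_
    calc 9 ≤ 2 ^ 4 := by norm_num
      _ ≤ 2 ^ (2 * u + 4) := Nat.pow_le_pow_right (by omega) (by omega)
  refine (nd_le_pow h2 h1).trans (Nat.pow_le_pow_right (by omega) ?_)
  have h3 : 2 ^ (4 * (n + 1) + 4) = 16 * u := by
    rw [hu, show 4 * (n + 1) + 4 = (4 * n + 4) + 4 by ring, pow_add]; ring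
  rw [h3]; omega

lemma nd1_le_cb {t a n : ℕ} (ht : t ≤ 9) (ha : a ≤ cb n) : nd t a ≤ cb (n + 1) := by
  refine le_trans ?_ (nd2_le_cb ht ha ha)
  have := lt_nd_l a a
  unfold nd
  nlinarith [lt_nd_l' a a, (show nd a a = (a + a) * (a + a) + a + 1 by unfold nd; rfl)]

lemma le_cb (n : ℕ) : n ≤ cb n := by
  have h1 : n < 2 ^ n := Nat.lt_two_pow_self
  have h2 : n < 2 ^ (4 * n + 4) := h1.trans_le (Nat.pow_le_pow_right (by omega) (by omega))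
  have h3 : 2 ^ (4 * n + 4) < 2 ^ (2 ^ (4 * n + 4)) := Nat.lt_two_pow_self
  unfold cb; omega

lemma nine_le_cb (n : ℕ) : 9 ≤ cb n := by
  have h2 : 2 ^ 4 ≤ 2 ^ (4 * n + 4) := (Nat.pow_le_pow_right (by omega) (by omega))
  have h3 : 2 ^ (4 * n + 4) < 2 ^ (2 ^ (4 * n + 4)) := Nat.lt_two_pow_self
  unfold cb; omega

lemma tc_le_cb (t : Tm) : tc t ≤ cb t.len := by
  induction t with
  | var k =>
    simp only [tc, Tm.len]
    exact nd1_le_cb (by omega) (le_cb k)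
  | zero =>
    simp only [tc, Tm.len]
    exact nd1_le_cb (n := 0) (by omega) (by have := nine_le_cb 0; omega)
  | succ t ih =>
    simp only [tc, Tm.len]
    exact nd1_le_cb (by omega) ih
  | add t s iht ihs =>
    simp only [tc, Tm.len]
    exact nd2_le_cb (by omega) (iht.trans (cb_mono (by omega))) (ihs.trans (cb_mono (by omega)))
  | mul t s iht ihs =>
    simp only [tc, Tm.len]
    exact nd2_le_cb (by omega) (iht.trans (cb_mono (by omega))) (ihs.trans (cb_mono (by omega)))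

lemma fc_le_cb (φ : Fm) : fc φ ≤ cb φ.len := by
  induction φ with
  | bot =>
    simp only [fc, Fm.len]
    exact nd1_le_cb (n := 0) (by omega) (by have := nine_le_cb 0; omega)
  | eq t s =>
    simp only [fc, Fm.len]
    exact nd2_le_cb (by omega) ((tc_le_cb t).trans (cb_mono (by omega)))
      ((tc_le_cb s).trans (cb_mono (by omega)))
  | le t s =>
    simp only [fc, Fm.len]
    exact nd2_le_cb (by omega) ((tc_le_cb t).trans (cb_mono (by omega)))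
      ((tc_le_cb s).trans (cb_mono (by omega)))
  | imp φ ψ ih1 ih2 =>
    simp only [fc, Fm.len]
    exact nd2_le_cb (by omega) (ih1.trans (cb_mono (by omega))) (ih2.trans (cb_mono (by omega)))
  | all k φ ih =>
    simp only [fc, Fm.len]
    exact nd2_le_cb (by omega) ((le_cb k).trans (cb_mono (by omega)))
      (ih.trans (cb_mono (by omega)))

/-- Bound for codes of lists. -/
def lb (n : ℕ) : ℕ := 2 ^ (2 ^ (4 * n + 8))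

lemma lb_eb : EB lb := by
  have h1 : EB (fun n => 2 ^ (4 * n + 8)) :=
    EB.comp (f := fun N => 2 ^ N) EB.pow2 (((EB.const 4).mul EB.id).add (EB.const 8))
  exact EB.comp (f := fun N => 2 ^ N) EB.pow2 h1

lemma lb_mono {a b : ℕ} (h : a ≤ b) : lb a ≤ lb b := by
  unfold lb
  exact Nat.pow_le_pow_right (by omega) (Nat.pow_le_pow_right (by omega) (by omega))

lemma lc_le_lb (L : List Fm) : lc L ≤ lb (plen L) := by
  induction L with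
  | nil => simp [lc]
  | cons φ L ih =>
    have h1 := fc_le_cb φ
    have hφ := φ.len_pos
    rw [plen_cons]
    set p := φ.len + plen L with hp
    set u := 2 ^ (4 * p + 4) with hu
    have h2 : fc φ ≤ 2 ^ u := h1.trans (cb_mono (show φ.len ≤ p by omega))
    have h3 : lc L ≤ 2 ^ u := by
      refine ih.trans (Nat.pow_le_pow_right (by omega) (Nat.pow_le_pow_right (by omega) (by omega)))
    refine (nd_le_pow h2 h3).trans (Nat.pow_le_pow_right (by omega) ?_)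
    have h4 : 2 ^ (4 * p + 8) = 16 * u := by
      rw [hu, show 4 * p + 8 = (4 * p + 4) + 4 by ring, pow_add]; ring
    have hu16 : 1 ≤ u := Nat.one_le_two_pow
    rw [h4]; omega

end Helper31Con

end
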