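import Pool.Agent.Helper31_Con.Defs

section

/-!
# Terms and formulas of first-order arithmetic, substitution, semantics

Basic facts about the notions defined in `Defs`.
-/

namespace Helper31Con

open Function

namespace Tm

/-- Simultaneous substitution. -/
def sb : Tm → (ℕ → Tm) → Tm
  | var j, σ => σ j
  | zero, _ => zero
  | succ t, σ => succ (t.sb σ)
  | add t s, σ => add (t.sb σ) (s.sb σ)
  | mul t s, σ => mul (t.sb σ) (s.sb σ)

end Tm

namespace Fm

/-- Simultaneous substitution (bound variables are left alone). -/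
def sb : Fm → (ℕ → Tm) → Fm
  | bot, _ => bot
  | eq t s, σ => eq (t.sb σ) (s.sb σ)
  | le t s, σ => le (t.sb σ) (s.sb σ)
  | imp φ ψ, σ => imp (φ.sb σ) (ψ.sb σ)
  | all j φ, σ => all j (φ.sb (update σ j (Tm.var j)))

/-- Conjunction. -/
def and (φ ψ : Fm) : Fm := neg (imp φ (neg ψ))

/-- Disjunction. -/
def or (φ ψ : Fm) : Fm := imp (neg φ) ψ

/-- `t < s` -/
def lt (t s : Tm) : Fm := le (Tm.succ t) s

/-- Closed instance: every free variable `x_k` is replaced by the numeral of `e k`. -/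
def cl (e : ℕ → ℕ) (φ : Fm) : Fm := φ.sb (fun k => Tm.num (e k))

end Fm

open Tm Fm

/-! ### Terms -/

lemma Tm.len_pos (t : Tm) : 1 ≤ t.len := by
  cases t <;> simp [Tm.len]

lemma Fm.len_pos (φ : Fm) : 1 ≤ φ.len := by
  cases φ <;> simp [Fm.len]

@[simp] lemma Tm.len_num (n : ℕ) : (Tm.num n).len = n + 1 := by
  induction n with
  | zero => rfl
  | succ n ih => simp [Tm.num, Tm.len, ih]

@[simp] lemma Tm.not_has_num (k n : ℕ) : ¬ (Tm.num n).Has k := by
  induction n with
  | zero => simp [Tm.num, Tm.Has]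
  | succ n ih => simpa [Tm.num, Tm.Has] using ih

@[simp] lemma Tm.val_num (e : ℕ → ℕ) (n : ℕ) : (Tm.num n).val e = n := by
  induction n with
  | zero => rfl
  | succ n ih => simp [Tm.num, Tm.val, ih]

@[simp] lemma Tm.sb_num (n : ℕ) (σ : ℕ → Tm) : (Tm.num n).sb σ = Tm.num n := by
  induction n with
  | zero => rfl
  | succ n ih => simp [Tm.num, Tm.sb, ih]

lemma Tm.sb_congr {σ τ : ℕ → Tm} {t : Tm} (h : ∀ k, t.Has k → σ k = τ k) : t.sb σ = t.sb τ := by
  induction t with
  | var j => exact h j rfl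
  | zero => rfl
  | succ t ih => simp only [Tm.sb]; rw [ih h]
  | add t s iht ihs =>
    simp only [Tm.sb]
    rw [iht (fun k hk => h k (Or.inl hk)), ihs (fun k hk => h k (Or.inr hk))]
  | mul t s iht ihs =>
    simp only [Tm.sb]
    rw [iht (fun k hk => h k (Or.inl hk)), ihs (fun k hk => h k (Or.inr hk))]

lemma Tm.sb_sb (t : Tm) (σ τ : ℕ → Tm) : (t.sb σ).sb τ = t.sb (fun k => (σ k).sb τ) := by
  induction t with
  | var j => rfl
  | zero => rfl
  | succ t ih => simp [Tm.sb, ih]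
  | add t s iht ihs => simp [Tm.sb, iht, ihs]
  | mul t s iht ihs => simp [Tm.sb, iht, ihs]

@[simp] lemma Tm.sb_var (t : Tm) : t.sb Tm.var = t := by
  induction t with
  | var j => rfl
  | zero => rfl
  | succ t ih => simp [Tm.sb, ih]
  | add t s iht ihs => simp [Tm.sb, iht, ihs]
  | mul t s iht ihs => simp [Tm.sb, iht, ihs]

lemma Tm.val_sb (e : ℕ → ℕ) (t : Tm) (σ : ℕ → Tm) :
    (t.sb σ).val e = t.val (fun k => (σ k).val e) := by
  induction t with
  | var j => rfl
  | zero => rfl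
  | succ t ih => simp [Tm.sb, Tm.val, ih]
  | add t s iht ihs => simp [Tm.sb, Tm.val, iht, ihs]
  | mul t s iht ihs => simp [Tm.sb, Tm.val, iht, ihs]

lemma Tm.val_congr {e e' : ℕ → ℕ} {t : Tm} (h : ∀ k, t.Has k → e k = e' k) :
    t.val e = t.val e' := by
  induction t with
  | var j => exact h j rfl
  | zero => rfl
  | succ t ih => simp only [Tm.val]; rw [ih h]
  | add t s iht ihs =>
    simp only [Tm.val]
    rw [iht (fun k hk => h k (Or.inl hk)), ihs (fun k hk => h k (Or.inr hk))]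
  | mul t s iht ihs =>
    simp only [Tm.val]
    rw [iht (fun k hk => h k (Or.inl hk)), ihs (fun k hk => h k (Or.inr hk))]

lemma Tm.sub_eq_sb (t : Tm) (k : ℕ) (r : Tm) : t.sub k r = t.sb (update Tm.var k r) := by
  induction t with
  | var j =>
    by_cases h : j = k
    · subst h; simp [Tm.sub, Tm.sb]
    · simp [Tm.sub, Tm.sb, h]
  | zero => rfl
  | succ t ih => simp [Tm.sub, Tm.sb, ih]
  | add t s iht ihs => simp [Tm.sub, Tm.sb, iht, ihs]
  | mul t s iht ihs => simp [Tm.sub, Tm.sb, iht, ihs]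

lemma Tm.has_sb {t : Tm} {σ : ℕ → Tm} {j : ℕ} :
    (t.sb σ).Has j ↔ ∃ k, t.Has k ∧ (σ k).Has j := by
  induction t with
  | var i => simp [Tm.sb, Tm.Has]
  | zero => simp [Tm.sb, Tm.Has]
  | succ t ih => simpa [Tm.sb, Tm.Has] using ih
  | add t s iht ihs =>
    simp only [Tm.sb, Tm.Has, iht, ihs]
    constructor
    · rintro (⟨k, h1, h2⟩ | ⟨k, h1, h2⟩)
      · exact ⟨k, Or.inl h1, h2⟩
      · exact ⟨k, Or.inr h1, h2⟩
    · rintro ⟨k, h1 | h1, h2⟩
      · exact Or.inl ⟨k, h1, h2⟩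
      · exact Or.inr ⟨k, h1, h2⟩
  | mul t s iht ihs =>
    simp only [Tm.sb, Tm.Has, iht, ihs]
    constructor
    · rintro (⟨k, h1, h2⟩ | ⟨k, h1, h2⟩)
      · exact ⟨k, Or.inl h1, h2⟩
      · exact ⟨k, Or.inr h1, h2⟩
    · rintro ⟨k, h1 | h1, h2⟩
      · exact Or.inl ⟨k, h1, h2⟩
      · exact Or.inr ⟨k, h1, h2⟩

lemma Tm.len_sb_le {t : Tm} {σ : ℕ → Tm} {M : ℕ} (hM : 1 ≤ M)
    (h : ∀ k, t.Has k → (σ k).len ≤ (k + 1) * M) : (t.sb σ).len ≤ t.len * M := by
  induction t with
  | var j => exact h j rfl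
  | zero => simpa [Tm.sb, Tm.len] using hM
  | succ t ih =>
    have := ih h
    simp only [Tm.sb, Tm.len]; nlinarith
  | add t s iht ihs =>
    have h1 := iht (fun k hk => h k (Or.inl hk))
    have h2 := ihs (fun k hk => h k (Or.inr hk))
    simp only [Tm.sb, Tm.len]; nlinarith
  | mul t s iht ihs =>
    have h1 := iht (fun k hk => h k (Or.inl hk))
    have h2 := ihs (fun k hk => h k (Or.inr hk))
    simp only [Tm.sb, Tm.len]; nlinarith

/-! ### Formulas -/

lemma Fm.sb_congr {σ τ : ℕ → Tm} {φ : Fm} (h : ∀ k, φ.Free k → σ k = τ k) :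
    φ.sb σ = φ.sb τ := by
  induction φ generalizing σ τ with
  | bot => rfl
  | eq t s =>
    simp only [Fm.sb]
    rw [Tm.sb_congr (fun k hk => h k (Or.inl hk)), Tm.sb_congr (fun k hk => h k (Or.inr hk))]
  | le t s =>
    simp only [Fm.sb]
    rw [Tm.sb_congr (fun k hk => h k (Or.inl hk)), Tm.sb_congr (fun k hk => h k (Or.inr hk))]
  | imp φ ψ ih1 ih2 =>
    simp only [Fm.sb]
    rw [ih1 (fun k hk => h k (Or.inl hk)), ih2 (fun k hk => h k (Or.inr hk))]
  | all j φ ih =>
    simp only [Fm.sb]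
    rw [ih (σ := update σ j (Tm.var j)) (τ := update τ j (Tm.var j))]
    intro k hk
    by_cases hj : k = j
    · subst hj; simp
    · rw [update_of_ne hj, update_of_ne hj]
      exact h k ⟨fun h' => hj h'.symm, hk⟩

@[simp] lemma Fm.sb_var (φ : Fm) : φ.sb Tm.var = φ := by
  induction φ with
  | bot => rfl
  | eq t s => simp [Fm.sb]
  | le t s => simp [Fm.sb]
  | imp φ ψ ih1 ih2 => simp [Fm.sb, ih1, ih2]
  | all j φ ih => simp [Fm.sb, ih]

lemma Fm.sb_of_sentence {φ : Fm} (h : Sentence φ) (σ : ℕ → Tm) : φ.sb σ = φ := by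
  conv_rhs => rw [← Fm.sb_var φ]
  exact Fm.sb_congr (fun k hk => absurd hk (h k))

lemma Fm.cl_of_sentence {φ : Fm} (h : Sentence φ) (e : ℕ → ℕ) : φ.cl e = φ :=
  Fm.sb_of_sentence h _

lemma Fm.cl_congr {e e' : ℕ → ℕ} {φ : Fm} (h : ∀ k, φ.Free k → e k = e' k) :
    φ.cl e = φ.cl e' :=
  Fm.sb_congr (fun k hk => by rw [h k hk])

lemma Fm.sub_eq_sb (φ : Fm) (k : ℕ) (r : Tm) : φ.sub k r = φ.sb (update Tm.var k r) := by
  induction φ with
  | bot => rfl
  | eq t s => simp [Fm.sub, Fm.sb, Tm.sub_eq_sb]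
  | le t s => simp [Fm.sub, Fm.sb, Tm.sub_eq_sb]
  | imp φ ψ ih1 ih2 => simp [Fm.sub, Fm.sb, ih1, ih2]
  | all j φ ih =>
    by_cases hj : j = k
    · subst hj
      simp [Fm.sub, Fm.sb]
    · have : update (update Tm.var k r) j (Tm.var j) = update Tm.var k r := by
        funext i
        by_cases hi : i = j
        · subst hi
          rw [update_self, update_of_ne hj]
        · rw [update_of_ne hi]
      simp only [Fm.sub, if_neg hj, Fm.sb, this, ih]

lemma Fm.sat_congr {e e' : ℕ → ℕ} {φ : Fm} (h : ∀ k, φ.Free k → e k = e' k) :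
    φ.Sat e ↔ φ.Sat e' := by
  induction φ generalizing e e' with
  | bot => exact Iff.rfl
  | eq t s =>
    simp only [Fm.Sat]
    rw [Tm.val_congr (fun k hk => h k (Or.inl hk)), Tm.val_congr (fun k hk => h k (Or.inr hk))]
  | le t s =>
    simp only [Fm.Sat]
    rw [Tm.val_congr (fun k hk => h k (Or.inl hk)), Tm.val_congr (fun k hk => h k (Or.inr hk))]
  | imp φ ψ ih1 ih2 =>
    simp only [Fm.Sat]
    rw [ih1 (fun k hk => h k (Or.inl hk)), ih2 (fun k hk => h k (Or.inr hk))]
  | all j φ ih =>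
    simp only [Fm.Sat]
    refine forall_congr' fun a => ih fun k hk => ?_
    by_cases hj : k = j
    · subst hj; simp
    · rw [update_of_ne hj, update_of_ne hj]
      exact h k ⟨fun h' => hj h'.symm, hk⟩

/-- Substitutions by variables and numerals that cannot capture. -/
def NumSub (σ : ℕ → Tm) : Prop := ∀ k, σ k = Tm.var k ∨ ∃ n, σ k = Tm.num n

lemma NumSub.update_var {σ : ℕ → Tm} (h : NumSub σ) (j : ℕ) : NumSub (update σ j (Tm.var j)) := by
  intro k
  by_cases hk : k = j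
  · subst hk; simp
  · rw [update_of_ne hk]; exact h k

lemma NumSub.update_num {σ : ℕ → Tm} (h : NumSub σ) (j n : ℕ) :
    NumSub (update σ j (Tm.num n)) := by
  intro k
  by_cases hk : k = j
  · subst hk; exact Or.inr ⟨n, by simp⟩
  · rw [update_of_ne hk]; exact h k

lemma numSub_var : NumSub Tm.var := fun _ => Or.inl rfl

lemma numSub_num (e : ℕ → ℕ) : NumSub (fun k => Tm.num (e k)) := fun k => Or.inr ⟨e k, rfl⟩

lemma Fm.sat_sb {e : ℕ → ℕ} {σ : ℕ → Tm} (hσ : NumSub σ) (φ : Fm) :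
    (φ.sb σ).Sat e ↔ φ.Sat (fun k => (σ k).val e) := by
  induction φ generalizing e σ with
  | bot => exact Iff.rfl
  | eq t s => simp [Fm.sb, Fm.Sat, Tm.val_sb]
  | le t s => simp [Fm.sb, Fm.Sat, Tm.val_sb]
  | imp φ ψ ih1 ih2 => simp only [Fm.sb, Fm.Sat]; rw [ih1 hσ, ih2 hσ]
  | all j φ ih =>
    simp only [Fm.sb, Fm.Sat]
    refine forall_congr' fun a => ?_
    rw [ih (hσ.update_var j)]
    refine iff_of_eq (congrArg (fun f => φ.Sat f) (funext fun k => ?_))
    by_cases hk : k = j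
    · subst hk; simp [Tm.val]
    · rw [update_of_ne hk, update_of_ne hk]
      rcases hσ k with h | ⟨n, h⟩
      · rw [h]; simp [Tm.val, update_of_ne hk]
      · rw [h]; simp

lemma Fm.sat_cl (e e' : ℕ → ℕ) (φ : Fm) : (φ.cl e).Sat e' ↔ φ.Sat e := by
  rw [Fm.cl, Fm.sat_sb (numSub_num e)]
  simp

lemma Fm.sub_num_sb {σ : ℕ → Tm} (hσ : NumSub σ) {k : ℕ} (hk : σ k = Tm.var k) (n : ℕ) (φ : Fm) :
    (φ.sb σ).sub k (Tm.num n) = φ.sb (update σ k (Tm.num n)) := by
  have ht : ∀ t : Tm, (t.sb σ).sub k (Tm.num n) = t.sb (update σ k (Tm.num n)) := by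
    intro t
    rw [Tm.sub_eq_sb, Tm.sb_sb]
    refine Tm.sb_congr fun j _ => ?_
    by_cases hj : j = k
    · subst hj; simp [hk, Tm.sb]
    · rw [update_of_ne hj]
      rcases hσ j with h | ⟨m, h⟩
      · rw [h]; simp [Tm.sb, update_of_ne hj]
      · rw [h]; simp
  induction φ generalizing σ with
  | bot => rfl
  | eq t s => simp [Fm.sb, Fm.sub, ht]
  | le t s => simp [Fm.sb, Fm.sub, ht]
  | imp φ ψ ih1 ih2 => simp [Fm.sb, Fm.sub, ih1 hσ hk ht, ih2 hσ hk ht]
  | all j φ ih =>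
    by_cases hj : j = k
    · subst hj
      simp [Fm.sb, Fm.sub]
    · simp only [Fm.sb, Fm.sub, if_neg hj]
      have hk' : update σ j (Tm.var j) k = Tm.var k := by
        rw [update_of_ne (Ne.symm hj)]; exact hk
      have hσ' := hσ.update_var j
      rw [ih hσ' hk' ?_, update_comm (Ne.symm hj)]
      intro t
      rw [Tm.sub_eq_sb, Tm.sb_sb]
      refine Tm.sb_congr fun i _ => ?_
      by_cases hi : i = k
      · subst hi; simp [hk', Tm.sb]
      · rw [update_of_ne hi]
        rcases hσ' i with h | ⟨m, h⟩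
        · rw [h]; simp [Tm.sb, update_of_ne hi]
        · rw [h]; simp

lemma Fm.free_sb {σ : ℕ → Tm} (hσ : NumSub σ) {φ : Fm} {j : ℕ} (h : (φ.sb σ).Free j) :
    φ.Free j ∧ σ j = Tm.var j := by
  have ht : ∀ t : Tm, (t.sb σ).Has j → t.Has j ∧ σ j = Tm.var j := by
    intro t ht
    obtain ⟨k, h1, h2⟩ := Tm.has_sb.mp ht
    rcases hσ k with h3 | ⟨n, h3⟩
    · rw [h3] at h2
      simp only [Tm.Has] at h2
      subst h2
      exact ⟨h1, h3⟩
    · rw [h3] at h2; simp at h2
  induction φ generalizing σ with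
  | bot => exact absurd h (by simp [Fm.sb, Fm.Free])
  | eq t s =>
    rcases h with h | h
    · exact ⟨Or.inl (ht _ h).1, (ht _ h).2⟩
    · exact ⟨Or.inr (ht _ h).1, (ht _ h).2⟩
  | le t s =>
    rcases h with h | h
    · exact ⟨Or.inl (ht _ h).1, (ht _ h).2⟩
    · exact ⟨Or.inr (ht _ h).1, (ht _ h).2⟩
  | imp φ ψ ih1 ih2 =>
    rcases h with h | h
    · exact ⟨Or.inl (ih1 hσ h ht).1, (ih1 hσ h ht).2⟩
    · exact ⟨Or.inr (ih2 hσ h ht).1, (ih2 hσ h ht).2⟩
  | all i φ ih =>
    simp only [Fm.sb, Fm.Free] at h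
    have hσ' := hσ.update_var i
    have := ih hσ' h.2 ?_
    · refine ⟨⟨h.1, this.1⟩, ?_⟩
      have h2 := this.2
      rwa [update_of_ne (Ne.symm h.1)] at h2
    · intro t ht
      obtain ⟨k, h1, h2⟩ := Tm.has_sb.mp ht
      rcases hσ' k with h3 | ⟨n, h3⟩
      · rw [h3] at h2
        simp only [Tm.Has] at h2
        subst h2
        exact ⟨h1, h3⟩
      · rw [h3] at h2; simp at h2

lemma Fm.cl_sentence (e : ℕ → ℕ) (φ : Fm) : Sentence (φ.cl e) := by
  intro j hj
  have := (Fm.free_sb (numSub_num e) hj).2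
  cases h : e j with
  | zero => rw [h] at this; simp [Tm.num] at this
  | succ n => rw [h] at this; simp [Tm.num] at this

lemma Fm.len_sb_le {φ : Fm} {σ : ℕ → Tm} {M : ℕ} (hM : 1 ≤ M)
    (h : ∀ k, φ.Free k → (σ k).len ≤ (k + 1) * M) : (φ.sb σ).len ≤ φ.len * M := by
  induction φ generalizing σ with
  | bot => simpa [Fm.sb, Fm.len] using hM
  | eq t s =>
    have h1 := Tm.len_sb_le hM (fun k hk => h k (Or.inl hk))
    have h2 := Tm.len_sb_le hM (fun k hk => h k (Or.inr hk))
    simp only [Fm.sb, Fm.len]; nlinarith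
  | le t s =>
    have h1 := Tm.len_sb_le hM (fun k hk => h k (Or.inl hk))
    have h2 := Tm.len_sb_le hM (fun k hk => h k (Or.inr hk))
    simp only [Fm.sb, Fm.len]; nlinarith
  | imp φ ψ ih1 ih2 =>
    have h1 := ih1 (fun k hk => h k (Or.inl hk))
    have h2 := ih2 (fun k hk => h k (Or.inr hk))
    simp only [Fm.sb, Fm.len]; nlinarith
  | all j φ ih =>
    have h1 : (φ.sb (update σ j (Tm.var j))).len ≤ φ.len * M := by
      refine ih fun k hk => ?_
      by_cases hj : k = j
      · subst hj; simp only [update_self, Tm.len]; nlinarith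
      · rw [update_of_ne hj]; exact h k ⟨fun h' => hj h'.symm, hk⟩
    simp only [Fm.sb, Fm.len]; nlinarith

lemma Fm.len_cl_le {φ : Fm} {e : ℕ → ℕ} {N : ℕ} (h : ∀ k, φ.Free k → e k ≤ N) :
    (φ.cl e).len ≤ φ.len * (N + 1) := by
  refine Fm.len_sb_le (by omega) fun k hk => ?_
  have := h k hk
  simp only [Tm.len_num]; nlinarith

lemma Tm.len_cl_le {t : Tm} {e : ℕ → ℕ} {N : ℕ} (h : ∀ k, t.Has k → e k ≤ N) :
    (t.sb (fun k => Tm.num (e k))).len ≤ t.len * (N + 1) := by
  refine Tm.len_sb_le (by omega) fun k hk => ?_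
  have := h k hk
  simp only [Tm.len_num]; nlinarith

/-! ### `FreeFor` -/

lemma Fm.freeFor_of_closed {k : ℕ} {r : Tm} (hr : ∀ j, ¬ r.Has j) (φ : Fm) : φ.FreeFor k r := by
  induction φ with
  | bot => trivial
  | eq t s => trivial
  | le t s => trivial
  | imp φ ψ ih1 ih2 => exact ⟨ih1, ih2⟩
  | all j φ ih => exact Or.inr (Or.inr ⟨hr j, ih⟩)

lemma Fm.freeFor_num (k n : ℕ) (φ : Fm) : φ.FreeFor k (Tm.num n) :=
  Fm.freeFor_of_closed (fun j => Tm.not_has_num j n) φ

lemma Fm.sub_of_not_free {k : ℕ} {r : Tm} {φ : Fm} (h : ¬ φ.Free k) : φ.sub k r = φ := by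
  rw [Fm.sub_eq_sb]
  conv_rhs => rw [← Fm.sb_var φ]
  refine Fm.sb_congr fun j hj => ?_
  rw [update_of_ne]
  rintro rfl
  exact h hj

lemma Fm.sat_sub {e : ℕ → ℕ} {k : ℕ} {r : Tm} {φ : Fm} (h : φ.FreeFor k r) :
    (φ.sub k r).Sat e ↔ φ.Sat (update e k (r.val e)) := by
  have ht : ∀ (e : ℕ → ℕ) (t : Tm), (t.sub k r).val e = t.val (update e k (r.val e)) := by
    intro e t
    rw [Tm.sub_eq_sb, Tm.val_sb]
    refine Tm.val_congr fun j _ => ?_
    by_cases hj : j = k
    · subst hj; simp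
    · rw [update_of_ne hj, update_of_ne hj]; rfl
  induction φ generalizing e with
  | bot => exact Iff.rfl
  | eq t s => simp [Fm.sub, Fm.Sat, ht]
  | le t s => simp [Fm.sub, Fm.Sat, ht]
  | imp φ ψ ih1 ih2 => exact imp_congr (ih1 h.1) (ih2 h.2)
  | all j φ ih =>
    by_cases hj : j = k
    · subst hj
      simp only [Fm.sub, if_true, Fm.Sat]
      refine forall_congr' fun a => ?_
      simp
    · simp only [Fm.sub, if_neg hj, Fm.Sat]
      refine forall_congr' fun a => ?_
      rcases h with h | h | h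
      · exact absurd h hj
      · rw [Fm.sub_of_not_free h]
        refine Fm.sat_congr fun i hi => ?_
        have hik : i ≠ k := by rintro rfl; exact h hi
        by_cases hij : i = j
        · subst hij; simp
        · rw [update_of_ne hij, update_of_ne hij, update_of_ne hik]
      · refine (ih h.2).trans ?_
        have h1 : r.val (update e j a) = r.val e := by
          refine Tm.val_congr fun i hi => ?_
          have : i ≠ j := by rintro rfl; exact h.1 hi
          rw [update_of_ne this]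
        rw [h1, update_comm (fun h' => hj h'.symm)]

/-! ### Derived connectives -/

@[simp] lemma Fm.sat_neg (e : ℕ → ℕ) (φ : Fm) : (neg φ).Sat e ↔ ¬ φ.Sat e := Iff.rfl

@[simp] lemma Fm.sat_and (e : ℕ → ℕ) (φ ψ : Fm) : (Fm.and φ ψ).Sat e ↔ φ.Sat e ∧ ψ.Sat e := by
  simp only [Fm.and, Fm.sat_neg, Fm.Sat]; tauto

@[simp] lemma Fm.sat_or (e : ℕ → ℕ) (φ ψ : Fm) : (Fm.or φ ψ).Sat e ↔ φ.Sat e ∨ ψ.Sat e := by
  simp only [Fm.or, Fm.sat_neg, Fm.Sat]; tauto

@[simp] lemma Fm.sat_ex (e : ℕ → ℕ) (k : ℕ) (φ : Fm) :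
    (Fm.ex k φ).Sat e ↔ ∃ a, φ.Sat (update e k a) := by
  simp only [Fm.ex, Fm.sat_neg, Fm.Sat]; push Not; rfl

@[simp] lemma Fm.sat_lt (e : ℕ → ℕ) (t s : Tm) : (Fm.lt t s).Sat e ↔ t.val e < s.val e :=
  Iff.rfl

@[simp] lemma Fm.free_neg (k : ℕ) (φ : Fm) : (neg φ).Free k ↔ φ.Free k := by
  simp [neg, Fm.Free]

@[simp] lemma Fm.free_and (k : ℕ) (φ ψ : Fm) : (Fm.and φ ψ).Free k ↔ φ.Free k ∨ ψ.Free k := by
  simp [Fm.and, Fm.Free]

@[simp] lemma Fm.free_or (k : ℕ) (φ ψ : Fm) : (Fm.or φ ψ).Free k ↔ φ.Free k ∨ ψ.Free k := by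
  simp [Fm.or, Fm.Free]

@[simp] lemma Fm.free_ex (j k : ℕ) (φ : Fm) : (Fm.ex j φ).Free k ↔ j ≠ k ∧ φ.Free k := by
  simp [Fm.ex, Fm.Free]

@[simp] lemma Fm.free_lt (k : ℕ) (t s : Tm) : (Fm.lt t s).Free k ↔ t.Has k ∨ s.Has k := by
  simp [Fm.lt, Fm.Free, Tm.Has]

/-! ### Universal closures -/

/-- `∀ x_k ... ∀ x_{k+n-1} φ` -/
def Fm.uc : ℕ → ℕ → Fm → Fm
  | _, 0, φ => φ
  | k, n + 1, φ => Fm.all k (Fm.uc (k + 1) n φ)

lemma Fm.free_uc {k n : ℕ} {φ : Fm} {j : ℕ} :
    (Fm.uc k n φ).Free j ↔ φ.Free j ∧ ¬ (k ≤ j ∧ j < k + n) := by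
  induction n generalizing k with
  | zero => simp only [Fm.uc]; constructor
            · intro h; exact ⟨h, by omega⟩
            · exact fun h => h.1
  | succ n ih =>
    simp only [Fm.uc, Fm.Free, ih]
    constructor
    · rintro ⟨h1, h2, h3⟩
      exact ⟨h2, by omega⟩
    · rintro ⟨h1, h2⟩
      exact ⟨by omega, h1, by omega⟩

lemma Fm.sat_uc {k n : ℕ} {φ : Fm} (h : ∀ e, φ.Sat e) (e : ℕ → ℕ) : (Fm.uc k n φ).Sat e := by
  induction n generalizing k e with
  | zero => exact h e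
  | succ n ih => intro a; exact ih _

/-- Strict upper bound for the free variables. -/
def Tm.fv : Tm → ℕ
  | .var k => k + 1
  | .zero => 0
  | .succ t => t.fv
  | .add t s => max t.fv s.fv
  | .mul t s => max t.fv s.fv

/-- Strict upper bound for all variables, free or bound. -/
def Fm.fv : Fm → ℕ
  | .bot => 0
  | .eq t s => max t.fv s.fv
  | .le t s => max t.fv s.fv
  | .imp φ ψ => max φ.fv ψ.fv
  | .all k φ => max (k + 1) φ.fv

lemma Tm.lt_fv {t : Tm} {k : ℕ} (h : t.Has k) : k < t.fv := by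
  induction t with
  | var j => simp only [Tm.Has] at h; subst h; simp [Tm.fv]
  | zero => exact absurd h (by simp [Tm.Has])
  | succ t ih => exact ih h
  | add t s iht ihs =>
    rcases h with h | h
    · exact lt_of_lt_of_le (iht h) (le_max_left _ _)
    · exact lt_of_lt_of_le (ihs h) (le_max_right _ _)
  | mul t s iht ihs =>
    rcases h with h | h
    · exact lt_of_lt_of_le (iht h) (le_max_left _ _)
    · exact lt_of_lt_of_le (ihs h) (le_max_right _ _)

lemma Fm.lt_fv {φ : Fm} {k : ℕ} (h : φ.Free k) : k < φ.fv := by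
  induction φ with
  | bot => exact absurd h (by simp [Fm.Free])
  | eq t s =>
    rcases h with h | h
    · exact lt_of_lt_of_le (Tm.lt_fv h) (le_max_left _ _)
    · exact lt_of_lt_of_le (Tm.lt_fv h) (le_max_right _ _)
  | le t s =>
    rcases h with h | h
    · exact lt_of_lt_of_le (Tm.lt_fv h) (le_max_left _ _)
    · exact lt_of_lt_of_le (Tm.lt_fv h) (le_max_right _ _)
  | imp φ ψ ih1 ih2 =>
    rcases h with h | h
    · exact lt_of_lt_of_le (ih1 h) (le_max_left _ _)
    · exact lt_of_lt_of_le (ih2 h) (le_max_right _ _)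
  | all j φ ih => exact lt_of_lt_of_le (ih h.2) (le_max_right _ _)

/-- Universal closure. -/
def Fm.ucl (φ : Fm) : Fm := Fm.uc 0 φ.fv φ

lemma Fm.ucl_sentence (φ : Fm) : Sentence φ.ucl := by
  intro j hj
  rw [Fm.ucl, Fm.free_uc] at hj
  exact hj.2 ⟨Nat.zero_le _, by simpa using Fm.lt_fv hj.1⟩

lemma Fm.ucl_true {φ : Fm} (h : ∀ e, φ.Sat e) : TrueS φ.ucl :=
  ⟨Fm.ucl_sentence φ, fun e => Fm.sat_uc h e⟩

end Helper31Con

end

section

/-!
# A Hilbert calculus, lengths of proofs, the deduction theorem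
-/

namespace Helper31Con

open Function Fm

/-! ### Basic facts -/

@[simp] lemma plen_nil : plen [] = 0 := rfl
@[simp] lemma plen_cons (φ : Fm) (L : List Fm) : plen (φ :: L) = φ.len + plen L := by
  simp [plen]
@[simp] lemma plen_append (L L' : List Fm) : plen (L ++ L') = plen L + plen L' := by
  simp [plen]

lemma IsProof.append {T L L' : List Fm} (h : IsProof T L) (h' : IsProof T L') :
    IsProof T (L ++ L') := by
  induction L with
  | nil => exact h'
  | cons φ L ih =>
    refine ⟨ih h.1, ?_⟩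
    rcases h.2 with h | h | ⟨ψ, h1, h2⟩ | ⟨j, ψ, h1, h2⟩
    · exact Or.inl h
    · exact Or.inr (Or.inl h)
    · exact Or.inr (Or.inr (Or.inl ⟨ψ, List.mem_append_left _ h1, List.mem_append_left _ h2⟩))
    · exact Or.inr (Or.inr (Or.inr ⟨j, ψ, List.mem_append_left _ h1, h2⟩))

lemma IsProof.tail_of_append {T L L' : List Fm} (h : IsProof T (L ++ L')) : IsProof T L' := by
  induction L with
  | nil => exact h
  | cons φ L ih => exact ih h.1

lemma IsProof.mono {T T' L : List Fm} (hT : ∀ φ ∈ T, φ ∈ T') (h : IsProof T L) :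
    IsProof T' L := by
  induction L with
  | nil => trivial
  | cons φ L ih =>
    refine ⟨ih h.1, ?_⟩
    rcases h.2 with h | h | h | h
    · exact Or.inl (hT _ h)
    · exact Or.inr (Or.inl h)
    · exact Or.inr (Or.inr (Or.inl h))
    · exact Or.inr (Or.inr (Or.inr h))

lemma ax_valid {φ : Fm} (h : Ax φ) (e : ℕ → ℕ) : φ.Sat e := by
  cases h with
  | k φ ψ => exact fun h _ => h
  | s φ ψ χ => exact fun h1 h2 h3 => h1 h3 (h2 h3)
  | dne φ =>
    intro h
    by_contra h'
    exact h h'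
  | inst j φ t h => exact fun h' => (Fm.sat_sub h).mpr (h' _)
  | dist j φ ψ h =>
    intro h1 h2 a
    refine h1 a ?_
    refine (Fm.sat_congr fun k hk => ?_).mp h2
    rw [update_of_ne]
    rintro rfl
    exact h hk
  | refl t => exact rfl
  | congS t s => intro h; simp only [Fm.Sat, Tm.val] at h ⊢; omega
  | congAdd t s t' s' => intro h h'; simp only [Fm.Sat, Tm.val] at h h' ⊢; omega
  | congMul t s t' s' => intro h h'; simp only [Fm.Sat, Tm.val] at h h' ⊢; rw [h, h']
  | congEq t s t' s' => intro h h'; simp only [Fm.Sat] at h h' ⊢; omega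
  | congLe t s t' s' => intro h h'; simp only [Fm.Sat] at h h' ⊢; omega

lemma IsProof.sound {T L : List Fm} (hT : ∀ φ ∈ T, ∀ e, φ.Sat e) (h : IsProof T L) :
    ∀ φ ∈ L, ∀ e, φ.Sat e := by
  induction L with
  | nil => intro φ hφ; simp at hφ
  | cons φ L ih =>
    have ih' := ih h.1
    intro χ hχ
    rcases List.mem_cons.mp hχ with rfl | hχ
    · rcases h.2 with h | h | ⟨ψ, h1, h2⟩ | ⟨j, ψ, h1, h2⟩
      · exact hT _ h
      · exact ax_valid h
      · intro e; exact ih' _ h2 e (ih' _ h1 e)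
      · subst h2; intro e a; exact ih' _ h1 _
    · exact ih' χ hχ

lemma Prov.sound {T : List Fm} (hT : ∀ φ ∈ T, ∀ e, φ.Sat e) {k : ℕ} {φ : Fm}
    (h : Prov T k φ) (e : ℕ → ℕ) : φ.Sat e := by
  obtain ⟨L, hL, _⟩ := h
  exact hL.sound hT φ (List.mem_cons_self) e

lemma Prov.mono {T : List Fm} {k k' : ℕ} {φ : Fm} (h : Prov T k φ) (hk : k ≤ k') :
    Prov T k' φ := by
  obtain ⟨L, h1, h2⟩ := h
  exact ⟨L, h1, h2.trans hk⟩

/-! ### Bookkeeping by number of lines and maximal line length -/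

/-- `φ` occurs in a proof from `T` with at most `n` lines, each with at most `M` symbols. -/
def Pr (T : List Fm) (n M : ℕ) (φ : Fm) : Prop :=
  ∃ L, IsProof T L ∧ φ ∈ L ∧ L.length ≤ n ∧ ∀ ψ ∈ L, ψ.len ≤ M

lemma Pr.mono {T : List Fm} {n n' M M' : ℕ} {φ : Fm} (h : Pr T n M φ) (hn : n ≤ n')
    (hM : M ≤ M') : Pr T n' M' φ := by
  obtain ⟨L, h1, h2, h3, h4⟩ := h
  exact ⟨L, h1, h2, h3.trans hn, fun ψ hψ => (h4 ψ hψ).trans hM⟩

lemma Pr.monoT {T T' : List Fm} {n M : ℕ} {φ : Fm} (h : Pr T n M φ) (hT : ∀ φ ∈ T, φ ∈ T') :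
    Pr T' n M φ := by
  obtain ⟨L, h1, h2, h3, h4⟩ := h
  exact ⟨L, h1.mono hT, h2, h3, h4⟩

lemma Pr.mem {T : List Fm} {M : ℕ} {φ : Fm} (h : φ ∈ T) (hM : φ.len ≤ M) : Pr T 1 M φ :=
  ⟨[φ], ⟨trivial, Or.inl h⟩, by simp, by simp, by simpa using hM⟩

lemma Pr.ax {T : List Fm} {M : ℕ} {φ : Fm} (h : Ax φ) (hM : φ.len ≤ M) : Pr T 1 M φ :=
  ⟨[φ], ⟨trivial, Or.inr (Or.inl h)⟩, by simp, by simp, by simpa using hM⟩

lemma Pr.len_le {T : List Fm} {n M : ℕ} {φ : Fm} (h : Pr T n M φ) : φ.len ≤ M := by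
  obtain ⟨L, _, h2, _, h4⟩ := h
  exact h4 φ h2

lemma Pr.mp {T : List Fm} {n n' M : ℕ} {φ ψ : Fm} (h : Pr T n M (imp φ ψ)) (h' : Pr T n' M φ) :
    Pr T (n + n' + 1) M ψ := by
  have hlen : ψ.len ≤ M := by
    have := h.len_le
    simp only [Fm.len] at this; omega
  obtain ⟨L, h1, h2, h3, h4⟩ := h
  obtain ⟨L', h1', h2', h3', h4'⟩ := h'
  refine ⟨ψ :: (L ++ L'), ⟨h1.append h1', Or.inr (Or.inr (Or.inl ⟨φ, ?_, ?_⟩))⟩, ?_, ?_, ?_⟩
  · exact List.mem_append_right _ h2'
  · exact List.mem_append_left _ h2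
  · exact List.mem_cons_self
  · simp; omega
  · intro χ hχ
    rcases List.mem_cons.mp hχ with rfl | hχ
    · exact hlen
    · rcases List.mem_append.mp hχ with hχ | hχ
      · exact h4 _ hχ
      · exact h4' _ hχ

lemma Pr.gen {T : List Fm} {n M : ℕ} {φ : Fm} (j : ℕ) (h : Pr T n M φ)
    (hM : (all j φ).len ≤ M) : Pr T (n + 1) M (all j φ) := by
  obtain ⟨L, h1, h2, h3, h4⟩ := h
  refine ⟨all j φ :: L, ⟨h1, Or.inr (Or.inr (Or.inr ⟨j, φ, h2, rfl⟩))⟩, ?_, ?_, ?_⟩
  · exact List.mem_cons_self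
  · simp; omega
  · intro χ hχ
    rcases List.mem_cons.mp hχ with rfl | hχ
    · exact hM
    · exact h4 _ hχ

lemma plen_le {L : List Fm} {M : ℕ} (h : ∀ ψ ∈ L, ψ.len ≤ M) : plen L ≤ L.length * M := by
  induction L with
  | nil => simp
  | cons φ L ih =>
    have h1 := ih (fun ψ hψ => h ψ (List.mem_cons_of_mem _ hψ))
    have h2 := h φ List.mem_cons_self
    simp only [plen_cons, List.length_cons]; nlinarith

lemma Pr.prov {T : List Fm} {n M : ℕ} {φ : Fm} (h : Pr T n M φ) : Prov T (n * M) φ := by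
  obtain ⟨L, h1, h2, h3, h4⟩ := h
  obtain ⟨L₁, L₂, rfl⟩ := List.append_of_mem h2
  refine ⟨L₂, h1.tail_of_append, ?_⟩
  have h5 : plen (φ :: L₂) ≤ (φ :: L₂).length * M :=
    plen_le (fun ψ hψ => h4 ψ (List.mem_append_right _ hψ))
  refine h5.trans (Nat.mul_le_mul_right _ ?_)
  simp only [List.length_append] at h3
  omega

lemma len_le_plen {L : List Fm} {φ : Fm} (h : φ ∈ L) : φ.len ≤ plen L := by
  obtain ⟨L₁, L₂, rfl⟩ := List.append_of_mem h
  simp only [plen_append, plen_cons]; omega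

lemma length_le_plen (L : List Fm) : L.length ≤ plen L := by
  induction L with
  | nil => simp
  | cons φ L ih =>
    have := φ.len_pos
    simp only [plen_cons, List.length_cons]; omega

lemma Prov.pr {T : List Fm} {k : ℕ} {φ : Fm} (h : Prov T k φ) : Pr T k k φ := by
  obtain ⟨L, h1, h2⟩ := h
  exact ⟨φ :: L, h1, List.mem_cons_self, (length_le_plen _).trans h2,
    fun ψ hψ => (len_le_plen hψ).trans h2⟩

/-! ### The deduction theorem -/

lemma isProof_cons_of_mem {T L : List Fm} {φ : Fm} (hL : IsProof T L) (h : φ ∈ L) :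
    IsProof T (φ :: L) := by
  obtain ⟨L₁, L₂, rfl⟩ := List.append_of_mem h
  have h2 : IsProof T (φ :: L₂) := hL.tail_of_append
  refine ⟨hL, ?_⟩
  rcases h2.2 with h | h | ⟨ψ, h1, h2⟩ | ⟨j, ψ, h1, h2⟩
  · exact Or.inl h
  · exact Or.inr (Or.inl h)
  · refine Or.inr (Or.inr (Or.inl ⟨ψ, ?_, ?_⟩))
    · exact List.mem_append_right _ (List.mem_cons_of_mem _ h1)
    · exact List.mem_append_right _ (List.mem_cons_of_mem _ h2)
  · exact Or.inr (Or.inr (Or.inr ⟨j, ψ,
      List.mem_append_right _ (List.mem_cons_of_mem _ h1), h2⟩))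

lemma ded_aux {T : List Fm} {θ : Fm} (hθ : Sentence θ) {L : List Fm} {M : ℕ}
    (hL : IsProof (θ :: T) L) (hM : ∀ ψ ∈ L, ψ.len ≤ M) :
    ∃ L', IsProof T L' ∧ (∀ ψ ∈ L, imp θ ψ ∈ L') ∧ L'.length ≤ 5 * L.length ∧
      ∀ ψ ∈ L', ψ.len ≤ 5 * (M + θ.len + 2) := by
  induction L with
  | nil => exact ⟨[], trivial, by simp, by simp, by simp⟩
  | cons χ L ih =>
    obtain ⟨L', h1, h2, h3, h4⟩ := ih hL.1 (fun ψ hψ => hM ψ (List.mem_cons_of_mem _ hψ))
    have hχM := hM χ List.mem_cons_self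
    -- a line of the old proof that is an axiom
    have key : (χ ∈ T ∨ Ax χ) → ∃ L', IsProof T L' ∧ (∀ ψ ∈ χ :: L, imp θ ψ ∈ L') ∧
        L'.length ≤ 5 * (χ :: L).length ∧ ∀ ψ ∈ L', ψ.len ≤ 5 * (M + θ.len + 2) := by
      intro h
      refine ⟨imp θ χ :: imp χ (imp θ χ) :: χ :: L', ⟨⟨⟨h1, ?_⟩, ?_⟩, ?_⟩, ?_, ?_, ?_⟩
      · rcases h with h | h
        · exact Or.inl h
        · exact Or.inr (Or.inl h)
      · exact Or.inr (Or.inl (Ax.k _ _))
      · exact Or.inr (Or.inr (Or.inl ⟨χ, by simp, by simp⟩))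
      · intro ψ hψ
        rcases List.mem_cons.mp hψ with rfl | hψ
        · simp
        · have := h2 ψ hψ; simp [this]
      · simp; omega
      · intro ψ hψ
        simp only [List.mem_cons] at hψ
        rcases hψ with rfl | rfl | rfl | hψ
        · simp only [Fm.len]; omega
        · simp only [Fm.len]; omega
        · omega
        · exact h4 _ hψ
    rcases hL.2 with h | h | ⟨ψ, h5, h6⟩ | ⟨j, ψ, h5, h6⟩
    · rcases List.mem_cons.mp h with rfl | h
      · -- `θ → θ`
        refine ⟨imp χ χ :: imp (imp χ (imp χ χ)) (imp χ χ) ::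
          imp (imp χ (imp (imp χ χ) χ)) (imp (imp χ (imp χ χ)) (imp χ χ)) ::
          imp χ (imp (imp χ χ) χ) :: imp χ (imp χ χ) :: L',
          ⟨⟨⟨⟨⟨h1, ?_⟩, ?_⟩, ?_⟩, ?_⟩, ?_⟩, ?_, ?_, ?_⟩
        · exact Or.inr (Or.inl (Ax.k _ _))
        · exact Or.inr (Or.inl (Ax.k _ _))
        · exact Or.inr (Or.inl (Ax.s _ _ _))
        · exact Or.inr (Or.inr (Or.inl ⟨imp χ (imp (imp χ χ) χ), by simp, by simp⟩))
        · exact Or.inr (Or.inr (Or.inl ⟨imp χ (imp χ χ), by simp, by simp⟩))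
        · intro ψ hψ
          rcases List.mem_cons.mp hψ with rfl | hψ
          · simp
          · have := h2 ψ hψ; simp [this]
        · simp; omega
        · intro ψ hψ
          simp only [List.mem_cons] at hψ
          have h9 : imp χ χ ∈ imp χ χ :: L' := by simp
          rcases hψ with rfl | rfl | rfl | rfl | rfl | hψ
          · simp only [Fm.len]; omega
          · simp only [Fm.len]; omega
          · simp only [Fm.len]; omega
          · simp only [Fm.len]; omega
          · simp only [Fm.len]; omega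
          · exact h4 _ hψ
      · exact key (Or.inl h)
    · exact key (Or.inr h)
    · -- modus ponens
      have h7 := hM _ (List.mem_cons_of_mem _ h6)
      simp only [Fm.len] at h7
      refine ⟨imp θ χ :: imp (imp θ ψ) (imp θ χ) ::
        imp (imp θ (imp ψ χ)) (imp (imp θ ψ) (imp θ χ)) :: L',
        ⟨⟨⟨h1, ?_⟩, ?_⟩, ?_⟩, ?_, ?_, ?_⟩
      · exact Or.inr (Or.inl (Ax.s _ _ _))
      · refine Or.inr (Or.inr (Or.inl ⟨imp θ (imp ψ χ), ?_, by simp⟩))
        exact List.mem_cons_of_mem _ (h2 _ h6)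
      · refine Or.inr (Or.inr (Or.inl ⟨imp θ ψ, ?_, by simp⟩))
        exact List.mem_cons_of_mem _ (List.mem_cons_of_mem _ (h2 _ h5))
      · intro ρ hρ
        rcases List.mem_cons.mp hρ with rfl | hρ
        · simp
        · have := h2 ρ hρ; simp [this]
      · simp; omega
      · intro ρ hρ
        simp only [List.mem_cons] at hρ
        rcases hρ with rfl | rfl | rfl | hρ
        · simp only [Fm.len]; omega
        · simp only [Fm.len]; omega
        · simp only [Fm.len]; omega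
        · exact h4 _ hρ
    · -- generalization
      subst h6
      simp only [Fm.len] at hχM
      refine ⟨imp θ (all j ψ) :: imp (all j (imp θ ψ)) (imp θ (all j ψ)) ::
        all j (imp θ ψ) :: L', ⟨⟨⟨h1, ?_⟩, ?_⟩, ?_⟩, ?_, ?_, ?_⟩
      · exact Or.inr (Or.inr (Or.inr ⟨j, imp θ ψ, h2 _ h5, rfl⟩))
      · exact Or.inr (Or.inl (Ax.dist _ _ _ (hθ j)))
      · exact Or.inr (Or.inr (Or.inl ⟨all j (imp θ ψ), by simp, by simp⟩))
      · intro ρ hρ
        rcases List.mem_cons.mp hρ with rfl | hρ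
        · simp
        · have := h2 ρ hρ; simp [this]
      · simp; omega
      · intro ρ hρ
        simp only [List.mem_cons] at hρ
        rcases hρ with rfl | rfl | rfl | hρ
        · simp only [Fm.len]; omega
        · simp only [Fm.len]; omega
        · simp only [Fm.len]; omega
        · exact h4 _ hρ

/-- The deduction theorem, with bounds. -/
lemma Pr.ded {T : List Fm} {θ φ : Fm} (hθ : Sentence θ) {n M : ℕ} (h : Pr (θ :: T) n M φ) :
    Pr T (5 * n) (5 * (M + θ.len + 2)) (imp θ φ) := by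
  obtain ⟨L, h1, h2, h3, h4⟩ := h
  obtain ⟨L', h1', h2', h3', h4'⟩ := ded_aux hθ h1 h4
  exact ⟨L', h1', h2' _ h2, by omega, h4'⟩

/-! ### Instances of universal closures -/

/-- The substitution that replaces the variables below `k` by numerals. -/
def below (e : ℕ → ℕ) (k : ℕ) : ℕ → Tm := fun j => if j < k then Tm.num (e j) else Tm.var j

lemma numSub_below (e : ℕ → ℕ) (k : ℕ) : NumSub (below e k) := by
  intro j
  by_cases h : j < k
  · exact Or.inr ⟨e j, by simp [below, h]⟩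
  · exact Or.inl (by simp [below, h])

lemma below_succ (e : ℕ → ℕ) (k : ℕ) : below e (k + 1) = update (below e k) k (Tm.num (e k)) := by
  funext j
  by_cases h : j = k
  · subst h; simp [below]
  · rw [update_of_ne h]
    simp only [below]
    by_cases h' : j < k
    · rw [if_pos h', if_pos (by omega)]
    · rw [if_neg h', if_neg (by omega)]

lemma Pr.inst_uc {T : List Fm} {φ : Fm} {e : ℕ → ℕ} {N : ℕ} (hN : ∀ k, e k ≤ N) (n : ℕ) :
    ∀ (k m M : ℕ), 3 * (Fm.uc k n φ).len * (N + 1) ≤ M →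
      Pr T m M ((Fm.uc k n φ).sb (below e k)) → Pr T (m + 2 * n) M (φ.sb (below e (k + n))) := by
  induction n with
  | zero => intro k m M _ h; exact h
  | succ n ih =>
    intro k m M hM h
    have hb : update (below e k) k (Tm.var k) = below e k := by
      funext j
      by_cases hj : j = k
      · subst hj; simp [below]
      · rw [update_of_ne hj]
    have hlb : ∀ k' j, (below e k' j).len ≤ (j + 1) * (N + 1) := by
      intro k' j
      by_cases hj : j < k'
      · have := hN j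
        simp only [below, if_pos hj, Tm.len_num]; nlinarith
      · simp only [below, if_neg hj, Tm.len]; nlinarith
    simp only [Fm.uc, Fm.sb, hb] at h
    have hax := Ax.inst k ((Fm.uc (k + 1) n φ).sb (below e k)) (Tm.num (e k))
      (Fm.freeFor_num _ _ _)
    have h1 : below e k k = Tm.var k := by simp [below]
    rw [Fm.sub_num_sb (numSub_below e k) h1, ← below_succ] at hax
    have hlen : (imp (all k ((Fm.uc (k + 1) n φ).sb (below e k)))
        ((Fm.uc (k + 1) n φ).sb (below e (k + 1)))).len ≤ M := by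
      have l1 := Fm.len_sb_le (φ := Fm.uc (k + 1) n φ) (σ := below e k) (M := N + 1) (by omega)
        (fun j _ => hlb k j)
      have l2 := Fm.len_sb_le (φ := Fm.uc (k + 1) n φ) (σ := below e (k + 1)) (M := N + 1)
        (by omega) (fun j _ => hlb (k + 1) j)
      simp only [Fm.uc, Fm.len] at hM ⊢
      nlinarith
    have h2 := (Pr.ax (T := T) hax hlen).mp h
    have h3 := ih (k + 1) _ M ?_ h2
    · refine Pr.mono ?_ (le_of_eq ?_) le_rfl (n := 1 + m + 1 + 2 * n)
      · have : k + (n + 1) = k + 1 + n := by omega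
        rw [this]; exact h3
      · omega
    · simp only [Fm.uc, Fm.len] at hM
      have : (Fm.uc (k + 1) n φ).len ≤ (Fm.uc (k + 1) n φ).len + (k + 1) + 1 := by omega
      calc 3 * (Fm.uc (k + 1) n φ).len * (N + 1)
          ≤ 3 * ((Fm.uc (k + 1) n φ).len + (k + 1) + 1) * (N + 1) := by gcongr
        _ ≤ M := hM

/-- Size constant of a formula: controls all closed instances of its universal closure. -/
def Fm.sz (φ : Fm) : ℕ := 3 * φ.ucl.len + 2 * φ.fv + 1

lemma Pr.inst {T : List Fm} {φ : Fm} (h : φ.ucl ∈ T) {e : ℕ → ℕ} {N : ℕ} (hN : ∀ k, e k ≤ N) :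
    Pr T φ.sz (φ.sz * (N + 1)) (φ.cl e) := by
  have h1 : Pr T 1 (φ.sz * (N + 1)) ((Fm.uc 0 φ.fv φ).sb (below e 0)) := by
    have : (Fm.uc 0 φ.fv φ).sb (below e 0) = φ.ucl := by
      have hb : below e 0 = Tm.var := by funext j; simp [below]
      rw [hb, Fm.sb_var]; rfl
    rw [this]
    refine Pr.mem h ?_
    simp only [Fm.sz]; nlinarith
  have h2 := Pr.inst_uc hN φ.fv 0 1 (φ.sz * (N + 1)) ?_ h1
  · have h3 : φ.sb (below e (0 + φ.fv)) = φ.cl e := by
      refine Fm.sb_congr fun k hk => ?_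
      have := Fm.lt_fv hk
      simp [below, this]
    rw [h3] at h2
    refine h2.mono ?_ le_rfl
    simp only [Fm.sz]; omega
  · simp only [Fm.sz, Fm.ucl]; nlinarith

end Helper31Con

end

section

/-!
# Polynomial and elementary bounds; the filter of rich finite sets of true sentences
-/

namespace Helper31Con

open Function Fm

/-! ### Polynomially bounded functions -/

/-- `f` is bounded by a polynomial. -/
def PB (f : ℕ → ℕ) : Prop := ∃ C q : ℕ, ∀ N, f N ≤ C * (N + 2) ^ q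

lemma PB.of_le {f g : ℕ → ℕ} (hg : PB g) (h : ∀ N, f N ≤ g N) : PB f := by
  obtain ⟨C, q, hC⟩ := hg
  exact ⟨C, q, fun N => (h N).trans (hC N)⟩

lemma PB.const (c : ℕ) : PB (fun _ => c) := ⟨c, 0, fun N => by simp⟩

lemma PB.id : PB (fun N => N) := ⟨1, 1, fun N => by simp⟩

lemma PB.add {f g : ℕ → ℕ} (hf : PB f) (hg : PB g) : PB (fun N => f N + g N) := by
  obtain ⟨C, q, hC⟩ := hf
  obtain ⟨C', q', hC'⟩ := hg
  refine ⟨C + C', max q q', fun N => ?_⟩
  have h1 : (N + 2) ^ q ≤ (N + 2) ^ (max q q') := Nat.pow_le_pow_right (by omega) (le_max_left _ _)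
  have h2 : (N + 2) ^ q' ≤ (N + 2) ^ (max q q') :=
    Nat.pow_le_pow_right (by omega) (le_max_right _ _)
  calc f N + g N ≤ C * (N + 2) ^ q + C' * (N + 2) ^ q' := add_le_add (hC N) (hC' N)
    _ ≤ C * (N + 2) ^ (max q q') + C' * (N + 2) ^ (max q q') := by gcongr
    _ = (C + C') * (N + 2) ^ (max q q') := by ring

lemma PB.mul {f g : ℕ → ℕ} (hf : PB f) (hg : PB g) : PB (fun N => f N * g N) := by
  obtain ⟨C, q, hC⟩ := hf
  obtain ⟨C', q', hC'⟩ := hg
  refine ⟨C * C', q + q', fun N => ?_⟩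
  calc f N * g N ≤ (C * (N + 2) ^ q) * (C' * (N + 2) ^ q') := Nat.mul_le_mul (hC N) (hC' N)
    _ = C * C' * (N + 2) ^ (q + q') := by ring

lemma PB.comp {f g : ℕ → ℕ} (hf : PB f) (hg : PB g) : PB (fun N => f (g N)) := by
  obtain ⟨C, q, hC⟩ := hf
  obtain ⟨C', q', hC'⟩ := hg
  refine ⟨C * (C' + 2) ^ q, q' * q, fun N => ?_⟩
  have h1 : g N + 2 ≤ (C' + 2) * (N + 2) ^ q' := by
    have := hC' N
    have h2 : 1 ≤ (N + 2) ^ q' := Nat.one_le_pow _ _ (by omega)
    nlinarith
  calc f (g N) ≤ C * (g N + 2) ^ q := hC _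
    _ ≤ C * ((C' + 2) * (N + 2) ^ q') ^ q := by gcongr
    _ = C * (C' + 2) ^ q * (N + 2) ^ (q' * q) := by rw [mul_pow, ← pow_mul]; ring

lemma PB.sup {f g : ℕ → ℕ} (hf : PB f) (hg : PB g) : PB (fun N => max (f N) (g N)) :=
  (hf.add hg).of_le fun N => by omega

lemma PB.pow {f : ℕ → ℕ} (hf : PB f) (k : ℕ) : PB (fun N => f N ^ k) := by
  induction k with
  | zero => simpa using PB.const 1
  | succ k ih =>
    refine (ih.mul hf).of_le fun N => ?_
    simp [pow_succ]

/-- A monotone polynomial bound. -/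
lemma PB.exists_mono {f : ℕ → ℕ} (hf : PB f) : ∃ g, PB g ∧ Monotone g ∧ ∀ N, f N ≤ g N := by
  obtain ⟨C, q, hC⟩ := hf
  refine ⟨fun N => C * (N + 2) ^ q, ⟨C, q, fun N => le_rfl⟩, ?_, hC⟩
  intro a b hab
  simp only
  gcongr

/-! ### Elementary bounds -/

/-- Iterated exponential. -/
def tw : ℕ → ℕ → ℕ
  | 0, n => n
  | h + 1, n => 2 ^ tw h n

lemma tw_add (h h' n : ℕ) : tw (h + h') n = tw h (tw h' n) := by
  induction h with
  | zero => simp [tw]
  | succ h ih => rw [Nat.succ_add]; simp [tw, ih]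

lemma tw_mono (h : ℕ) : Monotone (tw h) := by
  induction h with
  | zero => exact monotone_id
  | succ h ih =>
    intro a b hab
    exact Nat.pow_le_pow_right (by omega) (ih hab)

lemma le_tw (h n : ℕ) : n ≤ tw h n := by
  induction h with
  | zero => exact le_rfl
  | succ h ih => exact ih.trans (Nat.lt_two_pow_self).le

lemma tw_le_tw {h h' : ℕ} (hh : h ≤ h') (n : ℕ) : tw h n ≤ tw h' n := by
  obtain ⟨d, rfl⟩ := Nat.exists_eq_add_of_le hh
  rw [Nat.add_comm, tw_add]
  exact le_tw _ _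

lemma tw_add_le (h n k : ℕ) : tw h n + k ≤ tw h (n + k) := by
  induction h with
  | zero => exact le_rfl
  | succ h ih =>
    simp only [tw]
    calc 2 ^ tw h n + k ≤ 2 ^ tw h n * 2 ^ k := by
          have h1 : k < 2 ^ k := Nat.lt_two_pow_self
          have h2 : 1 ≤ 2 ^ tw h n := Nat.one_le_two_pow
          nlinarith
      _ = 2 ^ (tw h n + k) := (pow_add _ _ _).symm
      _ ≤ 2 ^ tw h (n + k) := Nat.pow_le_pow_right (by omega) ih

/-- `f` is bounded by an elementary function. -/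
def EB (f : ℕ → ℕ) : Prop := ∃ h : ℕ, ∀ N, f N ≤ tw h (N + h)

lemma EB.of_le {f g : ℕ → ℕ} (hg : EB g) (h : ∀ N, f N ≤ g N) : EB f := by
  obtain ⟨k, hk⟩ := hg
  exact ⟨k, fun N => (h N).trans (hk N)⟩

lemma EB.const (c : ℕ) : EB (fun _ => c) :=
  ⟨c, fun N => (show c ≤ N + c by omega).trans (le_tw _ _)⟩

lemma EB.id : EB (fun N => N) := ⟨0, fun N => le_rfl⟩

lemma EB.comp {f g : ℕ → ℕ} (hf : EB f) (hg : EB g) : EB (fun N => f (g N)) := by
  obtain ⟨h, hh⟩ := hf
  obtain ⟨k, hk⟩ := hg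
  refine ⟨h + k, fun N => ?_⟩
  calc f (g N) ≤ tw h (g N + h) := hh _
    _ ≤ tw h (tw k (N + k) + h) := tw_mono _ (Nat.add_le_add_right (hk N) _)
    _ ≤ tw h (tw k (N + k + h)) := tw_mono _ (tw_add_le _ _ _)
    _ = tw (h + k) (N + k + h) := (tw_add _ _ _).symm
    _ = tw (h + k) (N + (h + k)) := by congr 1; omega

lemma EB.sup {f g : ℕ → ℕ} (hf : EB f) (hg : EB g) : EB (fun N => max (f N) (g N)) := by
  obtain ⟨h, hh⟩ := hf
  obtain ⟨k, hk⟩ := hg
  refine ⟨max h k, fun N => max_le ?_ ?_⟩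
  · exact (hh N).trans ((tw_mono _ (by have := le_max_left h k; omega)).trans
      (tw_le_tw (le_max_left h k) _))
  · exact (hk N).trans ((tw_mono _ (by have := le_max_right h k; omega)).trans
      (tw_le_tw (le_max_right h k) _))

lemma EB.pow2 : EB (fun N => 2 ^ N) := ⟨1, fun N => by
  simp only [tw]; exact Nat.pow_le_pow_right (by omega) (by omega)⟩

lemma EB.mul {f g : ℕ → ℕ} (hf : EB f) (hg : EB g) : EB (fun N => f N * g N) := by
  have h1 : EB (fun N => 2 ^ (2 ^ (max (f N) (g N)))) :=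
    EB.comp (f := fun N => 2 ^ N) EB.pow2 (EB.comp (f := fun N => 2 ^ N) EB.pow2 (hf.sup hg))
  refine h1.of_le fun N => ?_
  set y := max (f N) (g N) with hy
  have hf' : f N ≤ y := le_max_left _ _
  have hg' : g N ≤ y := le_max_right _ _
  have h2 : y < 2 ^ y := Nat.lt_two_pow_self
  have h3 : y + y ≤ 2 ^ y ∨ y = 0 := by
    rcases Nat.eq_zero_or_pos y with h | h
    · exact Or.inr h
    · left
      obtain ⟨z, hz⟩ : ∃ z, y = z + 1 := ⟨y - 1, by omega⟩
      have : z < 2 ^ z := Nat.lt_two_pow_self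
      rw [hz, pow_succ]; omega
  rcases h3 with h3 | h3
  · calc f N * g N ≤ y * y := Nat.mul_le_mul hf' hg'
      _ ≤ 2 ^ y * 2 ^ y := Nat.mul_le_mul h2.le h2.le
      _ = 2 ^ (y + y) := (pow_add _ _ _).symm
      _ ≤ 2 ^ (2 ^ y) := Nat.pow_le_pow_right (by omega) h3
  · have : f N = 0 := by omega
    rw [this]; simp

lemma EB.add {f g : ℕ → ℕ} (hf : EB f) (hg : EB g) : EB (fun N => f N + g N) := by
  have h1 : EB (fun N => 2 * max (f N) (g N)) := (EB.const 2).mul (hf.sup hg)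
  refine h1.of_le fun N => ?_
  have := le_max_left (f N) (g N)
  have := le_max_right (f N) (g N)
  omega

lemma EB.pow {f g : ℕ → ℕ} (hf : EB f) (hg : EB g) : EB (fun N => f N ^ g N) := by
  have h1 : EB (fun N => 2 ^ (f N * g N)) := EB.comp (f := fun N => 2 ^ N) EB.pow2 (hf.mul hg)
  refine h1.of_le fun N => ?_
  rw [pow_mul]
  exact Nat.pow_le_pow_left (Nat.lt_two_pow_self).le _

lemma PB.eb {f : ℕ → ℕ} (hf : PB f) : EB f := by
  obtain ⟨C, q, hC⟩ := hf
  refine EB.of_le ?_ hC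
  exact (EB.const C).mul ((EB.id.add (EB.const 2)).pow (EB.const q))

/-- A monotone elementary bound. -/
lemma EB.exists_mono {f : ℕ → ℕ} (hf : EB f) : ∃ g, EB g ∧ Monotone g ∧ ∀ N, f N ≤ g N := by
  obtain ⟨h, hh⟩ := hf
  exact ⟨fun N => tw h (N + h), ⟨h, fun N => le_rfl⟩,
    fun a b hab => tw_mono _ (Nat.add_le_add_right hab _), hh⟩

/-! ### Rich sets of true sentences -/

/-- The filter of all properties that hold for every finite set of sentences extending some finite
set of true sentences. -/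
def rich : Filter (List Fm) where
  sets := {S | ∃ B₀ : List Fm, (∀ β ∈ B₀, TrueS β) ∧ ∀ B : List Fm, (∀ β ∈ B₀, β ∈ B) → B ∈ S}
  univ_sets := ⟨[], by simp, by simp⟩
  sets_of_superset := by
    rintro S S' ⟨B₀, h1, h2⟩ hS
    exact ⟨B₀, h1, fun B hB => hS (h2 B hB)⟩
  inter_sets := by
    rintro S S' ⟨B₀, h1, h2⟩ ⟨B₁, h3, h4⟩
    refine ⟨B₀ ++ B₁, ?_, ?_⟩
    · intro β hβ
      rcases List.mem_append.mp hβ with h | h
      · exact h1 β h
      · exact h3 β h
    · intro B hB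
      exact ⟨h2 B fun β hβ => hB β (List.mem_append_left _ hβ),
        h4 B fun β hβ => hB β (List.mem_append_right _ hβ)⟩

lemma rich_iff {P : List Fm → Prop} : (∀ᶠ B in rich, P B) ↔
    ∃ B₀ : List Fm, (∀ β ∈ B₀, TrueS β) ∧ ∀ B : List Fm, (∀ β ∈ B₀, β ∈ B) → P B := Iff.rfl

lemma rich_mem {β : Fm} (h : TrueS β) : ∀ᶠ B in rich, β ∈ B :=
  ⟨[β], by simpa using h, fun B hB => hB β (by simp)⟩

lemma rich_ucl {φ : Fm} (h : ∀ e, φ.Sat e) : ∀ᶠ B in rich, φ.ucl ∈ B := rich_mem (Fm.ucl_true h)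

/-! ### Assignments given by lists -/

/-- The assignment given by a list of values (`0` beyond its end). -/
def as (l : List ℕ) : ℕ → ℕ := fun k => l.getD k 0

lemma as_le {l : List ℕ} {N : ℕ} (h : ∀ a ∈ l, a ≤ N) (k : ℕ) : as l k ≤ N := by
  unfold as
  by_cases hk : k < l.length
  · rw [List.getD_eq_getElem _ _ hk]; exact h _ (List.getElem_mem hk)
  · rw [List.getD_eq_default _ _ (by omega)]; omega

end Helper31Con

end

section

/-!
# Short proofs of arithmetical facts about numerals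
-/

namespace Helper31Con

open Function Fm Tm Filter

lemma Pr.h1 {B : List Fm} {φ : Fm} (h : φ.ucl ∈ B) {α β : Fm} (hφ : φ = imp α β)
    {e : ℕ → ℕ} {N n M : ℕ} (hN : ∀ k, e k ≤ N) (hM : φ.sz * (N + 1) ≤ M)
    (h1 : Pr B n M (α.cl e)) : Pr B (φ.sz + n + 1) M (β.cl e) := by
  subst hφ
  exact ((Pr.inst h hN).mono le_rfl hM).mp h1

lemma Pr.h2 {B : List Fm} {φ : Fm} (h : φ.ucl ∈ B) {α₁ α₂ β : Fm}
    (hφ : φ = imp α₁ (imp α₂ β)) {e : ℕ → ℕ} {N n₁ n₂ M : ℕ}
    (hN : ∀ k, e k ≤ N) (hM : φ.sz * (N + 1) ≤ M) (h1 : Pr B n₁ M (α₁.cl e))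
    (h2 : Pr B n₂ M (α₂.cl e)) :
    Pr B (φ.sz + n₁ + n₂ + 2) M (β.cl e) := by
  subst hφ
  exact ((((Pr.inst h hN).mono le_rfl hM).mp h1).mp h2).mono (by omega) le_rfl

lemma Pr.h3 {B : List Fm} {φ : Fm} (h : φ.ucl ∈ B) {α₁ α₂ α₃ β : Fm}
    (hφ : φ = imp α₁ (imp α₂ (imp α₃ β))) {e : ℕ → ℕ} {N n₁ n₂ n₃ M : ℕ}
    (hN : ∀ k, e k ≤ N) (hM : φ.sz * (N + 1) ≤ M)
    (h1 : Pr B n₁ M (α₁.cl e)) (h2 : Pr B n₂ M (α₂.cl e)) (h3 : Pr B n₃ M (α₃.cl e)) :
    Pr B (φ.sz + n₁ + n₂ + n₃ + 3) M (β.cl e) := by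
  subst hφ
  exact (((((Pr.inst h hN).mono le_rfl hM).mp h1).mp h2).mp h3).mono (by omega) le_rfl

lemma Pr.h4 {B : List Fm} {φ : Fm} (h : φ.ucl ∈ B) {α₁ α₂ α₃ α₄ β : Fm}
    (hφ : φ = imp α₁ (imp α₂ (imp α₃ (imp α₄ β)))) {e : ℕ → ℕ} {N n₁ n₂ n₃ n₄ M : ℕ}
    (hN : ∀ k, e k ≤ N) (hM : φ.sz * (N + 1) ≤ M)
    (h1 : Pr B n₁ M (α₁.cl e)) (h2 : Pr B n₂ M (α₂.cl e)) (h3 : Pr B n₃ M (α₃.cl e))
    (h4 : Pr B n₄ M (α₄.cl e)) :
    Pr B (φ.sz + n₁ + n₂ + n₃ + n₄ + 4) M (β.cl e) := by
  subst hφ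
  exact ((((((Pr.inst h hN).mono le_rfl hM).mp h1).mp h2).mp h3).mp h4).mono (by omega) le_rfl

lemma Pr.eqRefl {B : List Fm} {t : Tm} {M : ℕ} (h : 2 * t.len + 1 ≤ M) : Pr B 1 M (eq t t) :=
  Pr.ax (Ax.refl t) (by simp only [Fm.len]; omega)

lemma num_ne : ∃ f, PB f ∧ ∀ᶠ B in rich, ∀ N a b, a ≤ N → b ≤ N → a ≠ b →
    Pr B (f N) (f N) (neg (eq (num a) (num b))) := by
  set φ1 := imp (neg (eq (var 0) (var 1))) (neg (eq (succ (var 0)) (succ (var 1)))) with hφ1
  set φ2 := neg (eq zero (succ (var 0))) with hφ2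
  set φ3 := neg (eq (succ (var 0)) zero) with hφ3
  set S := φ1.sz + φ2.sz + φ3.sz with hS
  refine ⟨fun N => (S + 1) * (N + 1), (PB.const _).mul (PB.id.add (PB.const 1)), ?_⟩
  have e1 : ∀ᶠ B in rich, φ1.ucl ∈ B := rich_ucl fun e h => by
    simp only [Fm.Sat, Tm.val, Fm.sat_neg] at h ⊢; omega
  have e2 : ∀ᶠ B in rich, φ2.ucl ∈ B := rich_ucl fun e => by
    simp only [hφ2, Fm.Sat, Tm.val, Fm.sat_neg]; omega
  have e3 : ∀ᶠ B in rich, φ3.ucl ∈ B := rich_ucl fun e => by
    simp only [hφ3, Fm.Sat, Tm.val, Fm.sat_neg]; omega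
  filter_upwards [e1, e2, e3] with B h1 h2 h3 N
  have key : ∀ a b, a ≤ N → b ≤ N → a ≠ b →
      Pr B ((S + 1) * (a + 1)) (S * (N + 1)) (neg (eq (num a) (num b))) := by
    intro a
    induction a with
    | zero =>
      intro b ha hb hab
      obtain ⟨b', rfl⟩ : ∃ b', b = b' + 1 := ⟨b - 1, by omega⟩
      have h := Pr.inst h2 (e := as [b']) (N := N) (as_le (by simp; omega))
      refine Pr.mono h ?_ ?_
      · omega
      · exact Nat.mul_le_mul_right _ (by omega)
    | succ a ih =>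
      intro b ha hb hab
      cases b with
      | zero =>
        have h := Pr.inst h3 (e := as [a]) (N := N) (as_le (by simp; omega))
        refine Pr.mono h ?_ ?_
        · nlinarith
        · exact Nat.mul_le_mul_right _ (by omega)
      | succ b =>
        have h := Pr.h1 h1 rfl (e := as [a, b]) (N := N) (as_le (by simp; omega))
          (Nat.mul_le_mul_right _ (by omega)) (ih b (by omega) (by omega) (by omega))
        refine Pr.mono h ?_ le_rfl
        nlinarith
  intro a b ha hb hab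
  refine (key a b ha hb hab).mono ?_ ?_
  · exact Nat.mul_le_mul_left _ (by omega)
  · exact Nat.mul_le_mul_right _ (by omega)

lemma num_le : ∃ f, PB f ∧ ∀ᶠ B in rich, ∀ N a b, a ≤ N → b ≤ N → a ≤ b →
    Pr B (f N) (f N) (le (num a) (num b)) := by
  set φ1 := imp (le (var 0) (var 1)) (le (succ (var 0)) (succ (var 1))) with hφ1
  set φ2 := le zero (var 0) with hφ2
  set S := φ1.sz + φ2.sz with hS
  refine ⟨fun N => (S + 1) * (N + 1), (PB.const _).mul (PB.id.add (PB.const 1)), ?_⟩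
  have e1 : ∀ᶠ B in rich, φ1.ucl ∈ B := rich_ucl fun e h => by
    simp only [Fm.Sat, Tm.val] at h ⊢; omega
  have e2 : ∀ᶠ B in rich, φ2.ucl ∈ B := rich_ucl fun e => by
    simp only [hφ2, Fm.Sat, Tm.val]; omega
  filter_upwards [e1, e2] with B h1 h2 N
  have key : ∀ a b, a ≤ N → b ≤ N → a ≤ b →
      Pr B ((S + 1) * (a + 1)) (S * (N + 1)) (le (num a) (num b)) := by
    intro a
    induction a with
    | zero =>
      intro b ha hb hab
      have h := Pr.inst h2 (e := as [b]) (N := N) (as_le (by simp; omega))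
      refine Pr.mono h ?_ ?_
      · omega
      · exact Nat.mul_le_mul_right _ (by omega)
    | succ a ih =>
      intro b ha hb hab
      cases b with
      | zero => omega
      | succ b =>
        have h := Pr.h1 h1 rfl (e := as [a, b]) (N := N) (as_le (by simp; omega))
          (Nat.mul_le_mul_right _ (by omega)) (ih b (by omega) (by omega) (by omega))
        refine Pr.mono h ?_ le_rfl
        nlinarith
  intro a b ha hb hab
  refine (key a b ha hb hab).mono ?_ ?_
  · exact Nat.mul_le_mul_left _ (by omega)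
  · exact Nat.mul_le_mul_right _ (by omega)

lemma num_nle : ∃ f, PB f ∧ ∀ᶠ B in rich, ∀ N a b, a ≤ N → b ≤ N → ¬ a ≤ b →
    Pr B (f N) (f N) (neg (le (num a) (num b))) := by
  set φ1 := imp (neg (le (var 0) (var 1))) (neg (le (succ (var 0)) (succ (var 1)))) with hφ1
  set φ2 := neg (le (succ (var 0)) zero) with hφ2
  set S := φ1.sz + φ2.sz with hS
  refine ⟨fun N => (S + 1) * (N + 1), (PB.const _).mul (PB.id.add (PB.const 1)), ?_⟩
  have e1 : ∀ᶠ B in rich, φ1.ucl ∈ B := rich_ucl fun e h => by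
    simp only [Fm.Sat, Tm.val, Fm.sat_neg] at h ⊢; omega
  have e2 : ∀ᶠ B in rich, φ2.ucl ∈ B := rich_ucl fun e => by
    simp only [hφ2, Fm.Sat, Tm.val, Fm.sat_neg]; omega
  filter_upwards [e1, e2] with B h1 h2 N
  have key : ∀ b a, a ≤ N → b ≤ N → ¬ a ≤ b →
      Pr B ((S + 1) * (b + 1)) (S * (N + 1)) (neg (le (num a) (num b))) := by
    intro b
    induction b with
    | zero =>
      intro a ha hb hab
      obtain ⟨a', rfl⟩ : ∃ a', a = a' + 1 := ⟨a - 1, by omega⟩
      have h := Pr.inst h2 (e := as [a']) (N := N) (as_le (by simp; omega))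
      refine Pr.mono h ?_ ?_
      · omega
      · exact Nat.mul_le_mul_right _ (by omega)
    | succ b ih =>
      intro a ha hb hab
      obtain ⟨a', rfl⟩ : ∃ a', a = a' + 1 := ⟨a - 1, by omega⟩
      have h := Pr.h1 h1 rfl (e := as [a', b]) (N := N) (as_le (by simp; omega))
        (Nat.mul_le_mul_right _ (by omega)) (ih a' (by omega) (by omega) (by omega))
      refine Pr.mono h ?_ le_rfl
      nlinarith
  intro a b ha hb hab
  refine (key b a ha hb hab).mono ?_ ?_
  · exact Nat.mul_le_mul_left _ (by omega)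
  · exact Nat.mul_le_mul_right _ (by omega)

lemma num_add : ∃ f, PB f ∧ ∀ᶠ B in rich, ∀ N a b, a ≤ N → b ≤ N →
    Pr B (f N) (f N) (eq (num (a + b)) (add (num a) (num b))) := by
  set φ1 := imp (eq (var 2) (add (var 0) (var 1)))
    (eq (succ (var 2)) (add (var 0) (succ (var 1)))) with hφ1
  set φ2 := eq (var 0) (add (var 0) zero) with hφ2
  set S := φ1.sz + φ2.sz with hS
  refine ⟨fun N => (S + 1) * (2 * N + 1),
    (PB.const _).mul (((PB.const 2).mul PB.id).add (PB.const 1)), ?_⟩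
  have e1 : ∀ᶠ B in rich, φ1.ucl ∈ B := rich_ucl fun e h => by
    simp only [Fm.Sat, Tm.val] at h ⊢; omega
  have e2 : ∀ᶠ B in rich, φ2.ucl ∈ B := rich_ucl fun e => by
    simp only [hφ2, Fm.Sat, Tm.val]; omega
  filter_upwards [e1, e2] with B h1 h2 N a b ha
  have key : ∀ b, b ≤ N →
      Pr B ((S + 1) * (b + 1)) (S * (2 * N + 1)) (eq (num (a + b)) (add (num a) (num b))) := by
    intro b
    induction b with
    | zero =>
      intro hb
      have h := Pr.inst h2 (e := as [a]) (N := 2 * N) (as_le (by simp; omega))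
      refine Pr.mono h ?_ ?_
      · omega
      · exact Nat.mul_le_mul_right _ (by omega)
    | succ b ih =>
      intro hb
      have h := Pr.h1 h1 rfl (e := as [a, b, a + b]) (N := 2 * N) (as_le (by simp; omega))
        (Nat.mul_le_mul_right _ (by omega)) (ih (by omega))
      refine Pr.mono h ?_ le_rfl
      nlinarith
  intro hb
  refine (key b hb).mono ?_ ?_
  · exact Nat.mul_le_mul_left _ (by omega)
  · exact Nat.mul_le_mul_right _ (by omega)

lemma num_mul : ∃ f, PB f ∧ ∀ᶠ B in rich, ∀ N a b, a ≤ N → b ≤ N →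
    Pr B (f N) (f N) (eq (num (a * b)) (mul (num a) (num b))) := by
  obtain ⟨f, hf, hB⟩ := num_add
  set φ1 := imp (eq (var 2) (mul (var 0) (var 1))) (imp (eq (var 3) (add (var 2) (var 0)))
    (eq (var 3) (mul (var 0) (succ (var 1))))) with hφ1
  set φ2 := eq zero (mul (var 0) zero) with hφ2
  set S := φ1.sz + φ2.sz with hS
  set g : ℕ → ℕ := fun N => f (N * (N + 1)) + S * (N * (N + 1) + 1) with hg
  have hgPB : PB g := by
    have h1 : PB (fun N => N * (N + 1)) := PB.id.mul (PB.id.add (PB.const 1))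
    exact (hf.comp h1).add ((PB.const S).mul (h1.add (PB.const 1)))
  refine ⟨fun N => (S + g N + 2) * (N + 1), ((PB.const S).add hgPB |>.add (PB.const 2)).mul
    (PB.id.add (PB.const 1)), ?_⟩
  have e1 : ∀ᶠ B in rich, φ1.ucl ∈ B := rich_ucl fun e h h' => by
    simp only [Fm.Sat, Tm.val] at h h' ⊢; rw [h', h]; ring
  have e2 : ∀ᶠ B in rich, φ2.ucl ∈ B := rich_ucl fun e => by
    simp [hφ2, Fm.Sat, Tm.val]
  filter_upwards [hB, e1, e2] with B hB h1 h2 N a b ha
  have key : ∀ b, b ≤ N →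
      Pr B ((S + g N + 2) * (b + 1)) (g N) (eq (num (a * b)) (mul (num a) (num b))) := by
    intro b
    induction b with
    | zero =>
      intro hb
      have h := Pr.inst h2 (e := as [a]) (N := N * (N + 1)) (as_le (by simp; nlinarith))
      refine Pr.mono h ?_ ?_
      · omega
      · simp only [hg]
        have : φ2.sz * (N * (N + 1) + 1) ≤ S * (N * (N + 1) + 1) :=
          Nat.mul_le_mul_right _ (by omega)
        omega
    | succ b ih =>
      intro hb
      have hab : a * b ≤ N * (N + 1) := Nat.mul_le_mul ha (by omega)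
      have hab' : a * b + a ≤ N * (N + 1) := by
        calc a * b + a = a * (b + 1) := by ring
          _ ≤ N * (N + 1) := Nat.mul_le_mul ha (by omega)
      have ha' : a ≤ N * (N + 1) := by nlinarith
      have h3 := (hB (N * (N + 1)) (a * b) a hab ha').mono (n' := g N) (M' := g N)
        (by simp only [hg]; omega) (by simp only [hg]; omega)
      have h := Pr.h2 h1 rfl (e := as [a, b, a * b, a * b + a]) (N := N * (N + 1)) (M := g N)
        (as_le (by
          simp only [List.mem_cons, List.not_mem_nil, or_false]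
          rintro x (rfl | rfl | rfl | rfl)
          · exact ha'
          · nlinarith
          · exact hab
          · exact hab')) ?_ (ih (by omega)) h3
      · refine Pr.mono h ?_ le_rfl
        nlinarith
      · simp only [hg]
        have : φ1.sz * (N * (N + 1) + 1) ≤ S * (N * (N + 1) + 1) :=
          Nat.mul_le_mul_right _ (by omega)
        omega
  intro hb
  refine (key b hb).mono ?_ ?_
  · exact Nat.mul_le_mul_left _ (by omega)
  · nlinarith

end Helper31Con

end

section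

/-!
# Deciding atomic formulas and bounded quantifiers at numerals
-/

namespace Helper31Con

open Function Fm Tm Filter

/-- Closed instance of a term. -/
def Tm.cl (e : ℕ → ℕ) (t : Tm) : Tm := t.sb (fun k => num (e k))

lemma Tm.len_cl {t : Tm} {e : ℕ → ℕ} {N : ℕ} (h : ∀ k, e k ≤ N) :
    (t.cl e).len ≤ t.len * (N + 1) := Tm.len_cl_le fun k _ => h k

lemma Fm.len_cl {φ : Fm} {e : ℕ → ℕ} {N : ℕ} (h : ∀ k, e k ≤ N) :
    (φ.cl e).len ≤ φ.len * (N + 1) := Fm.len_cl_le fun k _ => h k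

lemma tm_val (t : Tm) : ∃ f, PB f ∧ ∀ N e, (∀ k, e k ≤ N) → t.val e ≤ f N := by
  induction t with
  | var j => exact ⟨fun N => N, PB.id, fun N e h => h j⟩
  | zero => exact ⟨fun _ => 0, PB.const 0, fun N e h => le_rfl⟩
  | succ t ih =>
    obtain ⟨f, hf, h⟩ := ih
    exact ⟨fun N => f N + 1, hf.add (PB.const 1), fun N e he => by
      have := h N e he; simp only [Tm.val]; omega⟩
  | add t s iht ihs =>
    obtain ⟨f, hf, h⟩ := iht
    obtain ⟨f', hf', h'⟩ := ihs
    exact ⟨fun N => f N + f' N, hf.add hf', fun N e he => add_le_add (h N e he) (h' N e he)⟩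
  | mul t s iht ihs =>
    obtain ⟨f, hf, h⟩ := iht
    obtain ⟨f', hf', h'⟩ := ihs
    exact ⟨fun N => f N * f' N, hf.mul hf', fun N e he => Nat.mul_le_mul (h N e he) (h' N e he)⟩

lemma Pr.eqTrans {B : List Fm} {a b c : Tm} {n n' M : ℕ} (h : Pr B n M (eq a b))
    (h' : Pr B n' M (eq b c)) (hM : 4 * a.len + 2 * b.len + 2 * c.len + 7 ≤ M) :
    Pr B (n + n' + 5) M (eq a c) := by
  have h1 := Pr.ax (T := B) (Ax.congEq a a b c) (M := M) (by simp only [Fm.len]; omega)
  have h2 := Pr.eqRefl (B := B) (t := a) (M := M) (by omega)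
  exact (((h1.mp h2).mp h').mp h).mono (by omega) le_rfl

lemma tm_fact (t : Tm) : ∃ f, PB f ∧ ∀ᶠ B in rich, ∀ N e, (∀ k, e k ≤ N) →
    Pr B (f N) (f N) (eq (num (t.val e)) (t.cl e)) := by
  induction t with
  | var j =>
    refine ⟨fun N => 2 * (N + 1) + 1, ((PB.const 2).mul (PB.id.add (PB.const 1))).add
      (PB.const 1), Eventually.of_forall fun B N e he => ?_⟩
    refine (Pr.eqRefl (B := B) (t := num (e j)) (M := 2 * (N + 1) + 1) ?_).mono
      (by show 1 ≤ 2 * (N + 1) + 1; omega) le_rfl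
    have := he j
    simp only [Tm.len_num]; omega
  | zero =>
    refine ⟨fun N => 3, PB.const 3, Eventually.of_forall fun B N e he => ?_⟩
    exact (Pr.eqRefl (B := B) (t := zero) (M := 3) (by simp [Tm.len])).mono
      (by show 1 ≤ 3; omega) le_rfl
  | succ t ih =>
    obtain ⟨f, hf, h⟩ := ih
    obtain ⟨v, hv, hv'⟩ := tm_val t
    refine ⟨fun N => f N + (2 * (v N + 1) + 2 * (t.len * (N + 1)) + 10), hf.add
      ((((PB.const 2).mul (hv.add (PB.const 1))).add ((PB.const 2).mul ((PB.const _).mul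
        (PB.id.add (PB.const 1))))).add (PB.const 10)), ?_⟩
    filter_upwards [h] with B h N e he
    have h1 := (h N e he).mono (n' := f N + (2 * (v N + 1) + 2 * (t.len * (N + 1)) + 8))
      (M' := f N + (2 * (v N + 1) + 2 * (t.len * (N + 1)) + 10)) (by omega) (by omega)
    have hl := Tm.len_cl (t := t) he
    have hl' := hv' N e he
    have h2 := Pr.ax (T := B) (Ax.congS (num (t.val e)) (t.cl e))
      (M := f N + (2 * (v N + 1) + 2 * (t.len * (N + 1)) + 10))
      (by simp only [Fm.len, Tm.len, Tm.len_num]; omega)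
    exact (h2.mp h1).mono (by omega) le_rfl
  | add t s iht ihs =>
    obtain ⟨f, hf, h⟩ := iht
    obtain ⟨f', hf', h'⟩ := ihs
    obtain ⟨v, hv, hv1⟩ := tm_val t
    obtain ⟨w, hw, hw1⟩ := tm_val s
    obtain ⟨g, hg, h''⟩ := num_add
    set L : ℕ → ℕ := fun N => v N + w N + t.len * (N + 1) + s.len * (N + 1) with hL
    have hLP : PB L := ((hv.add hw).add ((PB.const _).mul (PB.id.add (PB.const 1)))).add
      ((PB.const _).mul (PB.id.add (PB.const 1)))
    refine ⟨fun N => f N + f' N + g (v N + w N) + (20 * L N + 40), ((hf.add hf').add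
      (hg.comp (hv.add hw))).add (((PB.const 20).mul hLP).add (PB.const 40)), ?_⟩
    filter_upwards [h, h', h''] with B h h' h'' N e he
    set M := f N + f' N + g (v N + w N) + (20 * L N + 40) with hM
    have l1 := Tm.len_cl (t := t) he
    have l2 := Tm.len_cl (t := s) he
    have l3 := hv1 N e he
    have l4 := hw1 N e he
    have hLN : L N = v N + w N + t.len * (N + 1) + s.len * (N + 1) := rfl
    have h1 := (h N e he).mono (M' := M) le_rfl (by omega)
    have h2 := (h' N e he).mono (M' := M) le_rfl (by omega)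
    have h3 := (h'' (v N + w N) (t.val e) (s.val e) (by omega) (by omega)).mono (M' := M) le_rfl
      (by omega)
    have h4 := Pr.ax (T := B) (Ax.congAdd (num (t.val e)) (t.cl e) (num (s.val e)) (s.cl e))
      (M := M) (by simp only [Fm.len, Tm.len, Tm.len_num]; omega)
    have h5 := (h4.mp h1).mp h2
    have h6 := h3.eqTrans h5 (by simp only [Tm.len, Tm.len_num]; omega)
    exact h6.mono (by omega) le_rfl
  | mul t s iht ihs =>
    obtain ⟨f, hf, h⟩ := iht
    obtain ⟨f', hf', h'⟩ := ihs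
    obtain ⟨v, hv, hv1⟩ := tm_val t
    obtain ⟨w, hw, hw1⟩ := tm_val s
    obtain ⟨g, hg, h''⟩ := num_mul
    set L : ℕ → ℕ := fun N => v N + w N + v N * w N + t.len * (N + 1) + s.len * (N + 1) with hL
    have hLP : PB L := (((hv.add hw).add (hv.mul hw)).add ((PB.const _).mul
      (PB.id.add (PB.const 1)))).add ((PB.const _).mul (PB.id.add (PB.const 1)))
    refine ⟨fun N => f N + f' N + g (v N + w N) + (20 * L N + 40), ((hf.add hf').add
      (hg.comp (hv.add hw))).add (((PB.const 20).mul hLP).add (PB.const 40)), ?_⟩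
    filter_upwards [h, h', h''] with B h h' h'' N e he
    set M := f N + f' N + g (v N + w N) + (20 * L N + 40) with hM
    have l1 := Tm.len_cl (t := t) he
    have l2 := Tm.len_cl (t := s) he
    have l3 := hv1 N e he
    have l4 := hw1 N e he
    have l5 : t.val e * s.val e ≤ v N * w N := Nat.mul_le_mul l3 l4
    have hLN : L N = v N + w N + v N * w N + t.len * (N + 1) + s.len * (N + 1) := rfl
    have h1 := (h N e he).mono (M' := M) le_rfl (by omega)
    have h2 := (h' N e he).mono (M' := M) le_rfl (by omega)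
    have h3 := (h'' (v N + w N) (t.val e) (s.val e) (by omega) (by omega)).mono (M' := M) le_rfl
      (by omega)
    have h4 := Pr.ax (T := B) (Ax.congMul (num (t.val e)) (t.cl e) (num (s.val e)) (s.cl e))
      (M := M) (by simp only [Fm.len, Tm.len, Tm.len_num]; omega)
    have h5 := (h4.mp h1).mp h2
    have h6 := h3.eqTrans h5 (by simp only [Tm.len, Tm.len_num]; omega)
    exact h6.mono (by omega) le_rfl

/-- `B` decides the closed instance of `φ` at `e`, with `n` lines of length at most `n`. -/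
def DecAt (B : List Fm) (n : ℕ) (φ : Fm) (e : ℕ → ℕ) : Prop :=
  (φ.Sat e → Pr B n n (φ.cl e)) ∧ (¬ φ.Sat e → Pr B n n ((neg φ).cl e))

lemma DecAt.mono {B : List Fm} {n n' : ℕ} {φ : Fm} {e : ℕ → ℕ} (h : DecAt B n φ e)
    (hn : n ≤ n') : DecAt B n' φ e :=
  ⟨fun h1 => (h.1 h1).mono hn hn, fun h1 => (h.2 h1).mono hn hn⟩

/-- Update at a fresh variable does not change a closed instance. -/
lemma Tm.cl_update {t : Tm} {p : ℕ} (hp : t.fv ≤ p) (e : ℕ → ℕ) (a : ℕ) :
    t.cl (update e p a) = t.cl e := by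
  refine Tm.sb_congr fun k hk => ?_
  have := Tm.lt_fv hk
  rw [update_of_ne (by omega)]

lemma Tm.val_update {t : Tm} {p : ℕ} (hp : t.fv ≤ p) (e : ℕ → ℕ) (a : ℕ) :
    t.val (update e p a) = t.val e := by
  refine Tm.val_congr fun k hk => ?_
  have := Tm.lt_fv hk
  rw [update_of_ne (by omega)]

lemma Fm.cl_update {φ : Fm} {p : ℕ} (hp : φ.fv ≤ p) (e : ℕ → ℕ) (a : ℕ) :
    φ.cl (update e p a) = φ.cl e := by
  refine Fm.cl_congr fun k hk => ?_
  have := Fm.lt_fv hk
  rw [update_of_ne (by omega)]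

lemma Fm.sat_update {φ : Fm} {p : ℕ} (hp : φ.fv ≤ p) (e : ℕ → ℕ) (a : ℕ) :
    φ.Sat (update e p a) ↔ φ.Sat e := by
  refine Fm.sat_congr fun k hk => ?_
  have := Fm.lt_fv hk
  rw [update_of_ne (by omega)]

lemma update_le {e : ℕ → ℕ} {N p a : ℕ} (he : ∀ k, e k ≤ N) (ha : a ≤ N) (k : ℕ) :
    update e p a k ≤ N := by
  by_cases h : k = p
  · subst h; simpa using ha
  · rw [update_of_ne h]; exact he k

lemma dec_eq (t s : Tm) : ∃ f, PB f ∧ ∀ᶠ B in rich, ∀ N e, (∀ k, e k ≤ N) →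
    DecAt B (f N) (eq t s) e := by
  obtain ⟨f, hf, h⟩ := tm_fact t
  obtain ⟨f', hf', h'⟩ := tm_fact s
  obtain ⟨v, hv, hv1⟩ := tm_val t
  obtain ⟨w, hw, hw1⟩ := tm_val s
  obtain ⟨g, hg, h''⟩ := num_ne
  set p := max t.fv s.fv with hp
  set φ1 := imp (eq (var p) t) (imp (eq (var (p + 1)) s) (imp (eq (var p) (var (p + 1)))
    (eq t s))) with hφ1
  set φ2 := imp (eq (var p) t) (imp (eq (var (p + 1)) s) (imp (neg (eq (var p) (var (p + 1))))
    (neg (eq t s)))) with hφ2
  have e1 : ∀ᶠ B in rich, φ1.ucl ∈ B := rich_ucl fun e h1 h2 h3 => by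
    simp only [Fm.Sat, Tm.val] at h1 h2 h3 ⊢; omega
  have e2 : ∀ᶠ B in rich, φ2.ucl ∈ B := rich_ucl fun e h1 h2 h3 h4 => by
    simp only [Fm.Sat, Tm.val, Fm.sat_neg] at h1 h2 h3 h4 ⊢; omega
  set N' : ℕ → ℕ := fun N => N + v N + w N with hN'
  have hN'P : PB N' := (PB.id.add hv).add hw
  set F : ℕ → ℕ := fun N => f N + f' N + g (N' N) + (φ1.sz + φ2.sz) * (N' N + 1)
    + (2 * N' N + 3) + 10 with hF
  have hFP : PB F := (((((hf.add hf').add (hg.comp hN'P)).add ((PB.const _).mul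
    (hN'P.add (PB.const 1)))).add (((PB.const 2).mul hN'P).add (PB.const 3))).add (PB.const 10))
  refine ⟨fun N => F N, hFP, ?_⟩
  filter_upwards [h, h', h'', e1, e2] with B h h' h'' e1 e2 N e he
  have l3 := hv1 N e he
  have l4 := hw1 N e he
  have hN'N : N' N = N + v N + w N := rfl
  have hFN : F N = f N + f' N + g (N' N) + (φ1.sz + φ2.sz) * (N' N + 1)
    + (2 * N' N + 3) + 10 := rfl
  have hsz : φ1.sz * (N' N + 1) + φ2.sz * (N' N + 1) = (φ1.sz + φ2.sz) * (N' N + 1) := by ring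
  have hs1 : φ1.sz ≤ φ1.sz * (N' N + 1) := Nat.le_mul_of_pos_right _ (by omega)
  have hs2 : φ2.sz ≤ φ2.sz * (N' N + 1) := Nat.le_mul_of_pos_right _ (by omega)
  set e' := update (update e p (t.val e)) (p + 1) (s.val e) with he'
  have he'N : ∀ k, e' k ≤ N' N := fun k =>
    update_le (update_le (fun k => (he k).trans (by omega)) (by omega)) (by omega) k
  have hpt : t.fv ≤ p := le_max_left _ _
  have hps : s.fv ≤ p := le_max_right _ _
  have ct : t.cl e' = t.cl e := by
    rw [he', Tm.cl_update (by omega), Tm.cl_update hpt]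
  have cs : s.cl e' = s.cl e := by
    rw [he', Tm.cl_update (by omega), Tm.cl_update hps]
  have ep : e' p = t.val e := by rw [he', update_of_ne (by omega), update_self]
  have ep1 : e' (p + 1) = s.val e := by rw [he', update_self]
  have q1 : Pr B (f N) (F N) ((eq (var p) t).cl e') := by
    have : (eq (var p) t).cl e' = eq (num (t.val e)) (t.cl e) := by
      show eq (num (e' p)) (t.cl e') = _
      rw [ep, ct]
    rw [this]; exact (h N e he).mono le_rfl (by omega)
  have q2 : Pr B (f' N) (F N) ((eq (var (p + 1)) s).cl e') := by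
    have : (eq (var (p + 1)) s).cl e' = eq (num (s.val e)) (s.cl e) := by
      show eq (num (e' (p + 1))) (s.cl e') = _
      rw [ep1, cs]
    rw [this]; exact (h' N e he).mono le_rfl (by omega)
  have c3 : (eq (var p) (var (p + 1))).cl e' = eq (num (t.val e)) (num (s.val e)) := by
    show eq (num (e' p)) (num (e' (p + 1))) = _
    rw [ep, ep1]
  have c4 : (neg (eq (var p) (var (p + 1)))).cl e' = neg (eq (num (t.val e)) (num (s.val e))) :=
    congrArg neg c3
  have c5 : (eq t s).cl e' = (eq t s).cl e := by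
    show eq (t.cl e') (s.cl e') = eq (t.cl e) (s.cl e)
    rw [ct, cs]
  have c6 : (neg (eq t s)).cl e' = (neg (eq t s)).cl e := congrArg neg c5
  constructor
  · intro hts
    have hts' : t.val e = s.val e := hts
    have q3 : Pr B 1 (F N) ((eq (var p) (var (p + 1))).cl e') := by
      rw [c3, hts']
      exact Pr.eqRefl (by simp only [Tm.len_num]; omega)
    have := Pr.h3 e1 rfl he'N (M := F N) (by omega) q1 q2 q3
    rw [c5] at this
    exact this.mono (by omega) le_rfl
  · intro hts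
    have hts' : t.val e ≠ s.val e := hts
    have q3 : Pr B (g (N' N)) (F N) ((neg (eq (var p) (var (p + 1)))).cl e') := by
      rw [c4]
      exact (h'' (N' N) _ _ (by omega) (by omega) hts').mono le_rfl (by omega)
    have := Pr.h3 e2 rfl he'N (M := F N) (by omega) q1 q2 q3
    rw [c6] at this
    exact this.mono (by omega) le_rfl

lemma dec_le (t s : Tm) : ∃ f, PB f ∧ ∀ᶠ B in rich, ∀ N e, (∀ k, e k ≤ N) →
    DecAt B (f N) (le t s) e := by
  obtain ⟨f, hf, h⟩ := tm_fact t
  obtain ⟨f', hf', h'⟩ := tm_fact s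
  obtain ⟨v, hv, hv1⟩ := tm_val t
  obtain ⟨w, hw, hw1⟩ := tm_val s
  obtain ⟨g, hg, h''⟩ := num_nle
  obtain ⟨g', hg', h'''⟩ := num_le
  set p := max t.fv s.fv with hp
  set φ1 := imp (eq (var p) t) (imp (eq (var (p + 1)) s) (imp (le (var p) (var (p + 1)))
    (le t s))) with hφ1
  set φ2 := imp (eq (var p) t) (imp (eq (var (p + 1)) s) (imp (neg (le (var p) (var (p + 1))))
    (neg (le t s)))) with hφ2
  have e1 : ∀ᶠ B in rich, φ1.ucl ∈ B := rich_ucl fun e h1 h2 h3 => by
    simp only [Fm.Sat, Tm.val] at h1 h2 h3 ⊢; omega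
  have e2 : ∀ᶠ B in rich, φ2.ucl ∈ B := rich_ucl fun e h1 h2 h3 h4 => by
    simp only [Fm.Sat, Tm.val, Fm.sat_neg] at h1 h2 h3 h4 ⊢; omega
  set N' : ℕ → ℕ := fun N => N + v N + w N with hN'
  have hN'P : PB N' := (PB.id.add hv).add hw
  set F : ℕ → ℕ := fun N => f N + f' N + (g (N' N) + g' (N' N)) + (φ1.sz + φ2.sz) * (N' N + 1)
    + (2 * N' N + 3) + 10 with hF
  have hFP : PB F := (((((hf.add hf').add ((hg.comp hN'P).add (hg'.comp hN'P))).add
    ((PB.const _).mul (hN'P.add (PB.const 1)))).add (((PB.const 2).mul hN'P).add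
      (PB.const 3))).add (PB.const 10))
  refine ⟨fun N => F N, hFP, ?_⟩
  filter_upwards [h, h', h'', h''', e1, e2] with B h h' h'' h''' e1 e2 N e he
  have l3 := hv1 N e he
  have l4 := hw1 N e he
  have hN'N : N' N = N + v N + w N := rfl
  have hFN : F N = f N + f' N + (g (N' N) + g' (N' N)) + (φ1.sz + φ2.sz) * (N' N + 1)
    + (2 * N' N + 3) + 10 := rfl
  have hsz : φ1.sz * (N' N + 1) + φ2.sz * (N' N + 1) = (φ1.sz + φ2.sz) * (N' N + 1) := by ring
  have hs1 : φ1.sz ≤ φ1.sz * (N' N + 1) := Nat.le_mul_of_pos_right _ (by omega)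
  have hs2 : φ2.sz ≤ φ2.sz * (N' N + 1) := Nat.le_mul_of_pos_right _ (by omega)
  set e' := update (update e p (t.val e)) (p + 1) (s.val e) with he'
  have he'N : ∀ k, e' k ≤ N' N := fun k =>
    update_le (update_le (fun k => (he k).trans (by omega)) (by omega)) (by omega) k
  have hpt : t.fv ≤ p := le_max_left _ _
  have hps : s.fv ≤ p := le_max_right _ _
  have ct : t.cl e' = t.cl e := by
    rw [he', Tm.cl_update (by omega), Tm.cl_update hpt]
  have cs : s.cl e' = s.cl e := by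
    rw [he', Tm.cl_update (by omega), Tm.cl_update hps]
  have ep : e' p = t.val e := by rw [he', update_of_ne (by omega), update_self]
  have ep1 : e' (p + 1) = s.val e := by rw [he', update_self]
  have q1 : Pr B (f N) (F N) ((eq (var p) t).cl e') := by
    have : (eq (var p) t).cl e' = eq (num (t.val e)) (t.cl e) := by
      show eq (num (e' p)) (t.cl e') = _
      rw [ep, ct]
    rw [this]; exact (h N e he).mono le_rfl (by omega)
  have q2 : Pr B (f' N) (F N) ((eq (var (p + 1)) s).cl e') := by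
    have : (eq (var (p + 1)) s).cl e' = eq (num (s.val e)) (s.cl e) := by
      show eq (num (e' (p + 1))) (s.cl e') = _
      rw [ep1, cs]
    rw [this]; exact (h' N e he).mono le_rfl (by omega)
  have c3 : (le (var p) (var (p + 1))).cl e' = le (num (t.val e)) (num (s.val e)) := by
    show le (num (e' p)) (num (e' (p + 1))) = _
    rw [ep, ep1]
  have c4 : (neg (le (var p) (var (p + 1)))).cl e' = neg (le (num (t.val e)) (num (s.val e))) :=
    congrArg neg c3
  have c5 : (le t s).cl e' = (le t s).cl e := by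
    show le (t.cl e') (s.cl e') = le (t.cl e) (s.cl e)
    rw [ct, cs]
  have c6 : (neg (le t s)).cl e' = (neg (le t s)).cl e := congrArg neg c5
  constructor
  · intro hts
    have hts' : t.val e ≤ s.val e := hts
    have q3 : Pr B (g' (N' N)) (F N) ((le (var p) (var (p + 1))).cl e') := by
      rw [c3]
      exact (h''' (N' N) _ _ (by omega) (by omega) hts').mono le_rfl (by omega)
    have := Pr.h3 e1 rfl he'N (M := F N) (by omega) q1 q2 q3
    rw [c5] at this
    exact this.mono (by omega) le_rfl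
  · intro hts
    have hts' : ¬ t.val e ≤ s.val e := hts
    have q3 : Pr B (g (N' N)) (F N) ((neg (le (var p) (var (p + 1)))).cl e') := by
      rw [c4]
      exact (h'' (N' N) _ _ (by omega) (by omega) hts').mono le_rfl (by omega)
    have := Pr.h3 e2 rfl he'N (M := F N) (by omega) q1 q2 q3
    rw [c6] at this
    exact this.mono (by omega) le_rfl

end Helper31Con

end

section

/-!
# Deciding propositional combinations and bounded quantifiers
-/

namespace Helper31Con

open Function Fm Tm Filter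

lemma dec_imp (φ ψ : Fm) : ∃ c : ℕ, ∀ᶠ B in rich, ∀ N n e, (∀ k, e k ≤ N) → DecAt B n φ e →
    (φ.Sat e → DecAt B n ψ e) → DecAt B (2 * n + c * (N + 1)) (imp φ ψ) e := by
  set φ1 := imp ψ (imp φ ψ) with hφ1
  set φ2 := imp (neg φ) (imp φ ψ) with hφ2
  set φ3 := imp φ (imp (neg ψ) (neg (imp φ ψ))) with hφ3
  have e1 : ∀ᶠ B in rich, φ1.ucl ∈ B := rich_ucl fun e h1 _ => h1
  have e2 : ∀ᶠ B in rich, φ2.ucl ∈ B := rich_ucl fun e h1 h2 => absurd h2 h1
  have e3 : ∀ᶠ B in rich, φ3.ucl ∈ B := rich_ucl fun e h1 h2 h3 => h2 (h3 h1)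
  refine ⟨φ1.sz + φ2.sz + φ3.sz + 3, ?_⟩
  filter_upwards [e1, e2, e3] with B e1 e2 e3 N n e he h1 h2
  have hs : (φ1.sz + φ2.sz + φ3.sz + 3) * (N + 1) =
    φ1.sz * (N + 1) + φ2.sz * (N + 1) + φ3.sz * (N + 1) + 3 * (N + 1) := by ring
  have hs1 : φ1.sz ≤ φ1.sz * (N + 1) := Nat.le_mul_of_pos_right _ (by omega)
  have hs2 : φ2.sz ≤ φ2.sz * (N + 1) := Nat.le_mul_of_pos_right _ (by omega)
  have hs3 : φ3.sz ≤ φ3.sz * (N + 1) := Nat.le_mul_of_pos_right _ (by omega)
  set M := 2 * n + (φ1.sz + φ2.sz + φ3.sz + 3) * (N + 1) with hM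
  constructor
  · intro h
    by_cases hφ : φ.Sat e
    · have q := ((h2 hφ).1 (h hφ)).mono (M' := M) le_rfl (by omega)
      exact (Pr.h1 e1 rfl he (M := M) (by omega) q).mono (by omega) le_rfl
    · have q := (h1.2 hφ).mono (M' := M) le_rfl (by omega)
      exact (Pr.h1 e2 rfl he (M := M) (by omega) q).mono (by omega) le_rfl
  · intro h
    have hφ : φ.Sat e := by
      by_contra h'
      exact h fun h'' => absurd h'' h'
    have hψ : ¬ ψ.Sat e := fun h' => h fun _ => h'
    have q := (h1.1 hφ).mono (M' := M) le_rfl (by omega)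
    have q' := ((h2 hφ).2 hψ).mono (M' := M) le_rfl (by omega)
    exact (Pr.h2 e3 rfl he (M := M) (by omega) q q').mono (by omega) le_rfl

lemma dec_bot : ∃ c : ℕ, ∀ᶠ B in rich, ∀ e, DecAt B c Fm.bot e := by
  set φ := neg Fm.bot
  have e1 : ∀ᶠ B in rich, φ.ucl ∈ B := rich_ucl fun e h => h
  refine ⟨φ.sz * (0 + 1), ?_⟩
  filter_upwards [e1] with B e1 e
  refine ⟨fun h => absurd h (by simp [Fm.Sat]), fun _ => ?_⟩
  have := Pr.inst e1 (e := fun _ => 0) (N := 0) (fun _ => le_rfl)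
  exact this.mono (by omega) le_rfl

/-- The formula `∀ x_k (x_k ≤ x_a → ψ)`. -/
def Fm.ball (k a : ℕ) (ψ : Fm) : Fm := all k (imp (le (var k) (var a)) ψ)

lemma Fm.sat_ball {k a : ℕ} (h : k ≠ a) (ψ : Fm) (e : ℕ → ℕ) :
    (Fm.ball k a ψ).Sat e ↔ ∀ b ≤ e a, ψ.Sat (update e k b) := by
  simp only [Fm.ball, Fm.Sat, Tm.val, update_self, update_of_ne h.symm]

lemma dec_ball (ψ : Fm) (k a : ℕ) (hka : k ≠ a) : ∃ f, PB f ∧ ∀ᶠ B in rich, ∀ N n e,
    (∀ j, e j ≤ N) → (∀ b ≤ e a, DecAt B n ψ (update e k b)) →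
    DecAt B ((N + 2) * (n + f N)) (Fm.ball k a ψ) e := by
  obtain ⟨g, hg, hle⟩ := num_le
  set p := max ψ.fv (max (k + 1) (a + 1)) with hp
  have hpψ : ψ.fv ≤ p := le_max_left _ _
  have hpk : k + 1 ≤ p := (le_max_left _ _).trans (le_max_right _ _)
  have hpa : a + 1 ≤ p := (le_max_right _ _).trans (le_max_right _ _)
  set χ := Fm.ball k p ψ with hχ
  set χ' := Fm.ball k (p + 1) ψ with hχ'
  set φ := Fm.ball k a ψ with hφ
  set H1 := imp (eq (var k) zero) (imp (eq (var p) zero) (imp ψ χ)) with hH1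
  set H2 := imp (eq (var (p + 1)) (succ (var p))) (imp (eq (var k) (var (p + 1)))
    (imp χ (imp ψ χ'))) with hH2
  set H3 := imp (eq (var p) (var a)) (imp χ φ) with hH3
  set H4 := imp (le (var k) (var a)) (imp (neg ψ) (neg φ)) with hH4
  have e1 : ∀ᶠ B in rich, H1.ucl ∈ B := rich_ucl fun e h1 h2 h3 => by
    simp only [Fm.Sat, Tm.val] at h1 h2
    rw [hχ, Fm.sat_ball (by omega)]
    intro b hb
    have : b = e k := by omega
    rw [this, update_eq_self]; exact h3
  have e2 : ∀ᶠ B in rich, H2.ucl ∈ B := rich_ucl fun e h1 h2 h3 h4 => by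
    simp only [Fm.Sat, Tm.val] at h1 h2
    rw [hχ, Fm.sat_ball (by omega)] at h3
    rw [hχ', Fm.sat_ball (by omega)]
    intro b hb
    by_cases hb' : b ≤ e p
    · exact h3 b hb'
    · have : b = e k := by omega
      rw [this, update_eq_self]; exact h4
  have e3 : ∀ᶠ B in rich, H3.ucl ∈ B := rich_ucl fun e h1 h2 => by
    simp only [Fm.Sat, Tm.val] at h1
    rw [hχ, Fm.sat_ball (by omega)] at h2
    rw [hφ, Fm.sat_ball (by omega)]
    intro b hb
    exact h2 b (by omega)
  have e4 : ∀ᶠ B in rich, H4.ucl ∈ B := rich_ucl fun e h1 h2 h3 => by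
    simp only [Fm.Sat, Tm.val] at h1
    rw [hφ, Fm.sat_ball (by omega)] at h3
    have := h3 (e k) h1
    rw [update_eq_self] at this
    exact h2 this
  set S := H1.sz + H2.sz + H3.sz + H4.sz with hS
  refine ⟨fun N => (S + 10) * (N + 1) + g N, ((PB.const _).mul (PB.id.add (PB.const 1))).add hg, ?_⟩
  filter_upwards [hle, e1, e2, e3, e4] with B hle e1 e2 e3 e4 N n e he hd
  have hSN : S * (N + 1) = H1.sz * (N + 1) + H2.sz * (N + 1) + H3.sz * (N + 1)
    + H4.sz * (N + 1) := by rw [hS]; ring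
  have hs1 : H1.sz ≤ H1.sz * (N + 1) := Nat.le_mul_of_pos_right _ (by omega)
  have hs2 : H2.sz ≤ H2.sz * (N + 1) := Nat.le_mul_of_pos_right _ (by omega)
  have hs3 : H3.sz ≤ H3.sz * (N + 1) := Nat.le_mul_of_pos_right _ (by omega)
  have hs4 : H4.sz ≤ H4.sz * (N + 1) := Nat.le_mul_of_pos_right _ (by omega)
  have h10 : (S + 10) * (N + 1) = S * (N + 1) + 10 * (N + 1) := by ring
  set M := n + ((S + 10) * (N + 1) + g N) with hM
  have hMle : M ≤ (N + 2) * M := Nat.le_mul_of_pos_left _ (by omega)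
  have hcφ : ∀ b, φ.cl (update e k b) = φ.cl e := fun b => by
    refine Fm.cl_congr fun j hj => ?_
    rw [update_of_ne]
    rintro rfl
    exact hj.1 rfl
  constructor
  · intro hsat
    rw [hφ, Fm.sat_ball (by omega)] at hsat
    -- the formula `χ` at `t`
    have key : ∀ t ≤ e a, Pr B ((t + 1) * M) M (χ.cl (update e p t)) := by
      intro t
      induction t with
      | zero =>
        intro ht
        set e' := update (update e k 0) p 0 with he'
        have he'N : ∀ j, e' j ≤ N := fun j => update_le (update_le he (by omega)) (by omega) j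
        have c0 : χ.cl e' = χ.cl (update e p 0) := by
          refine Fm.cl_congr fun j hj => ?_
          have hjk : j ≠ k := by rintro rfl; exact hj.1 rfl
          by_cases hjp : j = p
          · subst hjp; simp [he']
          · rw [he', update_of_ne hjp, update_of_ne hjk, update_of_ne hjp]
        have ek : e' k = 0 := by rw [he', update_of_ne (by omega), update_self]
        have ep : e' p = 0 := by rw [he', update_self]
        have q1 : Pr B 1 M ((eq (var k) zero).cl e') := by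
          have : (eq (var k) zero).cl e' = eq zero zero := by
            show eq (num (e' k)) zero = _
            rw [ek]; rfl
          rw [this]; exact Pr.eqRefl (by simp only [Tm.len]; omega)
        have q2 : Pr B 1 M ((eq (var p) zero).cl e') := by
          have : (eq (var p) zero).cl e' = eq zero zero := by
            show eq (num (e' p)) zero = _
            rw [ep]; rfl
          rw [this]; exact Pr.eqRefl (by simp only [Tm.len]; omega)
        have q3 : Pr B n M (ψ.cl e') := by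
          rw [he', Fm.cl_update hpψ]
          exact ((hd 0 (Nat.zero_le _)).1 (hsat 0 (Nat.zero_le _))).mono le_rfl (by omega)
        have := Pr.h3 e1 rfl he'N (M := M) (by omega) q1 q2 q3
        rw [c0] at this
        exact this.mono (by omega) le_rfl
      | succ t ih =>
        intro ht
        have ih := ih (by omega)
        have hta := he a
        set e' := update (update (update e k (t + 1)) p t) (p + 1) (t + 1) with he'
        have he'N : ∀ j, e' j ≤ N := fun j =>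
          update_le (update_le (update_le he (by omega)) (by omega)) (by omega) j
        have c0 : χ.cl e' = χ.cl (update e p t) := by
          refine Fm.cl_congr fun j hj => ?_
          have hjk : j ≠ k := by rintro rfl; exact hj.1 rfl
          have hjp1 : j < p + 1 := by
            rcases hj.2 with hj | hj
            · rcases hj with hj | hj
              · simp only [Tm.Has] at hj; omega
              · simp only [Tm.Has] at hj; omega
            · have := Fm.lt_fv hj; omega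
          by_cases hjp : j = p
          · subst hjp; rw [he', update_of_ne (by omega)]; simp
          · rw [he', update_of_ne (by omega), update_of_ne hjp, update_of_ne hjk,
              update_of_ne hjp]
        have c1 : χ'.cl e' = χ.cl (update e p (t + 1)) := by
          show Fm.all k _ = Fm.all k _
          refine congrArg (Fm.all k) ?_
          show Fm.imp _ _ = Fm.imp _ _
          congr 1
          · show Fm.le _ _ = Fm.le _ _
            congr 1
            · simp [Tm.sb]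
            · simp only [Tm.sb]
              rw [update_of_ne (by omega), update_of_ne (by omega), he']
              simp
          · refine Fm.sb_congr fun j hj => ?_
            have := Fm.lt_fv hj
            by_cases hjk : j = k
            · subst hjk; simp
            · rw [update_of_ne hjk, update_of_ne hjk, he', update_of_ne (by omega),
                update_of_ne (by omega), update_of_ne hjk, update_of_ne (by omega)]
        have ek : e' k = t + 1 := by
          rw [he', update_of_ne (by omega), update_of_ne (by omega), update_self]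
        have ep : e' p = t := by rw [he', update_of_ne (by omega), update_self]
        have ep1 : e' (p + 1) = t + 1 := by rw [he', update_self]
        have q1 : Pr B 1 M ((eq (var (p + 1)) (succ (var p))).cl e') := by
          have : (eq (var (p + 1)) (succ (var p))).cl e' = eq (num (t + 1)) (num (t + 1)) := by
            show eq (num (e' (p + 1))) (succ (num (e' p))) = _
            rw [ep, ep1]; rfl
          rw [this]; exact Pr.eqRefl (by simp only [Tm.len_num]; omega)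
        have q2 : Pr B 1 M ((eq (var k) (var (p + 1))).cl e') := by
          have : (eq (var k) (var (p + 1))).cl e' = eq (num (t + 1)) (num (t + 1)) := by
            show eq (num (e' k)) (num (e' (p + 1))) = _
            rw [ek, ep1]
          rw [this]; exact Pr.eqRefl (by simp only [Tm.len_num]; omega)
        have q3 : Pr B ((t + 1) * M) M (χ.cl e') := by rw [c0]; exact ih
        have q4 : Pr B n M (ψ.cl e') := by
          rw [he', Fm.cl_update (by omega), Fm.cl_update hpψ]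
          exact ((hd (t + 1) ht).1 (hsat (t + 1) ht)).mono le_rfl (by omega)
        have := Pr.h4 e2 rfl he'N (M := M) (by omega) q1 q2 q3 q4
        rw [c1] at this
        refine this.mono ?_ le_rfl
        have : (t + 1 + 1) * M = (t + 1) * M + M := by ring
        omega
    have h1 := key (e a) le_rfl
    set e' := update e p (e a) with he'
    have he'N : ∀ j, e' j ≤ N := fun j => update_le he (he a) j
    have ea : e' a = e a := by rw [he', update_of_ne (by omega)]
    have ep : e' p = e a := by rw [he', update_self]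
    have hea := he a
    have q1 : Pr B 1 M ((eq (var p) (var a)).cl e') := by
      have : (eq (var p) (var a)).cl e' = eq (num (e a)) (num (e a)) := by
        show eq (num (e' p)) (num (e' a)) = _
        rw [ep, ea]
      rw [this]; exact Pr.eqRefl (by simp only [Tm.len_num]; omega)
    have := Pr.h2 e3 rfl he'N (M := M) (by omega) q1 h1
    have c2 : φ.cl e' = φ.cl e := by
      refine Fm.cl_congr fun j hj => ?_
      rw [he', update_of_ne]
      rintro rfl
      rcases hj.2 with hj | hj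
      · rcases hj with hj | hj
        · simp only [Tm.Has] at hj; omega
        · simp only [Tm.Has] at hj; omega
      · have := Fm.lt_fv hj; omega
    rw [c2] at this
    refine this.mono ?_ hMle
    have h5 : (e a + 1) * M ≤ (N + 1) * M := Nat.mul_le_mul_right _ (by omega)
    have h6 : (N + 2) * M = (N + 1) * M + M := by ring
    omega
  · intro hsat
    rw [hφ, Fm.sat_ball (by omega)] at hsat
    push Not at hsat
    obtain ⟨b, hb, hb'⟩ := hsat
    have hea := he a
    set e' := update e k b with he'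
    have he'N : ∀ j, e' j ≤ N := fun j => update_le he (by omega) j
    have q1 : Pr B (g N) M ((le (var k) (var a)).cl e') := by
      have : (le (var k) (var a)).cl e' = le (num b) (num (e a)) := by
        show le (num (e' k)) (num (e' a)) = _
        rw [he', update_self, update_of_ne (by omega)]
      rw [this]; exact (hle N b (e a) (by omega) hea hb).mono le_rfl (by omega)
    have q2 : Pr B n M ((neg ψ).cl e') := ((hd b hb).2 hb').mono le_rfl (by omega)
    have := Pr.h2 e4 rfl he'N (M := M) (by omega) q1 q2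
    have c2 : (neg φ).cl e' = (neg φ).cl e := congrArg neg (hcφ b)
    rw [c2] at this
    exact this.mono (by omega) hMle

end Helper31Con

end

section

/-!
# Relations given by bounded recursion are decided by rich sets of sentences
-/

namespace Helper31Con

open Function Fm Tm Filter

/-- Bounded formulas over a family of relations, with a self reference. -/
inductive BF where
  | bot : BF
  | eq (t s : Tm) : BF
  | le (t s : Tm) : BF
  | rel (j a b c d : ℕ) : BF
  | slf (a b c d : ℕ) : BF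
  | imp (φ ψ : BF) : BF
  | ball (k a : ℕ) (φ : BF) : BF

namespace BF

/-- Evaluation. -/
def ev (R : ℕ → ℕ → ℕ → ℕ → ℕ → Prop) (S : ℕ → ℕ → ℕ → ℕ → Prop) : BF → (ℕ → ℕ) → Prop
  | bot, _ => False
  | eq t s, e => t.val e = s.val e
  | le t s, e => t.val e ≤ s.val e
  | rel j a b c d, e => R j (e a) (e b) (e c) (e d)
  | slf a b c d, e => e a < e 0 ∧ S (e a) (e b) (e c) (e d)
  | imp φ ψ, e => φ.ev R S e → ψ.ev R S e
  | ball k a φ, e => ∀ b ≤ e a, φ.ev R S (update e k b)

/-- Admissible: only relations of index `< i` occur, and all variables are below `16`. -/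
def Ok (i : ℕ) : BF → Prop
  | bot => True
  | eq _ _ => True
  | le _ _ => True
  | rel j a b c d => j < i ∧ a < 16 ∧ b < 16 ∧ c < 16 ∧ d < 16
  | slf a b c d => a < 16 ∧ b < 16 ∧ c < 16 ∧ d < 16
  | imp φ ψ => φ.Ok i ∧ ψ.Ok i
  | ball k a φ => k ≠ 0 ∧ k ≠ a ∧ φ.Ok i

/-- Negation. -/
def neg (φ : BF) : BF := imp φ bot
/-- Conjunction. -/
def and (φ ψ : BF) : BF := neg (imp φ (neg ψ))
/-- Disjunction. -/
def or (φ ψ : BF) : BF := imp (neg φ) ψ
/-- Bounded existential quantifier. -/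
def bex (k a : ℕ) (φ : BF) : BF := neg (ball k a (neg φ))

variable {R : ℕ → ℕ → ℕ → ℕ → ℕ → Prop} {S : ℕ → ℕ → ℕ → ℕ → Prop}

@[simp] lemma ev_bot (e : ℕ → ℕ) : bot.ev R S e ↔ False := Iff.rfl
@[simp] lemma ev_eq (t s : Tm) (e : ℕ → ℕ) : (eq t s).ev R S e ↔ t.val e = s.val e := Iff.rfl
@[simp] lemma ev_le (t s : Tm) (e : ℕ → ℕ) : (le t s).ev R S e ↔ t.val e ≤ s.val e := Iff.rfl
@[simp] lemma ev_rel (j a b c d : ℕ) (e : ℕ → ℕ) :
    (rel j a b c d).ev R S e ↔ R j (e a) (e b) (e c) (e d) := Iff.rfl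
@[simp] lemma ev_slf (a b c d : ℕ) (e : ℕ → ℕ) :
    (slf a b c d).ev R S e ↔ e a < e 0 ∧ S (e a) (e b) (e c) (e d) := Iff.rfl
@[simp] lemma ev_imp (φ ψ : BF) (e : ℕ → ℕ) :
    (imp φ ψ).ev R S e ↔ (φ.ev R S e → ψ.ev R S e) := Iff.rfl
@[simp] lemma ev_ball (k a : ℕ) (φ : BF) (e : ℕ → ℕ) :
    (ball k a φ).ev R S e ↔ ∀ b ≤ e a, φ.ev R S (update e k b) := Iff.rfl
@[simp] lemma ev_neg (φ : BF) (e : ℕ → ℕ) : φ.neg.ev R S e ↔ ¬ φ.ev R S e := Iff.rfl
@[simp] lemma ev_and (φ ψ : BF) (e : ℕ → ℕ) :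
    (φ.and ψ).ev R S e ↔ φ.ev R S e ∧ ψ.ev R S e := by
  simp only [BF.and, ev_neg, ev_imp]; tauto
@[simp] lemma ev_or (φ ψ : BF) (e : ℕ → ℕ) :
    (φ.or ψ).ev R S e ↔ φ.ev R S e ∨ ψ.ev R S e := by
  simp only [BF.or, ev_neg, ev_imp]; tauto
@[simp] lemma ev_bex (k a : ℕ) (φ : BF) (e : ℕ → ℕ) :
    (bex k a φ).ev R S e ↔ ∃ b ≤ e a, φ.ev R S (update e k b) := by
  simp only [BF.bex, ev_neg, ev_ball]; push Not; rfl

@[simp] lemma ok_bot (i : ℕ) : bot.Ok i := trivial
@[simp] lemma ok_eq (i : ℕ) (t s : Tm) : (eq t s).Ok i := trivial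
@[simp] lemma ok_le (i : ℕ) (t s : Tm) : (le t s).Ok i := trivial
@[simp] lemma ok_neg (i : ℕ) (φ : BF) : φ.neg.Ok i ↔ φ.Ok i := by simp [neg, Ok]
@[simp] lemma ok_and (i : ℕ) (φ ψ : BF) : (φ.and ψ).Ok i ↔ φ.Ok i ∧ ψ.Ok i := by simp [and, Ok, neg]
@[simp] lemma ok_or (i : ℕ) (φ ψ : BF) : (φ.or ψ).Ok i ↔ φ.Ok i ∧ ψ.Ok i := by simp [or, Ok, neg]
@[simp] lemma ok_bex (i : ℕ) (k a : ℕ) (φ : BF) : (bex k a φ).Ok i ↔ k ≠ 0 ∧ k ≠ a ∧ φ.Ok i := by
  simp [bex, Ok, neg]

end BF

/-- Variables that the defining formulas do not bind: all below `16` and all even ones. -/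
def Al (k : ℕ) : Prop := k < 16 ∨ k % 2 = 0

/-- Terms all of whose variables are allowed. -/
def Tm.Alw (t : Tm) : Prop := ∀ k, t.Has k → Al k

lemma Tm.alw_var {k : ℕ} (h : Al k) : (var k).Alw := fun j hj => by
  simp only [Tm.Has] at hj; subst hj; exact h

lemma Tm.alw_num (n : ℕ) : (num n).Alw := fun j hj => absurd hj (Tm.not_has_num _ _)

/-- Formulas for a family of 4-ary relations. -/
structure Iface (R : ℕ → ℕ → ℕ → ℕ → ℕ → Prop) where
  /-- The atomic formula. -/
  A : ℕ → Tm → Tm → Tm → Tm → Fm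
  sat : ∀ (j : ℕ) (t₀ t₁ t₂ t₃ : Tm) (e : ℕ → ℕ), t₀.Alw → t₁.Alw → t₂.Alw → t₃.Alw →
    ((A j t₀ t₁ t₂ t₃).Sat e ↔ R j (t₀.val e) (t₁.val e) (t₂.val e) (t₃.val e))
  cl : ∀ (j : ℕ) (t₀ t₁ t₂ t₃ : Tm) (e : ℕ → ℕ), t₀.Alw → t₁.Alw → t₂.Alw → t₃.Alw →
    (A j t₀ t₁ t₂ t₃).cl e = A j (t₀.cl e) (t₁.cl e) (t₂.cl e) (t₃.cl e)
  free : ∀ (j : ℕ) (t₀ t₁ t₂ t₃ : Tm) (k : ℕ), t₀.Alw → t₁.Alw → t₂.Alw → t₃.Alw →
    (A j t₀ t₁ t₂ t₃).Free k → t₀.Has k ∨ t₁.Has k ∨ t₂.Has k ∨ t₃.Has k

variable {R : ℕ → ℕ → ℕ → ℕ → ℕ → Prop}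

/-- The atom at variables. -/
def Iface.V (I : Iface R) (j a b c d : ℕ) : Fm := I.A j (var a) (var b) (var c) (var d)

lemma Iface.satV (I : Iface R) {j a b c d : ℕ} (ha : Al a) (hb : Al b) (hc : Al c) (hd : Al d)
    (e : ℕ → ℕ) : (I.V j a b c d).Sat e ↔ R j (e a) (e b) (e c) (e d) :=
  I.sat j _ _ _ _ e (Tm.alw_var ha) (Tm.alw_var hb) (Tm.alw_var hc) (Tm.alw_var hd)

lemma Iface.clV (I : Iface R) {j a b c d : ℕ} (ha : Al a) (hb : Al b) (hc : Al c) (hd : Al d)
    (e : ℕ → ℕ) : (I.V j a b c d).cl e = I.A j (num (e a)) (num (e b)) (num (e c)) (num (e d)) :=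
  I.cl j _ _ _ _ e (Tm.alw_var ha) (Tm.alw_var hb) (Tm.alw_var hc) (Tm.alw_var hd)

/-- The instance of relation `j` at the given numbers is decided. -/
def DecI (I : Iface R) (B : List Fm) (n j a b c d : ℕ) : Prop :=
  (R j a b c d → Pr B n n (I.A j (num a) (num b) (num c) (num d))) ∧
  (¬ R j a b c d → Pr B n n (neg (I.A j (num a) (num b) (num c) (num d))))

lemma DecI.mono {I : Iface R} {B : List Fm} {n n' j a b c d : ℕ} (h : DecI I B n j a b c d)
    (hn : n ≤ n') : DecI I B n' j a b c d :=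
  ⟨fun h1 => (h.1 h1).mono hn hn, fun h1 => (h.2 h1).mono hn hn⟩

/-- All instances of relation `j` at arguments at most `N` are decided. -/
def DecR (I : Iface R) (B : List Fm) (n N j : ℕ) : Prop :=
  ∀ a b c d, a ≤ N → b ≤ N → c ≤ N → d ≤ N → DecI I B n j a b c d

lemma DecI.decAt {I : Iface R} {B : List Fm} {n j a b c d : ℕ} {e : ℕ → ℕ}
    (ha : Al a) (hb : Al b) (hc : Al c) (hd : Al d)
    (h : DecI I B n j (e a) (e b) (e c) (e d)) : DecAt B n (I.V j a b c d) e := by
  constructor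
  · intro h1
    rw [I.satV ha hb hc hd] at h1
    rw [I.clV ha hb hc hd]
    exact h.1 h1
  · intro h1
    rw [I.satV ha hb hc hd] at h1
    have : (neg (I.V j a b c d)).cl e = neg ((I.V j a b c d).cl e) := rfl
    rw [this, I.clV ha hb hc hd]
    exact h.2 h1

/-- Translation into the language of arithmetic. -/
def BF.fm (I : Iface R) (i : ℕ) : BF → Fm
  | BF.bot => Fm.bot
  | BF.eq t s => Fm.eq t s
  | BF.le t s => Fm.le t s
  | BF.rel j a b c d => I.V j a b c d
  | BF.slf a b c d => Fm.neg (Fm.imp (Fm.lt (var a) (var 0)) (Fm.neg (I.V i a b c d)))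
  | BF.imp φ ψ => Fm.imp (BF.fm I i φ) (BF.fm I i ψ)
  | BF.ball k a φ => Fm.ball k a (BF.fm I i φ)

lemma BF.sat_fm (I : Iface R) {i : ℕ} {ψ : BF} (h : ψ.Ok i) (e : ℕ → ℕ) :
    (ψ.fm I i).Sat e ↔ ψ.ev R (R i) e := by
  induction ψ generalizing e with
  | bot => exact Iff.rfl
  | eq t s => exact Iff.rfl
  | le t s => exact Iff.rfl
  | rel j a b c d =>
    obtain ⟨_, h1, h2, h3, h4⟩ := h
    exact I.satV (Or.inl h1) (Or.inl h2) (Or.inl h3) (Or.inl h4) e
  | slf a b c d =>
    obtain ⟨h1, h2, h3, h4⟩ := h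
    have := I.satV (j := i) (Or.inl h1) (Or.inl h2) (Or.inl h3) (Or.inl h4) e
    show ¬ (e a < e 0 → ¬ (I.V i a b c d).Sat e) ↔ _
    rw [this, BF.ev_slf]; tauto
  | imp φ ψ ih1 ih2 => exact imp_congr (ih1 h.1 e) (ih2 h.2 e)
  | ball k a φ ih =>
    show (Fm.ball k a (φ.fm I i)).Sat e ↔ _
    rw [Fm.sat_ball h.2.1]
    exact forall_congr' fun b => forall_congr' fun _ => ih h.2.2 _

lemma dec_bf (I : Iface R) {i : ℕ} {ψ : BF} (h : ψ.Ok i) : ∃ P, EB P ∧ ∀ᶠ B in rich,
    ∀ N n m e, 1 ≤ n → (∀ j < i, DecR I B n N j) →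
    (∀ a b c d, a < m → b ≤ N → c ≤ N → d ≤ N → DecI I B n i a b c d) →
    (∀ k, e k ≤ N) → e 0 ≤ m → DecAt B (P N * n) (ψ.fm I i) e := by
  induction ψ with
  | bot =>
    obtain ⟨c, hc⟩ := dec_bot
    refine ⟨fun _ => c, EB.const c, ?_⟩
    filter_upwards [hc] with B hB N n m e hn _ _ _ _
    exact (hB e).mono (Nat.le_mul_of_pos_right _ (by omega))
  | eq t s =>
    obtain ⟨f, hf, hc⟩ := dec_eq t s
    refine ⟨f, hf.eb, ?_⟩
    filter_upwards [hc] with B hB N n m e hn _ _ he _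
    exact (hB N e he).mono (Nat.le_mul_of_pos_right _ (by omega))
  | le t s =>
    obtain ⟨f, hf, hc⟩ := dec_le t s
    refine ⟨f, hf.eb, ?_⟩
    filter_upwards [hc] with B hB N n m e hn _ _ he _
    exact (hB N e he).mono (Nat.le_mul_of_pos_right _ (by omega))
  | rel j a b c d =>
    obtain ⟨h0, h1, h2, h3, h4⟩ := h
    refine ⟨fun _ => 1, EB.const 1, Eventually.of_forall fun B N n m e hn hj _ he _ => ?_⟩
    have := hj j h0 (e a) (e b) (e c) (e d) (he _) (he _) (he _) (he _)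
    exact (this.decAt (Or.inl h1) (Or.inl h2) (Or.inl h3) (Or.inl h4)).mono
      (Nat.le_mul_of_pos_left _ (by show 0 < 1; omega))
  | slf a b c d =>
    obtain ⟨h1, h2, h3, h4⟩ := h
    obtain ⟨f, hf, hc⟩ := dec_le (succ (var a)) (var 0)
    obtain ⟨c1, hc1⟩ := dec_imp (I.V i a b c d) Fm.bot
    obtain ⟨c2, hc2⟩ := dec_imp (Fm.lt (var a) (var 0)) (Fm.neg (I.V i a b c d))
    obtain ⟨c3, hc3⟩ := dec_imp (Fm.imp (Fm.lt (var a) (var 0)) (Fm.neg (I.V i a b c d))) Fm.bot
    obtain ⟨c0, hc0⟩ := dec_bot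
    refine ⟨fun N => 8 * (1 + f N + c0) + (8 * c1 + 4 * c2 + c3) * (N + 1),
      ((EB.const 8).mul (((EB.const 1).add hf.eb).add (EB.const c0))).add
        ((EB.const _).mul (EB.id.add (EB.const 1))), ?_⟩
    filter_upwards [hc, hc1, hc2, hc3, hc0] with B hc hc1 hc2 hc3 hc0 N n m e hn _ hs he he0
    set n1 := (1 + f N + c0) * n with hn1
    have hf1 : f N ≤ n1 := by
      rw [hn1]; exact (show f N ≤ 1 + f N + c0 by omega).trans (Nat.le_mul_of_pos_right _ (by omega))
    have hc01 : c0 ≤ n1 := by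
      rw [hn1]; exact (show c0 ≤ 1 + f N + c0 by omega).trans (Nat.le_mul_of_pos_right _ (by omega))
    have hnn1 : n ≤ n1 := by
      rw [hn1]; exact Nat.le_mul_of_pos_left _ (by omega)
    have d1 : DecAt B n1 (Fm.lt (var a) (var 0)) e := (hc N e he).mono hf1
    have d2 : (Fm.lt (var a) (var 0)).Sat e →
        DecAt B (2 * n1 + c1 * (N + 1)) (Fm.neg (I.V i a b c d)) e := by
      intro hlt
      have hlt' : e a < e 0 := hlt
      have := hs (e a) (e b) (e c) (e d) (by omega) (he _) (he _) (he _)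
      exact hc1 N n1 e he ((this.decAt (Or.inl h1) (Or.inl h2) (Or.inl h3) (Or.inl h4)).mono hnn1)
        (fun _ => (hc0 e).mono hc01)
    have d3 := hc2 N (2 * n1 + c1 * (N + 1)) e he (d1.mono (by omega)) d2
    have d4 := hc3 N _ e he d3 (fun _ => (hc0 e).mono (by omega))
    refine d4.mono ?_
    have h5 : (8 * (1 + f N + c0) + (8 * c1 + 4 * c2 + c3) * (N + 1)) * n =
      8 * n1 + (8 * c1 + 4 * c2 + c3) * (N + 1) * n := by rw [hn1]; ring
    have h6 : (8 * c1 + 4 * c2 + c3) * (N + 1) ≤ (8 * c1 + 4 * c2 + c3) * (N + 1) * n :=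
      Nat.le_mul_of_pos_right _ (by omega)
    have h7 : (8 * c1 + 4 * c2 + c3) * (N + 1) =
      8 * (c1 * (N + 1)) + 4 * (c2 * (N + 1)) + c3 * (N + 1) := by ring
    show 2 * (2 * (2 * n1 + c1 * (N + 1)) + c2 * (N + 1)) + c3 * (N + 1) ≤
      (8 * (1 + f N + c0) + (8 * c1 + 4 * c2 + c3) * (N + 1)) * n
    omega
  | imp φ ψ ih1 ih2 =>
    obtain ⟨P1, hP1, h1⟩ := ih1 h.1
    obtain ⟨P2, hP2, h2⟩ := ih2 h.2
    obtain ⟨c, hc⟩ := dec_imp (φ.fm I i) (ψ.fm I i)
    refine ⟨fun N => 2 * (P1 N + P2 N) + c * (N + 1), ((EB.const 2).mul (hP1.add hP2)).add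
      ((EB.const c).mul (EB.id.add (EB.const 1))), ?_⟩
    filter_upwards [h1, h2, hc] with B h1 h2 hc N n m e hn hj hs he he0
    have d1 := h1 N n m e hn hj hs he he0
    have d2 := h2 N n m e hn hj hs he he0
    have e1 : (P1 N + P2 N) * n = P1 N * n + P2 N * n := by ring
    have := hc N ((P1 N + P2 N) * n) e he (d1.mono (by omega)) (fun _ => d2.mono (by omega))
    refine this.mono ?_
    have e2 : c * (N + 1) ≤ c * (N + 1) * n := Nat.le_mul_of_pos_right _ (by omega)
    have e3 : (2 * (P1 N + P2 N) + c * (N + 1)) * n =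
      2 * ((P1 N + P2 N) * n) + c * (N + 1) * n := by ring
    show 2 * ((P1 N + P2 N) * n) + c * (N + 1) ≤ (2 * (P1 N + P2 N) + c * (N + 1)) * n
    omega
  | ball k a φ ih =>
    obtain ⟨P1, hP1, h1⟩ := ih h.2.2
    obtain ⟨f, hf, hc⟩ := dec_ball (φ.fm I i) k a h.2.1
    refine ⟨fun N => (N + 2) * (P1 N + f N), (EB.id.add (EB.const 2)).mul (hP1.add hf.eb), ?_⟩
    filter_upwards [h1, hc] with B h1 hc N n m e hn hj hs he he0
    have d := hc N (P1 N * n) e he (fun b hb => h1 N n m (update e k b) hn hj hs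
      (fun j => update_le he (hb.trans (he a)) j) (by rw [update_of_ne h.1.symm]; exact he0))
    refine d.mono ?_
    show (N + 2) * (P1 N * n + f N) ≤ (N + 2) * (P1 N + f N) * n
    rw [mul_assoc]
    refine Nat.mul_le_mul_left _ ?_
    have e2 : f N ≤ f N * n := Nat.le_mul_of_pos_right _ (by omega)
    have e3 : (P1 N + f N) * n = P1 N * n + f N * n := by ring
    omega

lemma dec_rec (I : Iface R) {i : ℕ} {ψ : BF} (h : ψ.Ok i)
    (hR : ∀ e : ℕ → ℕ, R i (e 0) (e 1) (e 2) (e 3) ↔ ψ.ev R (R i) e)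
    (hprev : ∃ f, EB f ∧ ∀ᶠ B in rich, ∀ N, ∀ j < i, DecR I B (f N) N j) :
    ∃ f, EB f ∧ ∀ᶠ B in rich, ∀ N, ∀ j < i + 1, DecR I B (f N) N j := by
  obtain ⟨f, hf, hB⟩ := hprev
  obtain ⟨P, hP, hdec⟩ := dec_bf I h
  have a0 : Al 0 := Or.inl (by omega)
  have a1 : Al 1 := Or.inl (by omega)
  have a2 : Al 2 := Or.inl (by omega)
  have a3 : Al 3 := Or.inl (by omega)
  set H1 := imp (ψ.fm I i) (I.V i 0 1 2 3) with hH1
  set H2 := imp (neg (ψ.fm I i)) (neg (I.V i 0 1 2 3)) with hH2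
  have e1 : ∀ᶠ B in rich, H1.ucl ∈ B := rich_ucl fun e h1 => by
    rw [I.satV a0 a1 a2 a3, hR]; exact (BF.sat_fm I h e).mp h1
  have e2 : ∀ᶠ B in rich, H2.ucl ∈ B := rich_ucl fun e h1 => by
    simp only [Fm.sat_neg] at h1 ⊢
    rw [I.satV a0 a1 a2 a3, hR]; exact fun h2 => h1 ((BF.sat_fm I h e).mpr h2)
  set c := H1.sz + H2.sz + 1 with hc
  set Q : ℕ → ℕ := fun N => P N + c * (N + 1) with hQ
  have hQE : EB Q := hP.add ((EB.const c).mul (EB.id.add (EB.const 1)))
  refine ⟨fun N => Q N ^ (N + 1) * (f N + 1), (hQE.pow (EB.id.add (EB.const 1))).mul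
    (hf.add (EB.const 1)), ?_⟩
  filter_upwards [hB, hdec, e1, e2] with B hB hdec e1 e2 N
  have hQ1 : 1 ≤ Q N := by
    have : 1 * 1 ≤ c * (N + 1) := Nat.mul_le_mul (by omega) (by omega)
    simp only [hQ]; omega
  have hpow : ∀ m, 1 ≤ Q N ^ m := fun m => Nat.one_le_pow _ _ hQ1
  have hjN : ∀ m, ∀ j < i, DecR I B (Q N ^ m * (f N + 1)) N j := by
    intro m j hj a b c d ha hb hc hd
    refine (hB N j hj a b c d ha hb hc hd).mono ?_
    have := hpow m
    nlinarith
  have key : ∀ m, m ≤ N + 1 → ∀ a b c d, a < m → b ≤ N → c ≤ N → d ≤ N →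
      DecI I B (Q N ^ m * (f N + 1)) i a b c d := by
    intro m
    induction m with
    | zero => intro _ a b c d ha; omega
    | succ m ih =>
      intro hm a b c' d ha hb hc' hd
      have hn : 1 ≤ Q N ^ m * (f N + 1) := Nat.mul_pos (hpow m) (by omega)
      set n := Q N ^ m * (f N + 1) with hnn
      have he : ∀ k, as [a, b, c', d] k ≤ N := as_le (by simp; omega)
      have h1 := hdec N n m (as [a, b, c', d]) hn (hjN m) (ih (by omega)) he
        (show a ≤ m by omega)
      have hcost : P N * n + c * (N + 1) * n = Q N ^ (m + 1) * (f N + 1) := by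
        rw [hnn, pow_succ]; simp only [hQ]; ring
      have h2 : c * (N + 1) ≤ c * (N + 1) * n := Nat.le_mul_of_pos_right _ (by omega)
      have h3 : c * (N + 1) = H1.sz * (N + 1) + H2.sz * (N + 1) + (N + 1) := by rw [hc]; ring
      have hs1 : H1.sz ≤ H1.sz * (N + 1) := Nat.le_mul_of_pos_right _ (by omega)
      have hs2 : H2.sz ≤ H2.sz * (N + 1) := Nat.le_mul_of_pos_right _ (by omega)
      have hcl : (I.V i 0 1 2 3).cl (as [a, b, c', d]) =
          I.A i (num a) (num b) (num c') (num d) := I.clV a0 a1 a2 a3 _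
      set M := Q N ^ (m + 1) * (f N + 1) with hM
      constructor
      · intro hr
        have hs : (ψ.fm I i).Sat (as [a, b, c', d]) := (BF.sat_fm I h _).mpr ((hR _).mp hr)
        have := Pr.h1 e1 rfl he (M := M) (by omega) ((h1.1 hs).mono le_rfl (by omega))
        rw [hcl] at this
        exact this.mono (by omega) le_rfl
      · intro hr
        have hs : ¬ (ψ.fm I i).Sat (as [a, b, c', d]) := fun h' =>
          hr ((hR _).mpr ((BF.sat_fm I h _).mp h'))
        have := Pr.h1 e2 rfl he (M := M) (by omega) ((h1.2 hs).mono le_rfl (by omega))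
        have hcl' : (neg (I.V i 0 1 2 3)).cl (as [a, b, c', d]) =
          neg (I.A i (num a) (num b) (num c') (num d)) := congrArg neg hcl
        rw [hcl'] at this
        exact this.mono (by omega) le_rfl
  intro j hj a b c' d ha hb hc' hd
  by_cases hji : j = i
  · subst hji
    exact key (N + 1) le_rfl a b c' d (by omega) hb hc' hd
  · exact hjN (N + 1) j (by omega) a b c' d ha hb hc' hd

end Helper31Con

end
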